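import Pool.Agent.Y103.Hk.Cls
import Pool.Agent.Y138.TU.Final

/-!
# The Tate conjecture for the varieties built from one piece of K3 type: conclusion
-/

set_option autoImplicit false
set_option linter.unusedSectionVars false

open CategoryTheory AlgebraicGeometry NumberField
open scoped TensorProduct

universe u v

namespace Pool.Agent.Y103.Hk

open Pool.Agent.H914 Pool.Agent.H914.VarClass Pool.Agent.H914.VarClass.Obj
  Pool.Agent.H914.WeilCohomology Pool.Agent.H281R3.HT Pool.Agent.W552 Pool.Agent.W534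
  Pool.Agent.W458.RK Pool.Agent.W458.MF Pool.Agent.TH132.A Pool.Agent.W536.RR
  Pool.Agent.TH121.KT Pool.Agent.W517.K3 Pool.Agent.Y138.KC

variable {k : Type u} [Field k] {𝒱 : VarClass k} {ops : CycleOps 𝒱}
  {W : WeilCohomology.{u, v} ops} {p : ℕ} [Fact p.Prime] {Φ : FrobSystem W p}
  {ι : Qb →+* PadicAlgCl p} {X Z : 𝒱.Obj} {b e : ℕ} {E : Type} [Field E] [NumberField E]
  [IsCMField E] {α : E}

theorem hasCycle_iff {i : ℕ} : HasCycle W Z i ↔ ∃ x, Z.IsCyc i x ∧ ¬ HomEq W x 0 := by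
  unfold HasCycle HomEq
  simp only [map_zero, ne_eq]

theorem main [IsAlgClosed W.K] {a d n : ℕ} (hα : IsK3Frobenius p a α) (he : 0 < e)
    (hd : Module.finrank ℚ E = 2 * d) (hgood : GoodHk d (localDegree p α) n)
    (hX : TateIn Φ (X.prod X) (2 * b) ∨ SimpleLefschetz Φ X b e α)
    (hZ : IsBuiltFrom Φ X b e α n Z) :
    (∀ c, SemisimpleTateIn Φ Z c) ∧ InjectiveCycleMap W Z ∧
    ∀ (L : IntermediateField ℚ Qb), IsIndependentField E L →
      ∀ U : 𝒱.Obj, SlopesIn Φ ι L U → ∀ c,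
      (TateIn Φ (Z.prod U) c ↔ ∀ i ≤ c, HasCycle W Z i → TateIn Φ U (c - i)) ∧
      (SemisimpleTateIn Φ (Z.prod U) c ↔
        ∀ i ≤ c, HasCycle W Z i → SemisimpleTateIn Φ U (c - i)) := by
  have hp := (Fact.out : p.Prime).one_lt
  have hP : PairsAlg Φ X b e α := by
    rcases hX with h | h
    · exact pairs_of_tate hα.unitary he h
    · exact pairs_of_simple hα.unitary hα.powers h
  have hTT : ∀ L, IsIndependentField E L → TateTimesP Φ (InL p ι L) Z := fun L hL =>
    tateTimesP_built hP he hZ (zeroProp_good hα hd rfl hgood hL)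
  refine ⟨fun c => ?_, ?_, ?_⟩
  · exact Y138.TU.semisimple_of_times hp (hTT ⊥ independent_bot) (inL_one _) c
  · exact injective_of_homEqNum (homEqNum_of_tateTimesP hp (hTT ⊥ independent_bot) (inL_one _))
  · rintro L hL U ⟨Q, hQ, hLQ, hroot⟩ c
    simp only [hasCycle_iff]
    have key : ∀ b, Y138.TU.TateK Φ (Z.prod U) b c ↔
        ∀ i ≤ c, (∃ x, Z.IsCyc i x ∧ ¬ HomEq W x 0) → Y138.TU.TateK Φ U b (c - i) := fun b =>
      Y138.TU.tateK_prod_iff hp (hTT L hL) (inL_one L) (fun ν n hn h => inL_pow L ν n hn h)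
        (fun ν hν => ⟨Q, ν, 1, one_pos, hQ, hLQ, hroot ν hν, (pow_one ν).symm⟩)
    refine ⟨?_, ?_⟩
    · rw [Y138.TU.tateIn_iff, key 1]
      simp only [Y138.TU.tateIn_iff]
    · simp only [Y138.TU.semisimple_iff, key]
      constructor
      · intro h i hi hx a
        exact h a i hi hx
      · intro h a i hi hx
        exact h i hi hx a

end Pool.Agent.Y103.Hk
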