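import Pool.Agent.Y103.Hk.Times2
import Pool.Agent.Y103.Hk.Main

/-!
# The Tate conjecture for the products with varieties whose slopes are determined by several fields
-/

set_option autoImplicit false
set_option linter.unusedSectionVars false

open CategoryTheory AlgebraicGeometry NumberField
open scoped TensorProduct

universe u v

namespace Pool.Agent.Y103.Hk

open Pool.Agent.H914 Pool.Agent.H914.VarClass Pool.Agent.H914.VarClass.Obj
  Pool.Agent.H914.WeilCohomology Pool.Agent.H281R3.HT Pool.Agent.W552 Pool.Agent.W534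
  Pool.Agent.W458.RK Pool.Agent.W458.MF Pool.Agent.TH132.A Pool.Agent.W536.RR
  Pool.Agent.TH121.KT Pool.Agent.W517.K3 Pool.Agent.Y138.KC

variable {k : Type u} [Field k] {𝒱 : VarClass k} {ops : CycleOps 𝒱}
  {W : WeilCohomology.{u, v} ops} {p : ℕ} [Fact p.Prime] {Φ : FrobSystem W p}
  {ι : Qb →+* PadicAlgCl p} {X Z : 𝒱.Obj} {b e : ℕ} {E : Type} [Field E] [NumberField E]
  [IsCMField E] {α : E}

theorem hasSlopes_prod [IsAlgClosed W.K] {𝓛 : Set (IntermediateField ℚ Qb)} {U U' : 𝒱.Obj}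
    (hU : HasSlopes Φ ι 𝓛 U) (hU' : HasSlopes Φ ι 𝓛 U') : HasSlopes Φ ι 𝓛 (U.prod U') :=
  slopes_prod (fun _ _ h h' => inM_mul h h') (fun _ n _ h => inM_pow _ n h)
    (fun _ _ hn h => inM_root hn h) hU hU'

theorem one_ne_of_hasCycle (h : HasCycle W Z 0) : (1 : W.H Z) ≠ 0 := by
  obtain ⟨x, -, hx⟩ := h
  intro h1
  apply hx
  rw [← mul_one (W.cl Z x), h1, mul_zero]

theorem main_many [IsAlgClosed W.K] {n : ℕ} (hR : NoRel ι α) (he : 0 < e)
    (hpow : ∀ s : ℕ, 0 < s → IntermediateField.adjoin ℚ {α ^ s} = ⊤)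
    (hX : TateIn Φ (X.prod X) (2 * b) ∨ SimpleLefschetz Φ X b e α)
    (hZ : IsBuiltFrom Φ X b e α n Z) {L₀ : IntermediateField ℚ Qb}
    (hL₀ : IsStable L₀) (hlarge : LargeOrbits E L₀ n) {𝓛 : Set (IntermediateField ℚ Qb)}
    (h𝓛 : ∀ L ∈ 𝓛, L = L₀ ∨ (IsStable L ∧ IsConjOver E L)) {U : 𝒱.Obj}
    (hU : HasSlopes Φ ι 𝓛 U) :
    (HasCycle W Z 0 → (HomEqNum W (Z.prod U) ↔ HomEqNum W U)) ∧ ∀ c,
      (TateIn Φ (Z.prod U) c ↔ ∀ i ≤ c, HasCycle W Z i → TateIn Φ U (c - i)) ∧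
      (SemisimpleTateIn Φ (Z.prod U) c ↔
        ∀ i ≤ c, HasCycle W Z i → SemisimpleTateIn Φ U (c - i)) := by
  have hp := (Fact.out : p.Prime).one_lt
  have hP : PairsAlg Φ X b e α := by
    rcases hX with h | h
    · exact pairs_of_tate hR.unitary he h
    · exact pairs_of_simple hR.unitary hpow h
  have hTT := tateTimesP_many hP he hZ hR hL₀ hlarge h𝓛
  have hPpow : ∀ (ν : W.K) (n : ℕ), 0 < n → IsSlopeProduct ι 𝓛 ν → IsSlopeProduct ι 𝓛 (ν ^ n) :=
    fun ν n _ h => inM_pow ν n h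
  refine ⟨fun h0 => ?_, fun c => ?_⟩
  · exact homEqNum_prod_iff (fun z hz => tens_of_tateTimesP hp hTT (inM_one _) hPpow hU hz)
      (homEqNum_of_tateTimesP hp hTT (inM_one _)) (one_ne_of_hasCycle h0)
  simp only [hasCycle_iff]
  have key : ∀ b, Y138.TU.TateK Φ (Z.prod U) b c ↔
      ∀ i ≤ c, (∃ x, Z.IsCyc i x ∧ ¬ HomEq W x 0) → Y138.TU.TateK Φ U b (c - i) := fun b =>
    Y138.TU.tateK_prod_iff hp hTT (inM_one _) hPpow hU
  refine ⟨?_, ?_⟩
  · rw [Y138.TU.tateIn_iff, key 1]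
    simp only [Y138.TU.tateIn_iff]
  · simp only [Y138.TU.semisimple_iff, key]
    constructor
    · intro h i hi hx a
      exact h a i hi hx
    · intro h a i hi hx
      exact h i hi hx a

end Pool.Agent.Y103.Hk
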