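import Pool.Agent.Y138.KC.Defs

/-!
# Numbers without norm relations: definitions
-/

set_option autoImplicit false

open NumberField

namespace Pool.Agent.Y103.Hk

open Pool.Agent.W517.K3 Pool.Agent.Y138.KC

/-- No power of a norm of `α` to a subfield on which the complex conjugation is not trivial is
equal to one. -/
def NoNormRelation {E : Type} [Field E] [NumberField E] [IsCMField E] (α : E) : Prop :=
  ∀ E₀ : IntermediateField ℚ E, (∃ x ∈ E₀, IsCMField.complexConj E x ≠ x) →
    ∀ s : ℕ, 0 < s → Algebra.norm E₀ α ^ s ≠ 1

/-- The numerical condition on a number `α` of degree `2 d`: the local degree is odd, `d` is at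
most `11` and the pair is not one of four exceptions; or the local degree is at most two or `d` is
a prime number, and there is no norm relation. -/
def IsGoodNumber (p : ℕ) [Fact p.Prime] {E : Type} [Field E] [NumberField E] [IsCMField E]
    (α : E) (d : ℕ) : Prop :=
  (Odd (localDegree p α) ∧ d ≤ 11 ∧ (d, localDegree p α) ∉ exceptionalOddPairs) ∨
    ((localDegree p α ≤ 2 ∨ d.Prime) ∧ NoNormRelation α)

end Pool.Agent.Y103.Hk
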