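import Pool.Agent.Y103.Hk.Defs

/-!
# Varieties whose Frobenius slopes are determined by several Galois fields: definitions
-/

set_option autoImplicit false

open CategoryTheory AlgebraicGeometry NumberField

universe u v

namespace Pool.Agent.Y103.Hk

open Pool.Agent.H914 Pool.Agent.H914.VarClass Pool.Agent.H914.VarClass.Obj
  Pool.Agent.H914.WeilCohomology Pool.Agent.W534

/-- The field `L` is mapped to itself by all automorphisms (it is a Galois extension of `ℚ`). -/
def IsStable (L : IntermediateField ℚ (AlgebraicClosure ℚ)) : Prop :=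
  ∀ g : AlgebraicClosure ℚ ≃ₐ[ℚ] AlgebraicClosure ℚ, ∀ x ∈ L, g x ∈ L

/-- The intersections of `L` with the images of the CM field `E` are totally real. -/
def RealIntersection (E : Type) [Field E] [NumberField E] [IsCMField E]
    (L : IntermediateField ℚ (AlgebraicClosure ℚ)) : Prop :=
  ∀ (σ : E →+* AlgebraicClosure ℚ) (x : E), σ x ∈ L → IsCMField.complexConj E x = x

/-- The intersection of `L` with any image of the CM field `E` is totally real, or the degree of `E`
over it is greater than `n`. -/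
def SmallIntersection (E : Type) [Field E] [NumberField E] [IsCMField E]
    (L : IntermediateField ℚ (AlgebraicClosure ℚ)) (n : ℕ) : Prop :=
  ∀ σ : E →+* AlgebraicClosure ℚ, (∀ x, σ x ∈ L → IsCMField.complexConj E x = x) ∨
    n < Module.finrank (L.comap σ.toRatAlgHom) E

/-- The number `β` is a root of a nonzero rational polynomial whose slopes at the place `ι` are
determined by the field `L`: the automorphisms over `L` preserve the `p`-adic absolute values of its
roots (for example: `L` contains the roots). -/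
def SlopeRoot {p : ℕ} [Fact p.Prime] (ι : AlgebraicClosure ℚ →+* PadicAlgCl p) {Ω : Type*}
    [Field Ω] [CharZero Ω] (L : IntermediateField ℚ (AlgebraicClosure ℚ)) (β : Ω) : Prop :=
  ∃ Q : Polynomial ℚ, Q ≠ 0 ∧
    (∀ h : AlgebraicClosure ℚ ≃ₐ[ℚ] AlgebraicClosure ℚ, (∀ x ∈ L, h x = x) →
      ∀ γ : AlgebraicClosure ℚ, Polynomial.aeval γ Q = 0 → ‖ι (h γ)‖ = ‖ι γ‖) ∧
    Polynomial.aeval β Q = 0

/-- Some power of `ν` is a product of numbers whose slopes are determined by fields in `𝓛`. -/
def IsSlopeProduct {p : ℕ} [Fact p.Prime] (ι : AlgebraicClosure ℚ →+* PadicAlgCl p) {Ω : Type*}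
    [Field Ω] [CharZero Ω] (𝓛 : Set (IntermediateField ℚ (AlgebraicClosure ℚ))) (ν : Ω) : Prop :=
  ∃ (t : ℕ) (l : List Ω), 0 < t ∧ ν ^ t = l.prod ∧ ∀ β ∈ l, ∃ L ∈ 𝓛, SlopeRoot ι L β

/-- The eigenvalues of the Frobenius endomorphism of `U` on the cohomology are, up to powers,
products of numbers whose slopes are determined by fields in `𝓛`. -/
def HasSlopes {k : Type u} [Field k] {𝒱 : VarClass k} {ops : CycleOps 𝒱}
    {W : WeilCohomology.{u, v} ops} {p : ℕ} [Fact p.Prime] (Φ : FrobSystem W p)
    (ι : AlgebraicClosure ℚ →+* PadicAlgCl p)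
    (𝓛 : Set (IntermediateField ℚ (AlgebraicClosure ℚ))) (U : 𝒱.Obj) : Prop :=
  ∀ ν : W.K, Module.End.HasEigenvalue (W.map (Φ.Fr U)).toLinearMap ν → IsSlopeProduct ι 𝓛 ν

/-- Homological and numerical equivalence agree for the cycles on `U` (the conjecture D). -/
def HomIsNum {k : Type u} [Field k] {𝒱 : VarClass k} {ops : CycleOps 𝒱}
    (W : WeilCohomology.{u, v} ops) (U : 𝒱.Obj) : Prop :=
  ∀ j ≤ U.dim, ∀ z, U.IsCyc j z →
    (∀ w, U.IsCyc (U.dim - j) w → U.V.degCycle (ops.mul z w) = 0) → W.cl U z = 0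

end Pool.Agent.Y103.Hk
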