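import Pool.Agent.Y103.Hk.Rel
import Pool.Agent.Y103.Hk.Defs2

/-!
# Relations between the conjugates of a number and numbers with slopes in several Galois fields
-/

set_option autoImplicit false
set_option linter.unusedSectionVars false

namespace Pool.Agent.Y103.Hk

open NumberField Polynomial Module Pool.Agent.TH121.KT

section

variable {p : ℕ} [Fact p.Prime] {ι : Qb →+* PadicAlgCl p} {E : Type} [Field E] [NumberField E]
  [IsCMField E] {α : E}

/-- the sum of the slopes -/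
noncomputable def RR (ι : Qb →+* PadicAlgCl p) (α : E) (f : (E →+* Qb) → ℤ) (g : GQ) : ℝ :=
  ∑ σ : E →+* Qb, (f σ : ℝ) * Real.log ‖ι (g (σ α))‖

/-- the translate of a function -/
noncomputable def tr (h : GQ) (f : (E →+* Qb) → ℤ) : (E →+* Qb) → ℤ := fun σ => f (act h⁻¹ σ)

lemma tr_apply (h : GQ) (f : (E →+* Qb) → ℤ) (σ : E →+* Qb) : tr h f σ = f (act h⁻¹ σ) := rfl

lemma tr_mul (h k : GQ) (f : (E →+* Qb) → ℤ) : tr h (tr k f) = tr (h * k) f := by
  funext σ
  rw [tr_apply, tr_apply, tr_apply, mul_inv_rev, act_mul]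

lemma tr_one (f : (E →+* Qb) → ℤ) : tr 1 f = f := by
  funext σ
  rw [tr_apply, inv_one, act_one]

lemma RR_tr (f : (E →+* Qb) → ℤ) (h g : GQ) : RR ι α (tr h f) g = RR ι α f (g * h) := by
  unfold RR
  refine Fintype.sum_equiv ⟨act h⁻¹, act h, act_act_inv h, act_inv_act h⟩ _ _ fun σ => ?_
  change (tr h f σ : ℝ) * Real.log ‖ι (g (σ α))‖ =
    (f (act h⁻¹ σ) : ℝ) * Real.log ‖ι ((g * h) (act h⁻¹ σ α))‖
  rw [tr_apply]
  congr 4
  change g (σ α) = g (act h (act h⁻¹ σ) α)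
  rw [act_act_inv]

lemma RR_sub (f f' : (E →+* Qb) → ℤ) (g : GQ) : RR ι α (f - f') g = RR ι α f g - RR ι α f' g := by
  unfold RR
  rw [← Finset.sum_sub_distrib]
  refine Finset.sum_congr rfl fun σ _ => ?_
  rw [Pi.sub_apply]
  push_cast
  ring

/-- odd functions -/
def IsOdd (f : (E →+* Qb) → ℤ) : Prop := ∀ σ, f (cj σ) = - f σ

lemma IsOdd.tr {f : (E →+* Qb) → ℤ} (hf : IsOdd f) (h : GQ) : IsOdd (tr h f) := by
  intro σ
  rw [tr_apply, tr_apply, act_cj, hf]

lemma IsOdd.sub {f f' : (E →+* Qb) → ℤ} (hf : IsOdd f) (hf' : IsOdd f') : IsOdd (f - f') := by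
  intro σ
  rw [Pi.sub_apply, Pi.sub_apply, hf, hf']
  ring

/-- There are no relations between the conjugates of `α`. -/
structure NoRel (ι : Qb →+* PadicAlgCl p) (α : E) : Prop where
  unitary : ∀ φ : E →+* ℂ, ‖φ α‖ = 1
  zero : ∀ f : (E →+* Qb) → ℤ, IsOdd f → (∀ g, RR ι α f g = 0) → ∀ σ, f σ = 0

/-- the functions which are invariant under the automorphisms over `L` -/
def LeftInv (L : IntermediateField ℚ Qb) (u : GQ → ℝ) : Prop :=
  ∀ h : GQ, (∀ x ∈ L, h x = x) → ∀ g, u (h * g) = u g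

/-- sums of invariant functions -/
def SumInv (L₀ : IntermediateField ℚ Qb) : List (IntermediateField ℚ Qb) → (GQ → ℝ) → Prop
  | [], w => LeftInv L₀ w
  | L :: S, w => ∃ u w', LeftInv L u ∧ SumInv L₀ S w' ∧ ∀ g, w g = u g + w' g

lemma LeftInv.diff {L : IntermediateField ℚ Qb} {u : GQ → ℝ} (hu : LeftInv L u) (k : GQ) :
    LeftInv L fun g => u (g * k) - u g := by
  intro h hh g
  change u (h * g * k) - u (h * g) = _
  rw [mul_assoc, hu h hh, hu h hh]

lemma SumInv.diff {L₀ : IntermediateField ℚ Qb} (k : GQ) :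
    ∀ {S : List (IntermediateField ℚ Qb)} {w : GQ → ℝ}, SumInv L₀ S w →
      SumInv L₀ S fun g => w (g * k) - w g
  | [], _, hw => LeftInv.diff hw k
  | _ :: _, w, ⟨u, w', h1, h2, h3⟩ =>
    ⟨_, _, h1.diff k, SumInv.diff k h2, fun g => by
      change w (g * k) - w g = (u (g * k) - u g) + (w' (g * k) - w' g)
      rw [h3, h3]
      ring⟩

lemma SumInv.congr {L₀ : IntermediateField ℚ Qb} {S : List (IntermediateField ℚ Qb)}
    {w w' : GQ → ℝ} (h : SumInv L₀ S w) (hww : ∀ g, w' g = w g) : SumInv L₀ S w' := by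
  rwa [show w' = w from funext hww]

lemma SumInv.add_left {L₀ : IntermediateField ℚ Qb} {u : GQ → ℝ} (hu : LeftInv L₀ u) :
    ∀ {S : List (IntermediateField ℚ Qb)} {w : GQ → ℝ}, SumInv L₀ S w →
      SumInv L₀ S fun g => u g + w g
  | [], w, hw => by
    intro h hh g
    change u (h * g) + w (h * g) = u g + w g
    rw [hu h hh, hw h hh]
  | _ :: _, w, ⟨u', w', h1, h2, h3⟩ =>
    ⟨u', _, h1, SumInv.add_left hu h2, fun g => by
      change u g + w g = u' g + (u g + w' g)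
      rw [h3]
      ring⟩

lemma LeftInv.right {L : IntermediateField ℚ Qb} (hL : IsStable L) {u : GQ → ℝ}
    (hu : LeftInv L u) {h : GQ} (hh : ∀ x ∈ L, h x = x) (g : GQ) : u (g * h) = u g := by
  have h1 : g * h = (g * h * g⁻¹) * g := by group
  rw [h1]
  refine hu _ (fun x hx => ?_) g
  have h2 : h (g⁻¹ x) = g⁻¹ x := hh _ (hL g⁻¹ x hx)
  change g (h (g⁻¹ x)) = x
  rw [h2]
  exact AlgEquiv.apply_symm_apply g x

/-- The embedding `τ` is conjugate to the embedding `σ` over the field `L`. -/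
def IsConj {E : Type} [Field E] (L : IntermediateField ℚ Qb) (σ τ : E →+* Qb) : Prop :=
  ∃ h : GQ, (∀ x ∈ L, h x = x) ∧ ∀ x, h (σ x) = τ x

/-- Every embedding is conjugate over `L` to its complex conjugate. -/
def IsConjOver (E : Type) [Field E] [NumberField E] [IsCMField E]
    (L : IntermediateField ℚ Qb) : Prop :=
  ∀ σ : E →+* Qb, IsConj L σ (cj σ)

/-- Every embedding is conjugate over `L` to its complex conjugate, or it has more than `n`
conjugates over `L`. -/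
def LargeOrbits (E : Type) [Field E] [NumberField E] [IsCMField E]
    (L : IntermediateField ℚ Qb) (n : ℕ) : Prop :=
  ∀ σ : E →+* Qb, IsConj L σ (cj σ) ∨ n < Nat.card {τ : E →+* Qb // IsConj L σ τ}

lemma isConj_iff {L : IntermediateField ℚ Qb} {σ τ : E →+* Qb} :
    IsConj L σ τ ↔ ∃ h : GQ, (∀ x ∈ L, h x = x) ∧ act h σ = τ := by
  constructor
  · rintro ⟨h, hh, h1⟩
    exact ⟨h, hh, RingHom.ext h1⟩
  · rintro ⟨h, hh, rfl⟩
    exact ⟨h, hh, fun x => rfl⟩

lemma inv_fix {L : IntermediateField ℚ Qb} {h : GQ} (hh : ∀ x ∈ L, h x = x) :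
    ∀ x ∈ L, h⁻¹ x = x := by
  intro x hx
  have h1 := congrArg (fun y => h⁻¹ y) (hh x hx)
  change (h⁻¹ * h) x = h⁻¹ x at h1
  rw [inv_mul_cancel] at h1
  exact h1.symm

/-- **Invariance.** -/
theorem inv_of_sum (hP : NoRel ι α) {L₀ : IntermediateField ℚ Qb} (hL₀ : IsStable L₀) :
    ∀ (S : List (IntermediateField ℚ Qb)), (∀ L ∈ S, IsStable L ∧ IsConjOver E L) →
      ∀ f : (E →+* Qb) → ℤ, IsOdd f → SumInv L₀ S (RR ι α f) →
        ∀ h : GQ, (∀ x ∈ L₀, h x = x) → ∀ σ, f (act h σ) = f σ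
  | [], _, f, hf, hw, h, hh, σ => by
    have h1 : ∀ g, RR ι α (tr h⁻¹ f - f) g = 0 := by
      intro g
      rw [RR_sub, RR_tr, LeftInv.right hL₀ hw (inv_fix hh), sub_self]
    have h2 := hP.zero _ ((hf.tr _).sub hf) h1 σ
    rw [Pi.sub_apply, tr_apply, inv_inv, sub_eq_zero] at h2
    exact h2
  | L :: S, hS, f, hf, ⟨u, w', hu, hw', huw⟩, h, hh, σ => by
    classical
    have hLS := hS L List.mem_cons_self
    have hS' : ∀ L ∈ S, IsStable L ∧ IsConjOver E L := fun L' hL' =>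
      hS L' (List.mem_cons_of_mem _ hL')
    -- the differences
    have hdiff : ∀ k : GQ, (∀ x ∈ L, k x = x) → ∀ τ, tr k f (act h τ) - f (act h τ) =
        tr k f τ - f τ := by
      intro k hk τ
      have h1 := inv_of_sum hP hL₀ S hS' (tr k f - f) ((hf.tr k).sub hf) ?_ h hh τ
      · simpa only [Pi.sub_apply] using h1
      · refine (hw'.diff k).congr fun g => ?_
        rw [RR_sub, RR_tr, huw, huw, LeftInv.right hLS.1 hu hk]
        ring
    -- the orbit
    let O : Set ((E →+* Qb) → ℤ) := {φ | ∃ k : GQ, (∀ x ∈ L, k x = x) ∧ φ = tr k f}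
    have hOfin : O.Finite := by
      have h1 : (Set.range fun π : Equiv.Perm (E →+* Qb) => fun σ => f (π σ)).Finite :=
        Set.finite_range _
      refine h1.subset ?_
      rintro φ ⟨k, -, rfl⟩
      exact ⟨⟨act k⁻¹, act k, act_act_inv k, act_inv_act k⟩, rfl⟩
    set A : (E →+* Qb) → ℤ := fun σ => ∑ φ ∈ hOfin.toFinset, φ σ with hA
    have hAinv : ∀ k : GQ, (∀ x ∈ L, k x = x) → ∀ τ, A (act k τ) = A τ := by
      intro k hk τ
      rw [hA]
      refine Finset.sum_bij (fun φ _ => tr k⁻¹ φ) ?_ ?_ ?_ ?_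
      · intro φ hφ
        rw [Set.Finite.mem_toFinset] at hφ ⊢
        obtain ⟨l, hl, rfl⟩ := hφ
        refine ⟨k⁻¹ * l, fun x hx => ?_, tr_mul _ _ _⟩
        change k⁻¹ (l x) = x
        rw [hl x hx, inv_fix hk x hx]
      · intro φ _ ψ _ hφψ
        have h1 := congrArg (tr k) hφψ
        rwa [tr_mul, tr_mul, mul_inv_cancel, tr_one, tr_one] at h1
      · intro φ hφ
        rw [Set.Finite.mem_toFinset] at hφ
        obtain ⟨l, hl, rfl⟩ := hφ
        refine ⟨tr k (tr l f), ?_, ?_⟩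
        · rw [Set.Finite.mem_toFinset]
          refine ⟨k * l, fun x hx => ?_, tr_mul _ _ _⟩
          change k (l x) = x
          rw [hl x hx, hk x hx]
        · rw [tr_mul, inv_mul_cancel, tr_one]
      · intro φ _
        rw [tr_apply, inv_inv]
    have hA0 : ∀ τ, A τ = 0 := by
      intro τ
      obtain ⟨k, hk, hkτ⟩ := isConj_iff.1 (hLS.2 τ)
      change act k τ = cj τ at hkτ
      have h1 := hAinv k hk τ
      rw [hkτ] at h1
      have h2 : A (cj τ) = - A τ := by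
        rw [hA]
        change ∑ φ ∈ hOfin.toFinset, φ (cj τ) = - ∑ φ ∈ hOfin.toFinset, φ τ
        rw [← Finset.sum_neg_distrib]
        refine Finset.sum_congr rfl fun φ hφ => ?_
        rw [Set.Finite.mem_toFinset] at hφ
        obtain ⟨l, -, rfl⟩ := hφ
        exact hf.tr l τ
      omega
    have hsum : A (act h σ) - A σ = hOfin.toFinset.card * (f (act h σ) - f σ) := by
      rw [hA]
      change ∑ φ ∈ hOfin.toFinset, φ (act h σ) - ∑ φ ∈ hOfin.toFinset, φ σ = _
      rw [← Finset.sum_sub_distrib, ← nsmul_eq_mul, ← Finset.sum_const]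
      refine Finset.sum_congr rfl fun φ hφ => ?_
      rw [Set.Finite.mem_toFinset] at hφ
      obtain ⟨l, hl, rfl⟩ := hφ
      have := hdiff l hl σ
      omega
    rw [hA0, hA0, sub_self] at hsum
    have hcard : (hOfin.toFinset.card : ℤ) ≠ 0 := by
      have h1 : f ∈ hOfin.toFinset := by
        rw [Set.Finite.mem_toFinset]
        exact ⟨1, fun x _ => rfl, (tr_one f).symm⟩
      have := Finset.card_pos.2 ⟨f, h1⟩
      omega
    have h1 := (mul_eq_zero.1 hsum.symm).resolve_left hcard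
    omega

/-- **Balance.** -/
theorem balanced_of_inv {L : IntermediateField ℚ Qb} {n : ℕ} (hL : LargeOrbits E L n)
    {N : (E →+* Qb) → ℕ} (hN : ∑ σ, N σ ≤ n)
    (hinv : ∀ h : GQ, (∀ x ∈ L, h x = x) → ∀ σ, TH121.KT.odd N (act h σ) = TH121.KT.odd N σ)
    (σ : E →+* Qb) : N σ = N (cj σ) := by
  classical
  -- the positive case
  have key : ∀ σ : E →+* Qb, ¬ 0 < TH121.KT.odd N σ := by
    intro σ hpos
    rcases hL σ with hσ | hlarge
    · obtain ⟨h, hh, hσ⟩ := isConj_iff.1 hσ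
      change act h σ = cj σ at hσ
      have h1 := hinv h hh σ
      rw [hσ, odd_cj] at h1
      omega
    · have h1 : Nat.card {τ : E →+* Qb // IsConj L σ τ} ≤
          ∑ σ, N σ := by
        rw [Nat.card_eq_fintype_card, Fintype.card_subtype]
        calc (Finset.univ.filter fun τ : E →+* Qb => IsConj L σ τ).card
            = ∑ τ ∈ Finset.univ.filter fun τ : E →+* Qb => IsConj L σ τ, 1 := by
              rw [Finset.sum_const, smul_eq_mul, mul_one]
          _ ≤ ∑ τ ∈ Finset.univ.filter fun τ : E →+* Qb => IsConj L σ τ, N τ := by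
              refine Finset.sum_le_sum fun τ hτ => ?_
              obtain ⟨h, hh, rfl⟩ := isConj_iff.1 (Finset.mem_filter.1 hτ).2
              have h2 := hinv h hh σ
              unfold TH121.KT.odd at h2 hpos
              omega
          _ ≤ ∑ τ, N τ := Finset.sum_le_sum_of_subset (Finset.filter_subset _ _)
      exact absurd (lt_of_lt_of_le hlarge (h1.trans hN)) (lt_irrefl _)
  have h1 := key σ
  have h2 := key (cj σ)
  rw [odd_cj] at h2
  unfold TH121.KT.odd at h1 h2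
  omega

lemma leftInv_log {L : IntermediateField ℚ Qb} {β : Qb} (hβ : SlopeRoot ι L β) (c : ℝ) :
    LeftInv L fun g => c * Real.log ‖ι (g β)‖ := by
  obtain ⟨Q, hQ, hL, h0⟩ := hβ
  intro h hh g
  have hgβ : aeval (g β) Q = 0 := by
    rw [Polynomial.aeval_algHom_apply g β Q, h0, map_zero]
  change c * Real.log ‖ι (h (g β))‖ = _
  rw [hL h hh (g β) hgβ]

lemma sumInv_list {L₀ : IntermediateField ℚ Qb} {𝓛 : Set (IntermediateField ℚ Qb)}
    (h𝓛 : ∀ L ∈ 𝓛, L = L₀ ∨ (IsStable L ∧ IsConjOver E L)) (C c : ℝ) (l : List Qb)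
    (hl : ∀ β ∈ l, ∃ L ∈ 𝓛, SlopeRoot ι L β) :
    ∃ S : List (IntermediateField ℚ Qb), (∀ L ∈ S, IsStable L ∧ IsConjOver E L) ∧
      SumInv L₀ S fun g => C + (l.map fun β => c * Real.log ‖ι (g β)‖).sum := by
  induction l with
  | nil =>
    refine ⟨[], fun L hL => absurd hL List.not_mem_nil, ?_⟩
    intro h _ g
    simp
  | cons β l ih =>
    obtain ⟨S, hS, hsum⟩ := ih fun β' hβ' => hl β' (List.mem_cons_of_mem _ hβ')
    obtain ⟨L, hL, hβ⟩ := hl β List.mem_cons_self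
    rcases h𝓛 L hL with rfl | hgood
    · refine ⟨S, hS, (SumInv.add_left (leftInv_log hβ c) hsum).congr fun g => ?_⟩
      simp only [List.map_cons, List.sum_cons]
      ring
    · refine ⟨L :: S, ?_, _, _, leftInv_log hβ c, hsum, fun g => ?_⟩
      · intro L' hL'
        rcases List.mem_cons.1 hL' with rfl | hL'
        · exact hgood
        · exact hS L' hL'
      · simp only [List.map_cons, List.sum_cons]
        ring

/-- **The relations are trivial.** -/
theorem balanced_many (hP : NoRel ι α) {L₀ : IntermediateField ℚ Qb} (hL₀ : IsStable L₀)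
    {n : ℕ} (hlarge : LargeOrbits E L₀ n) {𝓛 : Set (IntermediateField ℚ Qb)}
    (h𝓛 : ∀ L ∈ 𝓛, L = L₀ ∨ (IsStable L ∧ IsConjOver E L))
    {N : (E →+* Qb) → ℕ} (hN : ∑ σ, N σ ≤ n) {w W : ℕ} (hw : 0 < w) {l : List Qb}
    (hl : ∀ β ∈ l, ∃ L ∈ 𝓛, SlopeRoot ι L β) {x₀ : ℚ}
    (hrel : (∏ σ : E →+* Qb, (σ α) ^ (w * N σ)) * l.prod ^ W = (x₀ : Qb)) (hl0 : l.prod ≠ 0)
    (σ : E →+* Qb) : N σ = N (cj σ) := by
  have hlog : ∀ g : GQ, RR ι α (TH121.KT.odd N) g = 2 / w * Real.log ‖ι (x₀ : Qb)‖ +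
      (l.map fun β => -(2 / w * W) * Real.log ‖ι (g β)‖).sum := by
    intro g
    have h1 := congrArg (fun z => Real.log ‖ι (g z)‖) hrel
    simp only [map_mul, map_pow, map_prod, norm_mul, norm_pow, norm_prod, map_ratCast] at h1
    have hne : ‖ι (g l.prod)‖ ≠ 0 := by
      rw [norm_ne_zero_iff, ne_eq, map_eq_zero, map_eq_zero]
      exact hl0
    rw [Real.log_mul, Real.log_prod, Real.log_pow] at h1
    rotate_left
    · intro σ _
      exact pow_ne_zero _ (norm_pos' hP.unitary (act g σ)).ne'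
    · refine Finset.prod_ne_zero_iff.2 fun σ _ => ?_
      exact pow_ne_zero _ (norm_pos' hP.unitary (act g σ)).ne'
    · exact pow_ne_zero _ hne
    have h2 : ∑ σ : E →+* Qb, Real.log (‖ι (g (σ α))‖ ^ (w * N σ)) = w * FF ι α N g := by
      unfold FF
      rw [Finset.mul_sum]
      refine Finset.sum_congr rfl fun σ _ => ?_
      rw [Real.log_pow]
      push_cast
      ring
    have h3 : Real.log ‖ι (g l.prod)‖ = (l.map fun β => Real.log ‖ι (g β)‖).sum := by
      clear h1 hrel hl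
      induction l with
      | nil => simp
      | cons β l ih =>
        rw [List.prod_cons] at hl0 hne ⊢
        have hβ : β ≠ 0 := left_ne_zero_of_mul hl0
        have hl' : l.prod ≠ 0 := right_ne_zero_of_mul hl0
        rw [map_mul, map_mul, norm_mul, Real.log_mul, List.map_cons, List.sum_cons, ih hl']
        · rw [norm_ne_zero_iff, ne_eq, map_eq_zero, map_eq_zero]
          exact hl'
        · rw [norm_ne_zero_iff, ne_eq, map_eq_zero, map_eq_zero]
          exact hβ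
        · rw [norm_ne_zero_iff, ne_eq, map_eq_zero, map_eq_zero]
          exact hl'
    rw [h2, h3] at h1
    have h4 : RR ι α (TH121.KT.odd N) g = 2 * FF ι α N g := two_FF hP.unitary N g
    have hw' : (w : ℝ) ≠ 0 := Nat.cast_ne_zero.2 hw.ne'
    rw [h4, List.sum_map_mul_left, map_ratCast]
    field_simp
    linarith
  obtain ⟨S, hS, hsum⟩ := sumInv_list (E := E) h𝓛 (2 / w * Real.log ‖ι (x₀ : Qb)‖)
    (-(2 / w * W)) l hl
  refine balanced_of_inv hlarge hN ?_ σ
  exact inv_of_sum hP hL₀ S hS _ (fun σ => odd_cj N σ) (hsum.congr hlog)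

open Pool.Agent.W517.K3 Pool.Agent.Y138.KC in
/-- There are no relations for odd local degrees. -/
theorem noRel_odd {a d : ℕ} (hα : IsK3Frobenius p a α) (hd : finrank ℚ E = 2 * d)
    (hd11 : d ≤ 11) (hodd : Odd (localDegree p α))
    (hex : (d, localDegree p α) ∉ exceptionalOddPairs) : NoRel ι α := by
  refine ⟨hα.unitary, fun f hf hR σ => ?_⟩
  let N : (E →+* Qb) → ℕ := fun σ => (f σ).toNat
  have hN : ∀ σ, TH121.KT.odd N σ = f σ := by
    intro σ
    change ((f σ).toNat : ℤ) - (f (cj σ)).toNat = f σ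
    rw [hf σ]
    omega
  have hF : ∀ g : GQ, FF ι α N g = 0 := by
    intro g
    have h1 := two_FF (ι := ι) hα.unitary N g
    have h2 := hR g
    unfold RR at h2
    simp only [hN] at h1
    linarith
  have h1 := balanced_emb' hα hd rfl (n := ∑ σ, N σ) ⟨hd11, Or.inr (Or.inl ⟨hodd, hex⟩)⟩ ι N
    le_rfl hF σ
  have h2 := hN σ
  unfold TH121.KT.odd at h2
  omega

lemma inM_one {Ω : Type*} [Field Ω] [CharZero Ω] (𝓛 : Set (IntermediateField ℚ Qb)) :
    IsSlopeProduct ι 𝓛 (1 : Ω) :=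
  ⟨1, [], one_pos, by simp, fun β hβ => absurd hβ List.not_mem_nil⟩

lemma inM_pow {Ω : Type*} [Field Ω] [CharZero Ω] {𝓛 : Set (IntermediateField ℚ Qb)} (ν : Ω)
    (n : ℕ) (h : IsSlopeProduct ι 𝓛 ν) : IsSlopeProduct ι 𝓛 (ν ^ n) := by
  obtain ⟨t, l, ht, hν, hl⟩ := h
  refine ⟨t, (List.replicate n l).flatten, ht, ?_, ?_⟩
  · rw [← pow_mul, mul_comm, pow_mul, hν, List.prod_flatten, List.map_replicate,
      List.prod_replicate]
  · intro β hβ
    obtain ⟨l', hl', hβ⟩ := List.mem_flatten.1 hβ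
    rw [List.eq_of_mem_replicate hl'] at hβ
    exact hl β hβ

lemma inM_mul {Ω : Type*} [Field Ω] [CharZero Ω] {𝓛 : Set (IntermediateField ℚ Qb)} {ν ν' : Ω}
    (h : IsSlopeProduct ι 𝓛 ν) (h' : IsSlopeProduct ι 𝓛 ν') : IsSlopeProduct ι 𝓛 (ν * ν') := by
  obtain ⟨t, l, ht, hν, hl⟩ := h
  obtain ⟨t', l', ht', hν', hl'⟩ := h'
  refine ⟨t * t', (List.replicate t' l).flatten ++ (List.replicate t l').flatten,
    Nat.mul_pos ht ht', ?_, ?_⟩
  · rw [List.prod_append, List.prod_flatten, List.prod_flatten, List.map_replicate,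
      List.map_replicate, List.prod_replicate, List.prod_replicate, ← hν, ← hν', mul_pow,
      ← pow_mul, ← pow_mul, mul_comm t' t]
  · intro β hβ
    rcases List.mem_append.1 hβ with hβ | hβ
    · obtain ⟨m, hm, hβ⟩ := List.mem_flatten.1 hβ
      rw [List.eq_of_mem_replicate hm] at hβ
      exact hl β hβ
    · obtain ⟨m, hm, hβ⟩ := List.mem_flatten.1 hβ
      rw [List.eq_of_mem_replicate hm] at hβ
      exact hl' β hβ

lemma inM_root {Ω : Type*} [Field Ω] [CharZero Ω] {𝓛 : Set (IntermediateField ℚ Qb)} {ν : Ω}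
    {n : ℕ} (hn : 0 < n) (h : IsSlopeProduct ι 𝓛 (ν ^ n)) : IsSlopeProduct ι 𝓛 ν := by
  obtain ⟨t, l, ht, hν, hl⟩ := h
  exact ⟨n * t, l, Nat.mul_pos hn ht, by rw [pow_mul, hν], hl⟩

lemma exists_list {Ω : Type*} [Field Ω] [CharZero Ω] (τ : Qb →+* Ω)
    {𝓛 : Set (IntermediateField ℚ Qb)} (l : List Ω)
    (hl : ∀ β ∈ l, ∃ L ∈ 𝓛, SlopeRoot ι L β) :
    ∃ l' : List Qb, l'.map τ = l ∧ ∀ β ∈ l', ∃ L ∈ 𝓛, SlopeRoot ι L β := by
  induction l with
  | nil => exact ⟨[], rfl, fun β hβ => absurd hβ List.not_mem_nil⟩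
  | cons β l ih =>
    obtain ⟨l', h1, h2⟩ := ih fun β' hβ' => hl β' (List.mem_cons_of_mem _ hβ')
    obtain ⟨L, hL, Q, hQ, hLQ, h0⟩ := hl β List.mem_cons_self
    obtain ⟨β', hβ', hτ⟩ := exists_root τ hQ h0
    refine ⟨β' :: l', by rw [List.map_cons, h1, hτ], ?_⟩
    intro γ hγ
    rcases List.mem_cons.1 hγ with rfl | hγ
    · exact ⟨L, hL, Q, hQ, hLQ, hβ'⟩
    · exact h2 γ hγ

/-- **Balance.** -/
theorem balanced_relation_many {Ω : Type*} [Field Ω] [CharZero Ω] [IsAlgClosed Ω]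
    (hP : NoRel ι α) {L₀ : IntermediateField ℚ Qb} (hL₀ : IsStable L₀)
    {m : ℕ} (hlarge : LargeOrbits E L₀ m) {𝓛 : Set (IntermediateField ℚ Qb)}
    (h𝓛 : ∀ L ∈ 𝓛, L = L₀ ∨ (IsStable L ∧ IsConjOver E L))
    {n : (E →+* Ω) → ℕ} (hn : ∑ σ, n σ ≤ m) {w W : ℕ} (hw : 0 < w) {ν : Ω} (hν : IsSlopeProduct ι 𝓛 ν)
    (hν0 : ν ≠ 0) {x₀ : ℚ} (hrel : (∏ σ : E →+* Ω, (σ α) ^ (w * n σ)) * ν ^ W = (x₀ : Ω))
    (σ : E →+* Ω) : n σ = n (cj σ) := by
  classical
  let τ : Qb →+* Ω := (IsAlgClosed.lift : Qb →ₐ[ℚ] Ω).toRingHom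
  obtain ⟨t, l, ht, hνl, hl⟩ := hν
  obtain ⟨l', hl', hl'L⟩ := exists_list τ l hl
  have hbij : Function.Bijective (fun ρ : E →+* Qb => τ.comp ρ) := by
    constructor
    · intro ρ ρ' h
      ext x
      exact τ.injective (RingHom.congr_fun h x)
    · intro σ
      obtain ⟨ρ, hρ⟩ := exists_lift τ σ
      exact ⟨ρ, hρ⟩
  let N : (E →+* Qb) → ℕ := fun ρ => n (τ.comp ρ)
  have hprod : ∏ σ : E →+* Ω, (σ α) ^ (t * w * n σ) =
      τ (∏ ρ : E →+* Qb, (ρ α) ^ (t * w * N ρ)) := by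
    rw [map_prod]
    refine (Fintype.prod_equiv (Equiv.ofBijective _ hbij) _ _ fun ρ => ?_).symm
    rw [map_pow]
    rfl
  have hN : ∑ ρ : E →+* Qb, N ρ ≤ m := by
    refine le_trans (le_of_eq ?_) hn
    exact Fintype.sum_equiv (Equiv.ofBijective _ hbij) _ _ fun ρ => rfl
  have hlprod : l.prod = τ l'.prod := by rw [← hl', map_list_prod]
  have hl0 : l'.prod ≠ 0 := by
    intro h
    rw [h, map_zero, ← hνl] at hlprod
    exact pow_ne_zero _ hν0 hlprod
  have hbal := balanced_many (N := N) (w := t * w) (W := W) (l := l') (x₀ := x₀ ^ t) hP hL₀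
    hlarge h𝓛 hN (Nat.mul_pos ht hw) hl'L ?_ hl0
  · obtain ⟨ρ, rfl⟩ := hbij.2 σ
    exact hbal ρ
  · apply τ.injective
    rw [map_mul, ← hprod, map_pow, ← hlprod, ← hνl, map_ratCast, Rat.cast_pow, ← hrel, mul_pow,
      ← Finset.prod_pow, ← pow_mul, ← pow_mul, mul_comm t W]
    congr 1
    refine Finset.prod_congr rfl fun σ _ => ?_
    rw [← pow_mul]
    congr 1
    ring

end

end Pool.Agent.Y103.Hk
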