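import Pool.Agent.Y103.Hk.NormC
import Pool.Agent.Y103.Hk.Defs3
import Pool.Agent.Y103.Hk.Mix

/-!
# Numbers without norm relations
-/

set_option autoImplicit false
set_option linter.unusedSectionVars false

namespace Pool.Agent.Y103.Hk

open NumberField Module Pool.Agent.W517.K3 Pool.Agent.H485R3 Pool.Agent.TH121.KT
  Pool.Agent.Y138.KC

variable {p a : ℕ} [Fact p.Prime] {E : Type} [Field E] [NumberField E] [IsCMField E] {α : E}

lemma prod_zpow_sum {ι' : Type*} {P : ℝ} (hP : P ≠ 0) (B : Finset ι') (f : ι' → ℤ) :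
    ∏ i ∈ B, P ^ f i = P ^ ∑ i ∈ B, f i := by
  classical
  induction B using Finset.induction_on with
  | empty => simp
  | insert i B hi ih => rw [Finset.prod_insert hi, Finset.sum_insert hi, ih, zpow_add₀ hP]

section

variable {L : Type} [Field L] [Algebra ℚ L] [FiniteDimensional ℚ L] [IsGalois ℚ L]

/-- the field of a block -/
def blockField (B : Finset (E →ₐ[ℚ] L)) (φ₀ : E →ₐ[ℚ] L) : IntermediateField ℚ E where
  carrier := {x | ∀ φ ∈ B, φ x = φ₀ x}
  mul_mem' := by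
    intro x y hx hy φ hφ
    rw [map_mul, map_mul, hx φ hφ, hy φ hφ]
  add_mem' := by
    intro x y hx hy φ hφ
    rw [map_add, map_add, hx φ hφ, hy φ hφ]
  algebraMap_mem' := by
    intro r φ hφ
    rw [AlgHom.commutes, AlgHom.commutes]
  inv_mem' := by
    intro x hx φ hφ
    rw [map_inv₀, map_inv₀, hx φ hφ]

lemma mem_blockField {B : Finset (E →ₐ[ℚ] L)} {φ₀ : E →ₐ[ℚ] L} {x : E} :
    x ∈ blockField B φ₀ ↔ ∀ φ ∈ B, φ x = φ₀ x := Iff.rfl

/-- an embedding which agrees with `φ₀` on the field of the block is in the block -/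
theorem mem_of_agree {c : (E →ₐ[ℚ] L) → (E →ₐ[ℚ] L)} {v : (E →ₐ[ℚ] L) → ℤ}
    {B : Finset (E →ₐ[ℚ] L)} (hB : NormBlock (L ≃ₐ[ℚ] L) c v B) {φ₀ : E →ₐ[ℚ] L}
    (hφ₀ : φ₀ ∈ B) {φ : E →ₐ[ℚ] L} (h : ∀ x ∈ blockField B φ₀, φ x = φ₀ x) : φ ∈ B := by
  let H : Subgroup (L ≃ₐ[ℚ] L) :=
    { carrier := {g | g • φ₀ ∈ B}
      mul_mem' := by
        intro g k hg hk
        change (g * k) • φ₀ ∈ B
        rw [mul_smul]
        exact hB.block g φ₀ hφ₀ hg _ hk
      one_mem' := by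
        change (1 : L ≃ₐ[ℚ] L) • φ₀ ∈ B
        rwa [one_smul]
      inv_mem' := by
        intro g hg
        change g⁻¹ • φ₀ ∈ B
        exact hB.block g⁻¹ (g • φ₀) hg (by rwa [inv_smul_smul]) φ₀ hφ₀ }
  have hH : ∀ g, g ∈ H ↔ g • φ₀ ∈ B := fun g => Iff.rfl
  -- the fixed field
  have h1 : IntermediateField.fixedField H ≤ φ₀.fieldRange := by
    rw [← IsGalois.fixedField_fixingSubgroup φ₀.fieldRange]
    apply IntermediateField.fixedField_antitone
    intro g hg
    rw [hH]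
    have h2 : g • φ₀ = φ₀ := by
      ext x
      rw [W517.K3.smul_apply]
      exact (IntermediateField.mem_fixingSubgroup_iff _ _).1 hg (φ₀ x) ⟨x, rfl⟩
    rwa [h2]
  obtain ⟨g, hg⟩ := exists_smul_eq φ₀ φ
  have h3 : g ∈ H := by
    rw [← IntermediateField.fixingSubgroup_fixedField H, IntermediateField.mem_fixingSubgroup_iff]
    intro y hy
    obtain ⟨x, rfl⟩ := h1 hy
    have hx : x ∈ blockField B φ₀ := by
      intro ψ hψ
      obtain ⟨k, hk⟩ := exists_smul_eq φ₀ ψ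
      have hk' : k ∈ H := by
        rw [hH, hk]
        exact hψ
      rw [← hk, W517.K3.smul_apply]
      exact hy ⟨k, hk'⟩
    have h4 := h x hx
    rw [← hg, W517.K3.smul_apply] at h4
    exact h4
  rw [← hg]
  exact h3

/-- the norm to the field of a block -/
theorem norm_block {c : (E →ₐ[ℚ] L) → (E →ₐ[ℚ] L)} {v : (E →ₐ[ℚ] L) → ℤ}
    {B : Finset (E →ₐ[ℚ] L)} (hB : NormBlock (L ≃ₐ[ℚ] L) c v B) {φ₀ : E →ₐ[ℚ] L}
    (hφ₀ : φ₀ ∈ B)
    (hlift : ∀ {Ω : Type} [Field Ω] [Algebra ℚ Ω] (e : L →ₐ[ℚ] Ω) (σ : E →ₐ[ℚ] Ω),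
      ∃ σ' : E →ₐ[ℚ] L, e.comp σ' = σ) (α : E) :
    φ₀ (Algebra.norm (blockField B φ₀) α : blockField B φ₀) = ∏ φ ∈ B, φ α := by
  classical
  let j : L →ₐ[ℚ] Qb := IsAlgClosed.lift
  let E₀ := blockField B φ₀
  let _ : Algebra E₀ Qb :=
    (((j : L →+* Qb).comp (φ₀ : E →+* L)).comp (algebraMap E₀ E)).toAlgebra
  have halg : ∀ x : E₀, algebraMap E₀ Qb x = j (φ₀ (x : E)) := fun x => rfl
  have h1 := Algebra.norm_eq_prod_embeddings E₀ Qb α
  apply j.toRingHom.injective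
  change j (φ₀ (Algebra.norm E₀ α : E₀)) = j (∏ φ ∈ B, φ α)
  rw [← halg, h1, map_prod]
  symm
  refine Finset.prod_bij (fun φ hφ => ({ (j : L →+* Qb).comp (φ : E →+* L) with
    commutes' := fun x => by
      change j (φ (x : E)) = j (φ₀ (x : E))
      rw [x.2 φ hφ] } : E →ₐ[E₀] Qb)) (fun φ hφ => Finset.mem_univ _)
    (fun φ hφ φ' hφ' h => ?_) (fun σ _ => ?_) (fun φ hφ => rfl)
  · ext x
    apply j.toRingHom.injective
    exact DFunLike.congr_fun h x
  · obtain ⟨φ, hφ⟩ := hlift j (RingHom.toRatAlgHom (σ : E →+* Qb))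
    have hφ' : ∀ x, j (φ x) = σ x := fun x => DFunLike.congr_fun hφ x
    refine ⟨φ, mem_of_agree hB hφ₀ fun x hx => ?_, ?_⟩
    · apply j.toRingHom.injective
      change j (φ x) = j (φ₀ x)
      rw [hφ']
      exact σ.commutes ⟨x, hx⟩
    · ext x
      exact hφ' x

theorem false_of_normBlock (hα : IsK3Frobenius p a α) (e : L →ₐ[ℚ] PadicAlgCl p)
    (hlift : ∀ {Ω : Type} [Field Ω] [Algebra ℚ Ω] (e : L →ₐ[ℚ] Ω) (σ : E →ₐ[ℚ] Ω),
      ∃ σ' : E →ₐ[ℚ] L, e.comp σ' = σ) (hN : NoNormRelation α) {B : Finset (E →ₐ[ℚ] L)}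
    (hB : NormBlock (L ≃ₐ[ℚ] L) W517.K3.bar (vv α e) B) : False := by
  classical
  obtain ⟨φ₀, hφ₀⟩ := hB.nonempty
  have hconj : ∃ x ∈ blockField B φ₀, IsCMField.complexConj E x ≠ x := by
    by_contra hno
    push Not at hno
    refine hB.disj φ₀ hφ₀ (mem_of_agree hB hφ₀ fun x hx => ?_)
    rw [bar_apply, hno x hx]
  have hnorm := norm_block hB hφ₀ hlift α
  obtain ⟨P, hP, hPn⟩ := exists_abs hα e φ₀
  obtain ⟨s, hs, hroot⟩ := Exact.root_of_unity (∏ φ ∈ B, φ α) (by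
    intro l _ e'
    rw [map_prod, norm_prod]
    by_cases hl : l = p
    · subst hl
      obtain ⟨g, hg⟩ := exists_gal e e'
      refine le_of_eq ?_
      have h1 : ∀ φ ∈ B, ‖e' (φ α)‖ = P ^ (vv α e (g • φ)) := by
        intro φ _
        rw [hg, ← hPn (g • φ)]
        rfl
      rw [Finset.prod_congr rfl h1, prod_zpow_sum (by positivity), hB.zero g, zpow_zero]
    · refine le_of_eq (Finset.prod_eq_one fun φ _ => ?_)
      exact norm_eq_one_of_ne hα l hl ((e' : L →+* PadicAlgCl l).comp (φ : E →+* L))) (by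
    intro ψ
    rw [map_prod, norm_prod]
    exact Finset.prod_eq_one fun φ _ => hα.unitary ((ψ : L →+* ℂ).comp (φ : E →+* L)))
  refine hN _ hconj s hs ?_
  have h2 : φ₀ (((Algebra.norm (blockField B φ₀) α : blockField B φ₀) : E) ^ s) = φ₀ 1 := by
    rw [map_pow, hnorm, hroot, map_one]
  have h3 := φ₀.toRingHom.injective h2
  apply Subtype.ext
  exact h3

end

variable {ι : Qb →+* PadicAlgCl p}

open Classical in
/-- **There are no relations if the local degree is at most two or the degree is twice a prime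
number, and there is no norm relation.** -/
theorem noRel_norm (hα : IsK3Frobenius p a α) {d : ℕ} (hd : finrank ℚ E = 2 * d)
    (h : localDegree p α ≤ 2 ∨ d.Prime) (hN : NoNormRelation α) : NoRel ι α := by
  refine ⟨hα.unitary, fun f hf hR σ₀ => ?_⟩
  by_contra h0
  obtain ⟨L, iF, iA, iFin, iGal, hlift'⟩ := Exact.exists_common' (fun _ : Unit => E)
  have hlift : ∀ {Ω' : Type} [Field Ω'] [Algebra ℚ Ω'] (e : L →ₐ[ℚ] Ω') (σ : E →ₐ[ℚ] Ω'),
      ∃ σ' : E →ₐ[ℚ] L, e.comp σ' = σ := fun e σ => hlift' e () σ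
  let j : L →ₐ[ℚ] Qb := IsAlgClosed.lift
  let e : L →ₐ[ℚ] PadicAlgCl p := RingHom.toRatAlgHom (ι.comp (j : L →+* Qb))
  have he : ∀ x, e x = ι (j x) := fun x => rfl
  obtain ⟨φ₀, -⟩ := hlift j (RingHom.toRatAlgHom σ₀)
  have hS := sgn_embeddings hα e φ₀
  obtain ⟨P, hP, hPn⟩ := exists_abs hα e φ₀
  -- embeddings
  let T : (E →ₐ[ℚ] L) → (E →+* Qb) := fun φ => (j : L →+* Qb).comp (φ : E →+* L)
  have hT : Function.Bijective T := by
    constructor
    · intro φ φ' h
      ext x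
      apply j.toRingHom.injective
      exact RingHom.congr_fun h x
    · intro σ
      obtain ⟨φ, hφ⟩ := hlift j (RingHom.toRatAlgHom σ)
      refine ⟨φ, ?_⟩
      ext x
      exact AlgHom.congr_fun hφ x
  let T' : (E →ₐ[ℚ] L) → (E →+* PadicAlgCl p) :=
    fun φ => (e : L →+* PadicAlgCl p).comp (φ : E →+* L)
  have hT' : Function.Bijective T' := by
    constructor
    · intro φ φ' h
      ext x
      apply e.toRingHom.injective
      exact RingHom.congr_fun h x
    · intro σ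
      obtain ⟨φ, hφ⟩ := hlift e (RingHom.toRatAlgHom σ)
      refine ⟨φ, ?_⟩
      ext x
      exact AlgHom.congr_fun hφ x
  have hcardX : Fintype.card (E →ₐ[ℚ] L) = 2 * d := by
    rw [Fintype.card_of_bijective hT', Embeddings.card, hd]
  have hcardS : (Lv (vv α e) 1).card = localDegree p α := by
    unfold localDegree
    have h1 : Nat.card {φ : E →ₐ[ℚ] L // vv α e φ = 1} = (Lv (vv α e) 1).card := by
      rw [Nat.card_eq_fintype_card, Fintype.card_subtype]
      rfl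
    rw [← h1]
    refine Nat.card_congr (Equiv.subtypeEquiv (Equiv.ofBijective T' hT') fun φ => ?_)
    rw [vv_eq_one_iff]
    rfl
  -- the relation
  have hrel : Rel (L ≃ₐ[ℚ] L) W517.K3.bar (vv α e) fun φ => f (T φ) := by
    refine ⟨fun φ => hf (T φ), fun g => ?_⟩
    have hNF : NumberField L := by
      refine @NumberField.mk L _ ?_ ?_
      · exact charZero_of_injective_algebraMap (algebraMap ℚ L).injective
      · convert iFin
        exact Subsingleton.elim _ _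
    obtain ⟨g', hg'⟩ := exists_act_eq (K := L) (j : L →+* Qb)
      ((j : L →+* Qb).comp (g : L →+* L))
    have hg'' : ∀ x, g' (j x) = j (g x) := fun x => RingHom.congr_fun hg' x
    have h1 := hR g'
    unfold RR at h1
    rw [← Equiv.sum_comp (Equiv.ofBijective T hT)] at h1
    have h2 : ∀ φ : E →ₐ[ℚ] L, (f (T φ) : ℝ) * Real.log ‖ι (g' (T φ α))‖ =
        (f (T φ) * vv α e (g • φ) : ℤ) * Real.log P := by
      intro φ
      have h3 : ‖ι (g' (T φ α))‖ = P ^ (vv α e (g • φ)) := by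
        rw [← hPn (g • φ), he, W517.K3.smul_apply]
        change ‖ι (g' (j (φ α)))‖ = _
        rw [hg'']
      rw [h3, Real.log_zpow]
      push_cast
      ring
    have h3 : ∑ φ : E →ₐ[ℚ] L, ((f (T φ) * vv α e (g • φ) : ℤ) : ℝ) * Real.log P = 0 := by
      rw [← h1]
      exact Finset.sum_congr rfl fun φ _ => (h2 φ).symm
    rw [← Finset.sum_mul, ← Int.cast_sum] at h3
    have h4 : Real.log P ≠ 0 := (Real.log_pos hP).ne'
    exact_mod_cast (mul_eq_zero.1 h3).resolve_right h4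
  obtain ⟨φ₁, rfl⟩ := hT.2 σ₀
  obtain ⟨B, hB⟩ : ∃ B, NormBlock (L ≃ₐ[ℚ] L) W517.K3.bar (vv α e) B := by
    rcases h with h | h
    · rw [← hcardS] at h
      exact normBlock_two hS h hrel h0
    · exact normBlock_prime hS h hcardX hrel h0
  exact false_of_normBlock hα e hlift hN hB

/-- **Good numbers have no relations.** -/
theorem noRel_good (hα : IsK3Frobenius p a α) {d : ℕ} (hd : finrank ℚ E = 2 * d)
    (h : IsGoodNumber p α d) : NoRel ι α := by
  rcases h with ⟨h1, h2, h3⟩ | ⟨h1, h2⟩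
  · exact noRel_odd hα hd h2 h1 h3
  · exact noRel_norm hα hd h1 h2

end Pool.Agent.Y103.Hk
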