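import Pool.Agent.Y103.Hk.Cls
import Pool.Agent.Y103.Hk.Mix
import Pool.Agent.W458.MF.Geo5

/-!
# The Tate conjecture for products with varieties whose slopes are determined by several fields
-/

set_option autoImplicit false
set_option linter.unusedSectionVars false

open CategoryTheory AlgebraicGeometry NumberField Polynomial
open scoped TensorProduct

universe u v

namespace Pool.Agent.Y103.Hk

open Pool.Agent.H914 Pool.Agent.H914.VarClass Pool.Agent.H914.VarClass.Obj
  Pool.Agent.H914.WeilCohomology Pool.Agent.H281R3.HT Pool.Agent.W552 Pool.Agent.W534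
  Pool.Agent.W458.RK Pool.Agent.W458.MF Pool.Agent.TH132.A Pool.Agent.W536.RR
  Pool.Agent.TH121.KT Pool.Agent.Y138.KC

variable {k : Type u} [Field k] {𝒱 : VarClass k} {ops : CycleOps 𝒱}
  {W : WeilCohomology.{u, v} ops} {X Y Z : 𝒱.Obj} {p : ℕ} [Fact p.Prime] {Φ : FrobSystem W p}
  {b e : ℕ} {ι : Qb →+* PadicAlgCl p}
  {E : Type} [Field E] [NumberField E] [IsCMField E] {α : E}

/-- a product over a list of letters -/
lemma prod_letters' (w : ℕ) (L : List (Lt Φ X b e α Z)) :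
    (L.map fun l => (l.σ α) ^ w).prod = ∏ σ : E →+* W.K, (σ α) ^ (w * mult L σ) := by
  rw [prod_letters]
  unfold letterProd
  rw [Fin.prod_univ_one]

/-- **The Tate conjecture for the products of `Z` with all varieties with such slopes.** -/
theorem tateTimesP_many [IsAlgClosed W.K] (hP : PairsAlg Φ X b e α) (he : 0 < e) {n : ℕ}
    (hZ : IsBuiltFrom Φ X b e α n Z) (hR : NoRel ι α) {L₀ : IntermediateField ℚ Qb}
    (hL₀ : IsStable L₀) (hlarge : LargeOrbits E L₀ n) {𝓛 : Set (IntermediateField ℚ Qb)}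
    (h𝓛 : ∀ L ∈ 𝓛, L = L₀ ∨ (IsStable L ∧ IsConjOver E L)) :
    TateTimesP Φ (IsSlopeProduct ι 𝓛) Z := by
  classical
  intro s hs V _ _ _ G hG c a x hx
  have hp0 : (p : W.K) ≠ 0 := by exact_mod_cast (Fact.out : p.Prime).ne_zero
  have hpq : (p : ℚ) ≠ 0 := by exact_mod_cast (Fact.out : p.Prime).ne_zero
  have hcard : ∀ t, ((card Φ Z t : ℚ)) ≠ 0 := by
    intro t
    rw [W534.card]
    push_cast
    exact pow_ne_zero _ hpq
  have hQ : ∀ t, (card Φ Z t : W.K) ≠ 0 := fun t => card_ne Φ t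
  refine (tensor_killed (F := frob Φ Z s) (G := G) (card Φ Z s : W.K) (hQ s) c
    (fun i => cycSub W Z i) (fun i y hy => cyc_killed Φ hy) ?_ a x).1 hx
  intro μ ν N hN hν hrel
  refine le_trans ?_ algSpan_le_cyc
  intro y hy
  have hνM := hG ν hν
  have hν0 : ν ≠ 0 := by
    rintro rfl
    rw [mul_zero, zero_pow hN.ne'] at hrel
    exact pow_ne_zero _ (zpow_ne_zero _ (hQ s)) hrel.symm
  obtain ⟨t₀, ht₀, h0⟩ := span_good (span_words hZ y)
  have h1 := h0 s hs
  set T := t₀ * s with hTdef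
  have hTs : T = s * t₀ := mul_comm t₀ s
  have h2 : y ∈ Module.End.maxGenEigenspace (frob Φ Z T) (μ ^ t₀) := by
    rw [hTs, frob_mul_eq]
    exact gen_pow_of_gen hy _
  have heig : ∀ v ∈ GoodWords Φ X b e α n Z T, ∃ (ω : W.K) (A : ℤ) (M : ℕ)
      (L : List (Lt Φ X b e α Z)) (C : W.H Z), L.length ≤ n ∧ frob Φ Z T v = ω • v ∧ 0 < M ∧
      C ∈ algSpan W Z ∧ v = wordVal L * C ∧
      ω ^ (e * Φ.e X * M) = (card Φ Z T : W.K) ^ A *
        ∏ σ : E →+* W.K, (σ α) ^ (T * Φ.e Z * M * mult L σ) := by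
    rintro v ⟨L, j, M, c, hLn, hM, hc, hL, hcyc, rfl⟩
    obtain ⟨ω, A, h3, h4⟩ := word_eigen L hL
    refine ⟨ω * (card Φ Z T : W.K) ^ j, A + (j * (e * Φ.e X * M) : ℕ), M, L,
      W.cl Z c, hLn, ?_, hM, cl_mem_algSpan hc, rfl, ?_⟩
    · rw [frob_mul_apply, h3, hcyc, smul_mul_smul_comm]
    · rw [mul_pow, h4, prod_letters', zpow_add₀ (hQ T), zpow_natCast, ← pow_mul]
      ring
  have h3 := mem_span_gen (T := frob Φ Z T) (fun v hv => by
    obtain ⟨ω, _, _, _, _, _, h, _⟩ := heig v hv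
    exact ⟨ω, eig_mem_gen h⟩) h1 h2
  refine (Submodule.span_le (p := algSpan W Z)).2 ?_ h3
  rintro v ⟨hv, hvμ⟩
  by_cases hv0 : v = 0
  · rw [hv0]
    exact Submodule.zero_mem _
  obtain ⟨ω, A, M, Lw, C, hLn, h4, hM, hC, hvL, h5⟩ := heig v hv
  have h6 : ω = μ ^ t₀ := eq_of_mem_gen (eig_mem_gen h4) hvμ hv0
  -- the relation
  let E' : ℕ := e * Φ.e X * M
  have hE : 0 < E' := Nat.mul_pos (Nat.mul_pos he (Φ.e_pos _)) hM
  let w : ℕ := T * Φ.e Z * M
  have hTpos : 0 < T := Nat.mul_pos ht₀ hs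
  have hw : 0 < w := Nat.mul_pos (Nat.mul_pos hTpos (Φ.e_pos _)) hM
  let x₀ : ℚ := ((card Φ Z s : ℚ) ^ c) ^ (N * (t₀ * E')) * (((card Φ Z T : ℚ) ^ A) ^ N)⁻¹
  have h7 : (∏ σ : E →+* W.K, (σ α) ^ (N * w * mult Lw σ)) * ν ^ (N * (t₀ * E')) =
      (x₀ : W.K) := by
    have h8 : (μ * ν) ^ (N * (t₀ * E')) = ((card Φ Z s : W.K) ^ c) ^ (N * (t₀ * E')) := by
      rw [pow_mul, hrel, ← pow_mul]
    have h9 : μ ^ (N * (t₀ * E')) = ((card Φ Z T : W.K) ^ A) ^ N *
        ∏ σ : E →+* W.K, (σ α) ^ (N * w * mult Lw σ) := by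
      have h90 : ∏ σ : E →+* W.K, (σ α) ^ (N * w * mult Lw σ) =
          (∏ σ : E →+* W.K, (σ α) ^ (w * mult Lw σ)) ^ N := by
        rw [← Finset.prod_pow]
        refine Finset.prod_congr rfl fun σ _ => ?_
        rw [← pow_mul]
        congr 1
        ring
      rw [h90, ← mul_pow, ← h5, h6, ← pow_mul, ← pow_mul]
      congr 1
      simp only [E']
      ring
    rw [mul_pow, h9] at h8
    have h10 : (x₀ : W.K) = ((card Φ Z s : W.K) ^ c) ^ (N * (t₀ * E')) *
        (((card Φ Z T : W.K) ^ A) ^ N)⁻¹ := by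
      simp only [x₀]
      push_cast
      rfl
    have h11 : ((card Φ Z T : W.K) ^ A) ^ N ≠ 0 := pow_ne_zero _ (zpow_ne_zero _ (hQ T))
    rw [h10, ← h8]
    generalize ((card Φ Z T : W.K) ^ A) ^ N = B at h11
    field_simp
  have hbal := balanced_relation_many hR hL₀ hlarge h𝓛 (n := mult Lw) (by
    rw [sum_mult]
    exact hLn) (Nat.mul_pos hN hw) hνM hν0 h7
  rw [hvL]
  exact algSpan_mul (balanced_alg hP Lw.length Lw le_rfl hbal) hC

/-- The eigenvalues of the Frobenius endomorphism of a product are products, up to powers. -/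
theorem slopes_prod [IsAlgClosed W.K] {PP : W.K → Prop} (hmul : ∀ ν ν', PP ν → PP ν' → PP (ν * ν'))
    (hpow : ∀ ν (n : ℕ), 0 < n → PP ν → PP (ν ^ n)) (hroot : ∀ ν (n : ℕ), 0 < n → PP (ν ^ n) → PP ν)
    {U U' : 𝒱.Obj} (hU : ∀ ν, Module.End.HasEigenvalue (W.map (Φ.Fr U)).toLinearMap ν → PP ν)
    (hU' : ∀ ν, Module.End.HasEigenvalue (W.map (Φ.Fr U')).toLinearMap ν → PP ν) (ν : W.K)
    (hν : Module.End.HasEigenvalue (W.map (Φ.Fr (U.prod U'))).toLinearMap ν) : PP ν := by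
  obtain ⟨a, b, ha, hb, hab, h1⟩ := frob_comm Φ (fst U U')
  obtain ⟨a', b', ha', hb', hab', h2⟩ := frob_comm Φ (snd U U')
  obtain ⟨y, hy, hy0⟩ := hν.exists_hasEigenvector
  have hy1 : (W.map (Φ.Fr (U.prod U'))).toLinearMap y = ν • y :=
    Module.End.mem_eigenspace_iff.1 hy
  set F := frob Φ (U.prod U') (a * a') with hF
  have hFpow : F = (W.map (Φ.Fr (U.prod U'))).toLinearMap ^ (a * a') := frob_pow_eq' _ _
  have hy2 : F y = ν ^ (a * a') • y := by
    rw [hFpow]
    generalize a * a' = m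
    induction m with
    | zero => rw [pow_zero, pow_zero, one_smul]; rfl
    | succ m ih => rw [pow_succ', Module.End.mul_apply, ih, map_smul, hy1, smul_smul, pow_succ]
  have hG : ∀ ν, Module.End.HasEigenvalue (frob Φ U (b * a')) ν → PP ν := by
    rw [frob_pow_eq']
    exact PP_pow hU hpow (Nat.mul_pos hb ha')
  have hG' : ∀ ν, Module.End.HasEigenvalue (frob Φ U' (b' * a)) ν → PP ν := by
    rw [frob_pow_eq']
    exact PP_pow hU' hpow (Nat.mul_pos hb' ha)
  let β : W.H U →ₗ[W.K] W.H U' →ₗ[W.K] W.H (U.prod U') :=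
    (LinearMap.mul W.K (W.H (U.prod U'))).compl₁₂ (W.map (fst U U')).toLinearMap
      (W.map (snd U U')).toLinearMap
  have hβ : ∀ x x', β x x' = W.map (fst U U') x * W.map (snd U U') x' := fun x x' => rfl
  have hFβ : ∀ x x', F (β x x') = β (frob Φ U (b * a') x) (frob Φ U' (b' * a) x') := by
    intro x x'
    rw [hβ, hβ]
    change W.map (W534.iter (Φ.Fr (U.prod U')) (a * a')) (W.map (fst U U') x *
      W.map (snd U U') x') = W.map (fst U U') (W.map (W534.iter (Φ.Fr U) (b * a')) x) *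
        W.map (snd U U') (W.map (W534.iter (Φ.Fr U') (b' * a)) x')
    rw [map_mul, ← h1, ← h2, mul_comm a' a]
  -- the products of generalised eigenvectors
  let M : Set (W.H (U.prod U')) := {w | ∃ (x : W.H U) (x' : W.H U') (μ μ' : W.K),
    x ∈ Module.End.maxGenEigenspace (frob Φ U (b * a')) μ ∧
    x' ∈ Module.End.maxGenEigenspace (frob Φ U' (b' * a)) μ' ∧ w = β x x'}
  have hspan : ∀ w : W.H (U.prod U'), w ∈ Submodule.span W.K M := by
    intro w
    obtain ⟨t, rfl⟩ := (W.kunneth U U').2 w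
    induction t using TensorProduct.induction_on with
    | zero => rw [map_zero]; exact Submodule.zero_mem _
    | add x y hx hy => rw [map_add]; exact Submodule.add_mem _ hx hy
    | tmul x x' =>
      have hx := span_gen_top (frob Φ U (b * a')) x
      have hx' := span_gen_top (frob Φ U' (b' * a)) x'
      change β x x' ∈ _
      induction hx using Submodule.span_induction with
      | mem x hx =>
        induction hx' using Submodule.span_induction with
        | mem x' hx' =>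
          obtain ⟨μ, hμ⟩ := hx
          obtain ⟨μ', hμ'⟩ := hx'
          exact Submodule.subset_span ⟨x, x', μ, μ', hμ, hμ', rfl⟩
        | zero => rw [map_zero]; exact Submodule.zero_mem _
        | add z z' _ _ hz hz' => rw [map_add]; exact Submodule.add_mem _ hz hz'
        | smul c z _ hz => rw [map_smul]; exact Submodule.smul_mem _ _ hz
      | zero => rw [map_zero, LinearMap.zero_apply]; exact Submodule.zero_mem _
      | add z z' _ _ hz hz' =>
        rw [map_add, LinearMap.add_apply]; exact Submodule.add_mem _ hz hz'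
      | smul c z _ hz => rw [map_smul, LinearMap.smul_apply]; exact Submodule.smul_mem _ _ hz
  have hMgen : ∀ w ∈ M, ∃ ν, w ∈ Module.End.maxGenEigenspace F ν := by
    rintro w ⟨x, x', μ, μ', hx, hx', rfl⟩
    exact ⟨_, gen_mul β hFβ hx hx'⟩
  have h3 := mem_span_gen hMgen (hspan y) (eig_mem_gen hy2)
  obtain ⟨w, ⟨hwM, hwν⟩, hw0⟩ : ∃ w ∈ {w | w ∈ M ∧
      w ∈ Module.End.maxGenEigenspace F (ν ^ (a * a'))}, w ≠ 0 := by
    by_contra hcon
    push Not at hcon
    apply hy0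
    have h4 : Submodule.span W.K {w | w ∈ M ∧
        w ∈ Module.End.maxGenEigenspace F (ν ^ (a * a'))} = ⊥ := by
      rw [Submodule.span_eq_bot]
      exact hcon
    rw [h4] at h3
    exact (Submodule.mem_bot _).1 h3
  obtain ⟨x, x', μ, μ', hx, hx', rfl⟩ := hwM
  have h4 : μ * μ' = ν ^ (a * a') := eq_of_mem_gen (gen_mul β hFβ hx hx') hwν hw0
  have hx0 : x ≠ 0 := by
    rintro rfl
    rw [map_zero, LinearMap.zero_apply] at hw0
    exact hw0 rfl
  have hx0' : x' ≠ 0 := by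
    rintro rfl
    rw [map_zero] at hw0
    exact hw0 rfl
  refine hroot ν (a * a') (Nat.mul_pos ha ha') ?_
  rw [← h4]
  exact hmul μ μ' (hG μ (hasEigenvalue_of_gen hx hx0)) (hG' μ' (hasEigenvalue_of_gen hx' hx0'))

end Pool.Agent.Y103.Hk
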