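import Pool.Agent.Y103.Hk.Op
import Pool.Agent.Y138.KC.Gen
import Pool.Agent.W397.MF.PAIR

/-!
# Letters and words on varieties built from one piece of K3 type
-/

set_option autoImplicit false
set_option linter.unusedSectionVars false

open CategoryTheory AlgebraicGeometry NumberField
open scoped TensorProduct

universe u v

namespace Pool.Agent.Y103.Hk

open Pool.Agent.H914 Pool.Agent.H914.VarClass Pool.Agent.H914.VarClass.Obj
  Pool.Agent.H914.WeilCohomology Pool.Agent.H281R3.HT Pool.Agent.W552 Pool.Agent.W534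
  Pool.Agent.W458.RK Pool.Agent.W458.MF Pool.Agent.TH132.A Pool.Agent.W536.RR
  Pool.Agent.TH121.KT Pool.Agent.Y138.KC

variable {k : Type u} [Field k] {𝒱 : VarClass k} {ops : CycleOps 𝒱}
  {W : WeilCohomology.{u, v} ops} {X Y Z : 𝒱.Obj} {p : ℕ} {Φ : FrobSystem W p} {b e : ℕ}
  {E : Type} [Field E] {α : E}

/-- a letter: the image of an eigenvector -/
structure Lt (Φ : FrobSystem W p) (X : 𝒱.Obj) (b e : ℕ) (α : E) (Z : 𝒱.Obj) where
  j : ℕ
  z : (X.prod Z).Cycles
  hz : (X.prod Z).IsCyc j z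
  σ : E →+* W.K
  x : W.H X
  hx : IsTwist Φ X b e α σ x

namespace Lt

/-- the class -/
noncomputable def val (l : Lt Φ X b e α Z) : W.H Z := W.corr (W.cl _ l.z) l.x

lemma val_even (l : Lt Φ X b e α Z) : ∃ m, l.val ∈ W.gr Z (2 * m) := by
  have h1 := W.mul_mem (W.cl_mem l.hz) (W.map_mem (fst X Z) l.hx.1)
  have h2 := W.push_mem (snd X Z) h1
  rw [dim_prod] at h2
  by_cases h : X.dim ≤ l.j + b
  · refine ⟨l.j + b - X.dim, ?_⟩
    rw [show ((2 * l.j + 2 * b : ℕ) : ℤ) + 2 * ((Z.dim : ℤ) - ((X.dim + Z.dim : ℕ) : ℤ)) =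
      ((2 * (l.j + b - X.dim) : ℕ) : ℤ) by push_cast [Nat.cast_sub h]; ring, grZ_natCast] at h2
    exact h2
  · refine ⟨0, ?_⟩
    rw [grZ_of_neg (by push_cast; omega)] at h2
    rw [val, corr_apply, (Submodule.mem_bot _).1 h2]
    exact Submodule.zero_mem _

lemma val_comm (l : Lt Φ X b e α Z) (u : W.H Z) : l.val * u = u * l.val := by
  obtain ⟨m, hm⟩ := l.val_even
  exact W.even_comm hm u

/-- the eigenvalue at the level `s` -/
def At (l : Lt Φ X b e α Z) (s M : ℕ) : Prop :=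
  ∃ (ω : W.K) (A : ℤ), frob Φ Z s l.val = ω • l.val ∧
    ω ^ (e * Φ.e X * M) = (card Φ Z s : W.K) ^ A * (l.σ α) ^ (s * Φ.e Z * M)

lemma At.mul {l : Lt Φ X b e α Z} {s M : ℕ} (h : l.At s M) (m : ℕ) : l.At s (M * m) := by
  obtain ⟨ω, A, h1, h2⟩ := h
  refine ⟨ω, A * m, h1, ?_⟩
  rw [← mul_assoc, pow_mul, h2, mul_pow, ← pow_mul, zpow_mul, zpow_natCast, ← mul_assoc]

lemma exists_at (l : Lt Φ X b e α Z) : ∃ a M : ℕ, 0 < a ∧ 0 < M ∧
    ∀ t, 0 < t → l.At (a * t) M := by
  obtain ⟨j, z, hz, σ, x, hx, s, N, μ, hs, hN, hμ, hrel⟩ := l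
  obtain ⟨a, b', ha, hb', hab, h⟩ := frob_corr Φ hz
  refine ⟨a * s, N, Nat.mul_pos ha hs, hN, fun t ht => ?_⟩
  have h1 : ∀ m, frob Φ X (s * m) x = μ ^ m • x := by
    intro m
    rw [frob_mul_eq]
    induction m with
    | zero => rw [pow_zero, pow_zero, one_smul]; rfl
    | succ m ih =>
      rw [pow_succ', Module.End.mul_apply, ih, map_smul]
      change μ ^ m • W.map (W534.iter (Φ.Fr X) s) x = _
      rw [hμ, smul_smul, pow_succ]
  have hcard : (card Φ Z (a * s * t) : W.K) ≠ 0 := card_ne Φ _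
  refine ⟨μ ^ (b' * t) * (card Φ Z (a * s * t) : W.K) ^ ((j : ℤ) - X.dim),
    (Φ.e X * (b * (e * N)) : ℕ) + ((j : ℤ) - X.dim) * (e * Φ.e X * N : ℕ), ?_, ?_⟩
  · change frob Φ Z (a * s * t) (W.corr (W.cl _ z) x) = _ • W.corr (W.cl _ z) x
    rw [mul_assoc a s t, h, show b' * (s * t) = s * (b' * t) by ring, h1, map_smul, smul_smul,
      mul_comm]
  change _ = _ * (σ α) ^ (a * s * t * Φ.e Z * N)
  rw [mul_pow, zpow_add₀ hcard, zpow_mul, zpow_natCast, zpow_natCast]
  have h2 : (μ ^ (b' * t)) ^ (e * Φ.e X * N) =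
      (card Φ Z (a * s * t) : W.K) ^ (Φ.e X * (b * (e * N))) *
        (σ α) ^ (a * s * t * Φ.e Z * N) := by
    have h3 : b' * t * (e * Φ.e X * N) = e * N * (b' * Φ.e X * t) := by ring
    rw [← pow_mul, h3, pow_mul, hrel, ← hab, mul_pow, ← pow_mul, ← pow_mul, W534.card,
      Nat.cast_pow, ← pow_mul]
    congr 2
    · ring
    · ring
  rw [h2]
  ring

end Lt

/-- the class of a list of letters -/
noncomputable def wordVal (L : List (Lt Φ X b e α Z)) : W.H Z := (L.map Lt.val).prod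

lemma wordVal_nil : wordVal ([] : List (Lt Φ X b e α Z)) = 1 := rfl

lemma wordVal_cons (a : Lt Φ X b e α Z) (L : List (Lt Φ X b e α Z)) :
    wordVal (a :: L) = a.val * wordVal L := by
  rw [wordVal, List.map_cons, List.prod_cons]
  rfl

lemma wordVal_append (L L' : List (Lt Φ X b e α Z)) :
    wordVal (L ++ L') = wordVal L * wordVal L' := by
  rw [wordVal, List.map_append, List.prod_append]
  rfl

/-- moving a letter to the front -/
lemma wordVal_swap (L₁ L₂ : List (Lt Φ X b e α Z)) (a : Lt Φ X b e α Z) :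
    wordVal (L₁ ++ a :: L₂) = a.val * wordVal (L₁ ++ L₂) := by
  rw [wordVal_append, wordVal_append, wordVal_cons, ← mul_assoc, ← a.val_comm, mul_assoc]

/-- The products of opposite eigenvectors are algebraic. -/
def PairsAlg [NumberField E] [IsCMField E] (Φ : FrobSystem W p) (X : 𝒱.Obj) (b e : ℕ) (α : E) :
    Prop :=
  ∀ (σ : E →+* W.K) (x y : W.H X), IsTwist Φ X b e α σ x → IsTwist Φ X b e α (cj σ) y →
    ext W x y ∈ algSpan W (X.prod X)

section Alg

variable [NumberField E] [IsCMField E]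

/-- the product of two opposite letters is algebraic -/
lemma pair_alg (hP : PairsAlg Φ X b e α) (a a' : Lt Φ X b e α Z) (h : a'.σ = cj a.σ) :
    a.val * a'.val ∈ algSpan W Z := by
  apply mul_of_ext
  apply ext_corr_left (cl_mem_algSpan a.hz)
  obtain ⟨m, hm⟩ := a'.val_even
  have h1 : ext W a.x a'.x ∈ algSpan W (X.prod X) := hP a.σ a.x a'.x a.hx (h ▸ a'.hx)
  exact ext_swap hm (ext_corr_left (cl_mem_algSpan a'.hz) (ext_swap a.hx.1 h1))

open Classical in
/-- balanced words are algebraic -/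
lemma balanced_alg (hP : PairsAlg Φ X b e α) : ∀ (m : ℕ) (L : List (Lt Φ X b e α Z)),
    L.length ≤ m → (∀ σ, (L.map Lt.σ).count σ = (L.map Lt.σ).count (cj σ)) →
      wordVal L ∈ algSpan W Z := by
  have hbne : ∀ σ : E →+* W.K, cj σ ≠ σ := by
    intro σ h1
    have h2 : ∀ x : E, IsCMField.complexConj E x = x := by
      intro x
      exact σ.injective (RingHom.congr_fun h1 x)
    exact IsCMField.complexConj_ne_one E (AlgEquiv.ext h2)
  have hcc : ∀ σ : E →+* W.K, cj (cj σ) = σ := fun σ => cj_cj σ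
  intro m
  induction m with
  | zero =>
    intro L hL _
    rw [List.length_eq_zero_iff.1 (Nat.le_zero.1 hL), wordVal_nil]
    exact one_mem_algSpan
  | succ m ih =>
    intro L hL hbal
    rcases L with _ | ⟨a, L⟩
    · rw [wordVal_nil]
      exact one_mem_algSpan
    · have h1 : cj a.σ ∈ L.map Lt.σ := by
        have h2 := hbal a.σ
        have h3 : 0 < ((a :: L).map Lt.σ).count a.σ := by
          rw [List.count_pos_iff]
          exact List.mem_cons_self
        rw [h2, List.count_pos_iff, List.map_cons, List.mem_cons] at h3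
        rcases h3 with h3 | h3
        · exact absurd h3 (hbne _)
        · exact h3
      obtain ⟨a', ha', hab⟩ := List.mem_map.1 h1
      obtain ⟨L₁, L₂, rfl⟩ := List.append_of_mem ha'
      rw [wordVal_cons, wordVal_swap, ← mul_assoc]
      refine algSpan_mul (pair_alg hP a a' hab) (ih _ ?_ fun x => ?_)
      · rw [List.length_cons, List.length_append, List.length_cons] at hL
        rw [List.length_append]
        omega
      · have h2 := hbal x
        simp only [List.map_cons, List.map_append, List.count_cons, List.count_append,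
          beq_iff_eq] at h2 ⊢
        rw [hab] at h2
        have h3 : (cj a.σ = x) ↔ (a.σ = cj x) := by
          constructor
          · rintro rfl; rw [hcc]
          · intro h; rw [h, hcc]
        have h4 : (cj a.σ = cj x) ↔ (a.σ = x) := by
          constructor
          · intro h; rw [← hcc a.σ, h, hcc]
          · rintro rfl; rfl
        simp only [h3, h4] at h2
        omega

end Alg

/-- the eigenvalue of a word -/
lemma word_eigen {s M : ℕ} (L : List (Lt Φ X b e α Z)) (hL : ∀ l ∈ L, l.At s M) :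
    ∃ (ω : W.K) (A : ℤ), frob Φ Z s (wordVal L) = ω • wordVal L ∧
      ω ^ (e * Φ.e X * M) = (card Φ Z s : W.K) ^ A *
        (L.map fun l => (l.σ α) ^ (s * Φ.e Z * M)).prod := by
  induction L with
  | nil =>
    refine ⟨1, 0, ?_, ?_⟩
    · rw [wordVal_nil, frob_one, one_smul]
    · rw [one_pow, zpow_zero, List.map_nil, List.prod_nil, mul_one]
  | cons a L ih =>
    obtain ⟨ω, A, h1, h2⟩ := ih fun l hl => hL l (List.mem_cons_of_mem _ hl)
    obtain ⟨ω', A', h3, h4⟩ := hL a List.mem_cons_self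
    refine ⟨ω' * ω, A' + A, ?_, ?_⟩
    · rw [wordVal_cons, frob_mul_apply, h1, h3, smul_mul_smul_comm]
    · rw [mul_pow, h2, h4, List.map_cons, List.prod_cons, zpow_add₀ (card_ne Φ s)]
      ring

/-- a good level for a word -/
lemma word_level (L : List (Lt Φ X b e α Z)) : ∃ a M : ℕ, 0 < a ∧ 0 < M ∧
    ∀ t, 0 < t → ∀ l ∈ L, l.At (a * t) M := by
  induction L with
  | nil => exact ⟨1, 1, one_pos, one_pos, fun t _ l hl => absurd hl List.not_mem_nil⟩
  | cons b L ih =>
    obtain ⟨a, M, ha, hM, h⟩ := ih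
    obtain ⟨a', M', ha', hM', h'⟩ := b.exists_at
    refine ⟨a * a', M * M', Nat.mul_pos ha ha', Nat.mul_pos hM hM', fun t ht l hl => ?_⟩
    rcases List.mem_cons.1 hl with rfl | hl
    · have := (h' (a * t) (Nat.mul_pos ha ht)).mul M
      rwa [show a' * (a * t) = a * a' * t by ring, mul_comm M' M] at this
    · have := (h (a' * t) (Nat.mul_pos ha' ht) l hl).mul M'
      rwa [← mul_assoc] at this

/-- the words -/
def Words (Φ : FrobSystem W p) (X : 𝒱.Obj) (b e : ℕ) (α : E) (n : ℕ) (Z : 𝒱.Obj) : Set (W.H Z) :=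
  {v | ∃ (L : List (Lt Φ X b e α Z)) (j : ℕ) (c : Z.Cycles), L.length ≤ n ∧ Z.IsCyc j c ∧
    v = wordVal L * W.cl Z c}

/-- the words which are eigenvectors at the level `s` -/
def GoodWords (Φ : FrobSystem W p) (X : 𝒱.Obj) (b e : ℕ) (α : E) (n : ℕ) (Z : 𝒱.Obj) (s : ℕ) :
    Set (W.H Z) :=
  {v | ∃ (L : List (Lt Φ X b e α Z)) (j M : ℕ) (c : Z.Cycles), L.length ≤ n ∧ 0 < M ∧
    Z.IsCyc j c ∧
    (∀ l ∈ L, l.At s M) ∧
    frob Φ Z s (W.cl Z c) = (card Φ Z s : W.K) ^ j • W.cl Z c ∧ v = wordVal L * W.cl Z c}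

/-- a linear combination of words is a combination of good words for a large level -/
lemma span_good {n : ℕ} {z : W.H Z} (hz : z ∈ Submodule.span W.K (Words Φ X b e α n Z)) :
    ∃ t₀, 0 < t₀ ∧ ∀ t, 0 < t → z ∈ Submodule.span W.K (GoodWords Φ X b e α n Z (t₀ * t)) := by
  induction hz using Submodule.span_induction with
  | mem v hv =>
    obtain ⟨L, j, c, hLn, hc, rfl⟩ := hv
    obtain ⟨a, M, ha, hM, h⟩ := word_level L
    obtain ⟨b, hb, h1⟩ := Φ.cyc hc
    have h1 : frob Φ Z b (W.cl Z c) = (card Φ Z b : W.K) ^ j • W.cl Z c := by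
      rw [card_pow]
      exact h1
    refine ⟨a * b, Nat.mul_pos ha hb, fun t ht => Submodule.subset_span
      ⟨L, j, M, c, hLn, hM, hc, ?_, ?_, rfl⟩⟩
    · rw [mul_assoc]
      exact h (b * t) (Nat.mul_pos hb ht)
    · rw [show a * b * t = b * (a * t) by ring]
      exact eig_pow h1 (a * t)
  | zero => exact ⟨1, one_pos, fun t _ => Submodule.zero_mem _⟩
  | add x y _ _ hx hy =>
    obtain ⟨a, ha, h⟩ := hx
    obtain ⟨b, hb, h'⟩ := hy
    refine ⟨a * b, Nat.mul_pos ha hb, fun t ht => Submodule.add_mem _ ?_ ?_⟩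
    · rw [mul_assoc]
      exact h _ (Nat.mul_pos hb ht)
    · rw [show a * b * t = b * (a * t) by ring]
      exact h' _ (Nat.mul_pos ha ht)
  | smul c x _ hx =>
    obtain ⟨a, ha, h⟩ := hx
    exact ⟨a, ha, fun t ht => Submodule.smul_mem _ _ (h t ht)⟩

/-- a list of letters -/
lemma exists_letters (l : List (W.H Z)) (h : ∀ y ∈ l, y ∈ twistImages Φ X b e α Z) :
    ∃ L : List (Lt Φ X b e α Z), L.length = l.length ∧ wordVal L = l.prod := by
  induction l with
  | nil => exact ⟨[], rfl, rfl⟩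
  | cons a l ih =>
    obtain ⟨L, h1, h2⟩ := ih fun y hy => h y (List.mem_cons_of_mem _ hy)
    obtain ⟨_, ⟨j, z, hz, rfl⟩, x, ⟨σ, hx⟩, ha⟩ := h a List.mem_cons_self
    refine ⟨⟨j, z, hz, σ, x, hx⟩ :: L, by rw [List.length_cons, h1, List.length_cons], ?_⟩
    rw [wordVal_cons, h2, List.prod_cons, ha]
    rfl

/-- **The cohomology is spanned by words.** -/
theorem span_words {n : ℕ} (hZ : IsBuiltFrom Φ X b e α n Z) (z : W.H Z) :
    z ∈ Submodule.span W.K (Words Φ X b e α n Z) := by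
  have hz : z ∈ Submodule.span W.K {a | ∃ (l : List (W.H Z)) (c : W.H Z), l.length ≤ n ∧
      (∀ y ∈ l, y ∈ twistImages Φ X b e α Z) ∧ c ∈ cycleClasses W Z ∧ a = l.prod * c} := by
    rw [show Submodule.span W.K {a | ∃ (l : List (W.H Z)) (c : W.H Z), l.length ≤ n ∧
      (∀ y ∈ l, y ∈ twistImages Φ X b e α Z) ∧ c ∈ cycleClasses W Z ∧ a = l.prod * c} = ⊤ from hZ]
    exact Submodule.mem_top
  refine Submodule.span_mono ?_ hz
  rintro a ⟨l, c, hl, hy, ⟨j, z, hz, rfl⟩, rfl⟩
  obtain ⟨L, h1, h2⟩ := exists_letters l hy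
  exact ⟨L, j, z, by rw [h1]; exact hl, hz, by rw [h2]⟩

end Pool.Agent.Y103.Hk
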