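import Pool.Agent.Y103.Hk.Word
import Pool.Agent.W517.K3.Gal
import Pool.Agent.W534.QOp
import Pool.Agent.H914R2.PGood
import Pool.Agent.H914R2.KLef
import Pool.Agent.H914R2.GFrob

/-!
# The products of opposite eigenvectors of multiplicity one are algebraic
-/

set_option autoImplicit false
set_option linter.unusedSectionVars false

open CategoryTheory AlgebraicGeometry NumberField Polynomial

universe u v

namespace Pool.Agent.Y103.Hk

open Pool.Agent.H914 Pool.Agent.H914.VarClass Pool.Agent.H914.VarClass.Obj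
  Pool.Agent.H914.WeilCohomology Pool.Agent.H281R3.HT Pool.Agent.W552 Pool.Agent.W534
  Pool.Agent.W458.RK Pool.Agent.W458.MF Pool.Agent.TH132.A Pool.Agent.W536.RR
  Pool.Agent.TH121.KT

/-- polynomials in an operator and eigenvectors -/
lemma aeval_eig {K V : Type*} [Field K] [AddCommGroup V] [Module K V] {G : Module.End K V} {x : V}
    {ν : K} (h : G x = ν • x) (q : K[X]) : aeval G q x = q.eval ν • x := by
  induction q using Polynomial.induction_on' with
  | add p q hp hq => rw [map_add, LinearMap.add_apply, hp, hq, eval_add, add_smul]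
  | monomial n a =>
    rw [aeval_monomial, eval_monomial, Module.End.mul_apply]
    have h1 : (G ^ n) x = ν ^ n • x := by
      induction n with
      | zero => rw [pow_zero, pow_zero, one_smul]; rfl
      | succ n ih => rw [pow_succ', Module.End.mul_apply, ih, map_smul, h, smul_smul, pow_succ]
    rw [h1, map_smul, Module.algebraMap_end_apply, smul_smul, mul_comm]

lemma aeval_comm {K V : Type*} [Field K] [AddCommGroup V] [Module K V] (G : Module.End K V)
    (q : K[X]) : aeval G q * G = G * aeval G q := by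
  have h : aeval G (q * X) = aeval G (X * q) := by rw [mul_comm]
  rwa [map_mul, map_mul, aeval_X] at h

/-- a polynomial with the value zero at the members of a finite set, and not at `μ` -/
lemma exists_poly {K : Type*} [Field K] [DecidableEq K] (S : Finset K) (μ : K) :
    ∃ q : K[X], q.eval μ ≠ 0 ∧ ∀ ν ∈ S, ν ≠ μ → q.eval ν = 0 := by
  refine ⟨∏ ν ∈ S.erase μ, (X - C ν), ?_, ?_⟩
  · rw [eval_prod, Finset.prod_ne_zero_iff]
    intro ν hν
    rw [eval_sub, eval_X, eval_C, sub_ne_zero]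
    exact (Finset.ne_of_mem_erase hν).symm
  · intro ν hν hne
    rw [eval_prod]
    refine Finset.prod_eq_zero (Finset.mem_erase.2 ⟨hne, hν⟩) ?_
    rw [eval_sub, eval_X, eval_C, sub_self]

lemma exists_finset_span {K V : Type*} [Field K] [AddCommGroup V] [Module K V] {s : Set V}
    (B : Finset V) (h : (B : Set V) ⊆ Submodule.span K s) :
    ∃ T : Finset V, (T : Set V) ⊆ s ∧ (B : Set V) ⊆ Submodule.span K (T : Set V) := by
  classical
  induction B using Finset.induction_on with
  | empty => exact ⟨∅, by simp, by simp⟩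
  | insert a B ha ih =>
    obtain ⟨T, h1, h2⟩ := ih (fun x hx => h (by
      rw [Finset.coe_insert]; exact Set.mem_insert_of_mem _ hx))
    obtain ⟨T', h3, h4⟩ := Submodule.mem_span_finite_of_mem_span (h (show a ∈ _ by
      rw [Finset.coe_insert]; exact Set.mem_insert _ _))
    refine ⟨T ∪ T', ?_, ?_⟩
    · rw [Finset.coe_union]
      exact Set.union_subset h1 h3
    · intro x hx
      rw [Finset.coe_insert] at hx
      rcases hx with rfl | hx
      · refine Submodule.span_mono ?_ h4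
        rw [Finset.coe_union]
        exact Set.subset_union_right
      · refine Submodule.span_mono ?_ (h2 hx)
        rw [Finset.coe_union]
        exact Set.subset_union_left

variable {k : Type u} [Field k] {𝒱 : VarClass k} {ops : CycleOps 𝒱}
  {W : WeilCohomology.{u, v} ops} {X Y Z : 𝒱.Obj} {p : ℕ} {Φ : FrobSystem W p} {b e : ℕ}
  {E : Type} [Field E] {α : E}

/-- composition with a pull-back -/
lemma alg_comp_map (f : X ⟶ X) {r : W.H (X.prod X)} (hr : r ∈ algSpan W (X.prod X)) :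
    ∃ r' ∈ algSpan W (X.prod X), W.corr r' = (W.map f).toLinearMap ∘ₗ W.corr r := by
  refine algSpan_induction (p := fun r => ∃ r' ∈ algSpan W (X.prod X),
    W.corr r' = (W.map f).toLinearMap ∘ₗ W.corr r) ?_ ?_ ?_ ?_ hr
  · exact ⟨0, Submodule.zero_mem _, by rw [corr_zero, LinearMap.comp_zero]⟩
  · rintro x y ⟨x', hx', h1⟩ ⟨y', hy', h2⟩
    exact ⟨x' + y', Submodule.add_mem _ hx' hy', by
      rw [corr_add, corr_add, h1, h2, LinearMap.comp_add]⟩
  · rintro t x ⟨x', hx', h1⟩
    exact ⟨t • x', Submodule.smul_mem _ _ hx', by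
      rw [corr_smul, corr_smul, h1, LinearMap.comp_smul]⟩
  · intro j z hz
    have h1 : QOp W X X ((j : ℤ) - X.dim) (W.corr (W.cl _ z)) := QOp.gen (by ring) hz
    have h2 := QOp.comp (qop_pull (W := W) f) h1
    obtain ⟨w, hw, h3⟩ := h2.exists_cyc (p := j) (by ring)
    exact ⟨W.cl _ w, cl_mem_algSpan hw, h3⟩

/-- composition with a polynomial in a pull-back -/
lemma alg_comp_poly (f : X ⟶ X) {r : W.H (X.prod X)} (hr : r ∈ algSpan W (X.prod X))
    (q : W.K[X]) : ∃ r' ∈ algSpan W (X.prod X),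
      W.corr r' = aeval (W.map f).toLinearMap q ∘ₗ W.corr r := by
  induction q using Polynomial.induction_on' with
  | add p q hp hq =>
    obtain ⟨x', hx', h1⟩ := hp
    obtain ⟨y', hy', h2⟩ := hq
    exact ⟨x' + y', Submodule.add_mem _ hx' hy', by
      rw [corr_add, map_add, h1, h2, LinearMap.add_comp]⟩
  | monomial n a =>
    have h1 : ∀ n : ℕ, ∃ r' ∈ algSpan W (X.prod X),
        W.corr r' = ((W.map f).toLinearMap ^ n) ∘ₗ W.corr r := by
      intro n
      induction n with
      | zero => exact ⟨r, hr, by rw [pow_zero]; rfl⟩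
      | succ n ih =>
        obtain ⟨r₁, hr₁, h1⟩ := ih
        obtain ⟨r₂, hr₂, h2⟩ := alg_comp_map f hr₁
        refine ⟨r₂, hr₂, ?_⟩
        rw [h2, h1, pow_succ']
        rfl
    obtain ⟨r₁, hr₁, h2⟩ := h1 n
    refine ⟨a • r₁, Submodule.smul_mem _ _ hr₁, ?_⟩
    rw [corr_smul, h2, aeval_monomial]
    apply LinearMap.ext
    intro x
    rfl

/-- an eigenvector of the Frobenius endomorphism at the level `m`, of one of two kinds -/
def Kind (Φ : FrobSystem W p) (X : 𝒱.Obj) (b e : ℕ) (α : E) (x : W.H X) (m : ℕ) : Prop :=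
  (∃ j : ℕ, frob Φ X m x = (card Φ X m : W.K) ^ j • x) ∨
    ∃ (τ : E →+* W.K) (N : ℕ) (μ : W.K), IsTwist Φ X b e α τ x ∧ 0 < N ∧ frob Φ X m x = μ • x ∧
      μ ^ (e * N) = (card Φ X m : W.K) ^ (b * (e * N)) * τ α ^ (m * N)

lemma twist_level {τ : E →+* W.K} {x : W.H X} (hx : IsTwist Φ X b e α τ x) :
    ∃ s, 0 < s ∧ ∀ t, 0 < t → ∃ (N : ℕ) (μ : W.K), 0 < N ∧ frob Φ X (s * t) x = μ • x ∧
      μ ^ (e * N) = (card Φ X (s * t) : W.K) ^ (b * (e * N)) * τ α ^ (s * t * N) := by
  obtain ⟨-, s, N, μ, hs, hN, hμ, hrel⟩ := hx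
  refine ⟨s, hs, fun t ht => ⟨N, μ ^ t, hN, ?_, ?_⟩⟩
  · rw [frob_mul_eq]
    induction t with
    | zero => exact absurd ht (lt_irrefl 0)
    | succ m ih =>
      rcases Nat.eq_zero_or_pos m with h0 | h0
      · subst h0
        rw [zero_add, pow_one, pow_one]
        exact hμ
      · rw [pow_succ', Module.End.mul_apply, ih h0, map_smul]
        change μ ^ m • W.map (W534.iter (Φ.Fr X) s) x = _
        rw [hμ, smul_smul, pow_succ]
  · rw [← pow_mul, mul_comm t, pow_mul, hrel, mul_pow, ← pow_mul, ← pow_mul, card_pow]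
    congr 2
    · ring
    · ring

lemma kind_level {x : W.H X} (hx : x ∈ cycleClasses W X ∪ twists Φ X b e α) :
    ∃ s, 0 < s ∧ ∀ t, 0 < t → Kind Φ X b e α x (s * t) := by
  rcases hx with ⟨j, z, hz, rfl⟩ | ⟨τ, hx⟩
  · obtain ⟨s, hs, h1⟩ := Φ.cyc hz
    have h1 : frob Φ X s (W.cl X z) = (card Φ X s : W.K) ^ j • W.cl X z := by
      rw [card_pow]
      exact h1
    exact ⟨s, hs, fun t _ => Or.inl ⟨j, eig_pow h1 t⟩⟩
  · obtain ⟨s, hs, h⟩ := twist_level hx
    refine ⟨s, hs, fun t ht => ?_⟩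
    obtain ⟨N, μ, hN, h1, h2⟩ := h t ht
    exact Or.inr ⟨τ, N, μ, hx, hN, h1, h2⟩

lemma kind_levels (T : Finset (W.H X))
    (hT : (T : Set (W.H X)) ⊆ cycleClasses W X ∪ twists Φ X b e α) :
    ∃ s, 0 < s ∧ ∀ t, 0 < t → ∀ x ∈ T, Kind Φ X b e α x (s * t) := by
  classical
  induction T using Finset.induction_on with
  | empty => exact ⟨1, one_pos, fun t _ x hx => absurd hx (Finset.notMem_empty _)⟩
  | insert a T ha ih =>
    obtain ⟨s, hs, h⟩ := ih (fun x hx => hT (by
      rw [Finset.coe_insert]; exact Set.mem_insert_of_mem _ hx))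
    obtain ⟨s', hs', h'⟩ := kind_level (hT (show a ∈ ((insert a T : Finset _) : Set _) by
      rw [Finset.coe_insert]; exact Set.mem_insert _ _))
    refine ⟨s * s', Nat.mul_pos hs hs', fun t ht x hx => ?_⟩
    rcases Finset.mem_insert.1 hx with rfl | hx
    · rw [show s * s' * t = s' * (s * t) by ring]
      exact h' _ (Nat.mul_pos hs ht)
    · rw [mul_assoc]
      exact h _ (Nat.mul_pos hs' ht) x hx

section arith

variable [NumberField E]

/-- embeddings which agree on a power of `α` are equal -/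
lemma emb_eq (hpow : ∀ s : ℕ, 0 < s → IntermediateField.adjoin ℚ {α ^ s} = ⊤)
    {Ω : Type*} [Field Ω] [CharZero Ω] {σ τ : E →+* Ω} {s : ℕ} (hs : 0 < s)
    (h : σ (α ^ s) = τ (α ^ s)) : σ = τ := by
  ext x
  have hx : x ∈ IntermediateField.adjoin ℚ {α ^ s} := by
    rw [hpow s hs]
    exact IntermediateField.mem_top
  induction hx using IntermediateField.adjoin_induction with
  | mem y hy =>
    rw [Set.mem_singleton_iff] at hy
    subst hy
    exact h
  | algebraMap q => rw [eq_ratCast, map_ratCast, map_ratCast]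
  | add x y _ _ hx hy => rw [map_add, map_add, hx, hy]
  | inv x _ hx => rw [map_inv₀, map_inv₀, hx]
  | mul x y _ _ hx hy => rw [map_mul, map_mul, hx, hy]

/-- no power of `α` is rational -/
lemma not_rat [IsCMField E] (hpow : ∀ s : ℕ, 0 < s → IntermediateField.adjoin ℚ {α ^ s} = ⊤)
    {Ω : Type*} [Field Ω] [CharZero Ω] (σ : E →+* Ω) {s : ℕ} (hs : 0 < s) (r : ℚ) :
    σ (α ^ s) ≠ (r : Ω) := by
  intro h
  have h1 : σ (α ^ s) = σ (algebraMap ℚ E r) := by
    rw [h, eq_ratCast, map_ratCast]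
  have h2 : α ^ s = algebraMap ℚ E r := σ.injective h1
  have h3 : cj σ = σ := by
    apply emb_eq hpow hs
    rw [h2, eq_ratCast, map_ratCast, map_ratCast]
  have h4 : ∀ x : E, IsCMField.complexConj E x = x := by
    intro x
    exact σ.injective (RingHom.congr_fun h3 x)
  exact IsCMField.complexConj_ne_one E (AlgEquiv.ext h4)

end arith

/-- a partner in the complementary degree -/
lemma exists_partner {i : ℕ} {v : W.H X} (hv : v ∈ W.gr X (2 * i)) (hv0 : v ≠ 0) :
    ∃ v' ∈ W.gr X (2 * (X.dim - i)), W.tr X (v * v') = 1 := by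
  have hi : i ≤ X.dim := by
    by_contra h
    rw [W.gr_eq_bot X _ (by omega)] at hv
    exact hv0 ((Submodule.mem_bot _).1 hv)
  have h1 : ∃ c ∈ W.gr X (2 * (X.dim - i)), W.tr X (v * c) ≠ 0 := by
    by_contra hcon
    push Not at hcon
    apply hv0
    apply W.nondeg
    intro c
    refine gr_induction (W.isInternal X) (p := fun c => W.tr X (v * c) = 0) ?_ ?_ c
    · intro l c hc
      by_cases hl : l = 2 * (X.dim - i)
      · subst hl
        exact hcon c hc
      · exact W.tr_eq_zero (W.mul_mem hv hc) (by omega)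
    · intro c c' hc hc'
      rw [mul_add, map_add, hc, hc', add_zero]
  obtain ⟨c, hc, hne⟩ := h1
  refine ⟨(W.tr X (v * c))⁻¹ • c, Submodule.smul_mem _ _ hc, ?_⟩
  rw [mul_smul_comm, map_smul, smul_eq_mul, inv_mul_cancel₀ hne]

/-- **Rank one.** An algebraic class on `X × X` whose action on the cohomology has values in the
line of `v`, of even degree, is an external product. -/
lemma rank_one {r : W.H (X.prod X)} {i m : ℕ} {v : W.H X}
    (hv : v ∈ W.gr X (2 * i)) (hv0 : v ≠ 0) (him : i + m = X.dim)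
    (hR : ∀ y, ∃ t : W.K, W.corr r y = t • v)
    (hR0 : ∀ l, l ≠ 2 * m → ∀ y ∈ W.gr X l, W.corr r y = 0) :
    ∃ w ∈ W.gr X (2 * i), r = ext W w v ∧ ∀ y, W.corr r y = W.tr X (w * y) • v := by
  obtain ⟨v', hv', hvv⟩ := exists_partner hv hv0
  set w₀ : W.H X := W.push (fst X X) (r * W.map (snd X X) v') with hw₀
  have h1 : ∀ y, W.tr X (w₀ * y) = W.tr X (W.corr r y * v') := by
    intro y
    rw [hw₀, W.tr_push, corr_apply, W.tr_push, mul_assoc, mul_assoc,
      W.even_comm (W.map_mem (snd X X) hv')]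
  have h2 : ∀ y, W.corr r y = W.tr X (w₀ * y) • v := by
    intro y
    obtain ⟨t, ht⟩ := hR y
    rw [h1, ht, smul_mul_assoc, map_smul, hvv, smul_eq_mul, mul_one]
  set w : W.H X := proj (W.isInternal X) (2 * i) w₀ with hw
  have hwmem : w ∈ W.gr X (2 * i) := proj_mem _ _ _
  have h3 : ∀ y, W.tr X (w * y) = W.tr X (w₀ * y) := by
    intro y
    refine gr_induction (W.isInternal X) (p := fun y => W.tr X (w * y) = W.tr X (w₀ * y))
      ?_ ?_ y
    · intro l y hy
      by_cases hl : l = 2 * m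
      · subst hl
        refine gr_induction (W.isInternal X) (p := fun z => W.tr X (proj (W.isInternal X)
          (2 * i) z * y) = W.tr X (z * y)) ?_ ?_ w₀
        · intro l' z hz
          by_cases hl' : l' = 2 * i
          · subst hl'
            rw [proj_same _ hz]
          · rw [proj_ne _ hz hl', zero_mul, map_zero,
              W.tr_eq_zero (W.mul_mem hz hy) (by omega)]
        · intro z z' hz hz'
          rw [map_add, add_mul, add_mul, map_add, map_add, hz, hz']
      · rw [W.tr_eq_zero (W.mul_mem hwmem hy) (by omega), h1, hR0 l hl y hy, zero_mul, map_zero]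
    · intro y y' hy hy'
      rw [mul_add, mul_add, map_add, map_add, hy, hy']
  refine ⟨w, hwmem, ?_, fun y => by rw [h2, h3]⟩
  rw [← sub_eq_zero]
  apply corr_inj
  apply LinearMap.ext
  intro y
  rw [corr_sub'', LinearMap.sub_apply, h2, LinearMap.zero_apply, sub_eq_zero, corr_apply,
    H281R3.HT.ext, mul_assoc, W.even_comm (W.map_mem (snd X X) hv), ← mul_assoc, ← map_mul, push_snd, h3]

lemma exists_line {K V : Type*} [Field K] [Ring V] [Algebra K V] {S : Set V}
    (h : IsLine K S) {v x : V} (hv : v ∈ S) (hv0 : v ≠ 0) (hx : x ∈ Submodule.span K S) :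
    ∃ t : K, x = t • v := by
  induction hx using Submodule.span_induction with
  | mem x hx => exact h x hx v hv hv0
  | zero => exact ⟨0, by rw [zero_smul]⟩
  | add x y _ _ hx hy =>
    obtain ⟨t, rfl⟩ := hx
    obtain ⟨t', rfl⟩ := hy
    exact ⟨t + t', by rw [add_smul]⟩
  | smul c x _ hx =>
    obtain ⟨t, rfl⟩ := hx
    exact ⟨c * t, by rw [mul_smul]⟩

section main

variable [NumberField E] [IsCMField E]

/-- the kinds of eigenvectors are separated -/
lemma twist_of_kind (hpow : ∀ s : ℕ, 0 < s → IntermediateField.adjoin ℚ {α ^ s} = ⊤)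
    {σ : E →+* W.K} {m N : ℕ} (hm : 0 < m) (hN : 0 < N) {μ : W.K}
    (hμ : μ ^ (e * N) = (card Φ X m : W.K) ^ (b * (e * N)) * σ α ^ (m * N)) {x : W.H X}
    (hx0 : x ≠ 0) (hx : Kind Φ X b e α x m) (hμx : frob Φ X m x = μ • x) :
    IsTwist Φ X b e α σ x := by
  have hQ : (card Φ X m : W.K) ≠ 0 := card_ne Φ m
  have huniq : ∀ ν : W.K, frob Φ X m x = ν • x → ν = μ := by
    intro ν h
    rw [hμx, ← sub_eq_zero, ← sub_smul] at h
    rcases smul_eq_zero.1 h with h | h
    · exact (sub_eq_zero.1 h).symm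
    · exact absurd h hx0
  rcases hx with ⟨j, hj⟩ | ⟨τ, N', μ', htw, hN', hμ', hrel⟩
  · exfalso
    have h1 := huniq _ hj
    rw [← h1, ← pow_mul] at hμ
    have hQq : (card Φ X m : ℚ) ≠ 0 := by
      intro h0
      apply hQ
      have : (card Φ X m : ℕ) = 0 := by exact_mod_cast h0
      rw [this, Nat.cast_zero]
    refine not_rat hpow σ (Nat.mul_pos hm hN)
      ((card Φ X m : ℚ) ^ (j * (e * N)) * ((card Φ X m : ℚ) ^ (b * (e * N)))⁻¹) ?_
    rw [map_pow, Rat.cast_mul, Rat.cast_inv, Rat.cast_pow, Rat.cast_pow, Rat.cast_natCast, hμ]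
    field_simp
  · have h1 := huniq _ hμ'
    subst h1
    have h2 : σ (α ^ (m * N * N')) = τ (α ^ (m * N * N')) := by
      rw [map_pow, map_pow]
      have h3 : (card Φ X m : W.K) ^ (b * (e * N * N')) * σ α ^ (m * N * N') =
          (card Φ X m : W.K) ^ (b * (e * N * N')) * τ α ^ (m * N * N') := by
        calc (card Φ X m : W.K) ^ (b * (e * N * N')) * σ α ^ (m * N * N')
            = ((card Φ X m : W.K) ^ (b * (e * N)) * σ α ^ (m * N)) ^ N' := by
              rw [mul_pow, ← pow_mul, ← pow_mul]; congr 2; ring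
          _ = (μ' ^ (e * N')) ^ N := by rw [← hμ, ← pow_mul, ← pow_mul]; congr 1; ring
          _ = _ := by
              rw [hrel, mul_pow, ← pow_mul, ← pow_mul]; congr 2 <;> ring
      exact mul_left_cancel₀ (pow_ne_zero _ hQ) h3
    rw [emb_eq hpow (Nat.mul_pos (Nat.mul_pos hm hN) hN') h2]
    exact htw

open Classical in
/-- **The products of opposite eigenvectors of multiplicity one are algebraic.** -/
theorem pairs_of_simple (hu : ∀ φ : E →+* ℂ, ‖φ α‖ = 1)
    (hpow : ∀ s : ℕ, 0 < s → IntermediateField.adjoin ℚ {α ^ s} = ⊤)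
    (h : SimpleLefschetz Φ X b e α) : PairsAlg Φ X b e α := by
  obtain ⟨hb, hspan, hmult, D, hD, hHL, hB⟩ := h
  intro σ v u hv hu'
  by_cases hv0 : v = 0
  · rw [hv0, H281R3.HT.ext, map_zero, zero_mul]
    exact Submodule.zero_mem _
  -- the inverse of the Lefschetz operator
  obtain ⟨Lam, hLamR, hLam⟩ := lefschetzB_iff_rop.1 hB
  have hLh : IsHom (W.gr X) 2 (LinearMap.mulLeft W.K (W.cl X D)) := by
    simpa using rop_opAlg.hom (rop_mulLeft (W := W) hD)
  have h1 := rop_opAlg.pow hLamR (X.dim - 2 * b)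
  have h2 := rop_opAlg.proj_mem (W.isInternal X) W_hbd (rop_mulLeft hD) hHL hLamR hLam
    (2 * X.dim - 2 * b)
  have h3 := rop_opAlg.mul h1 h2
  obtain ⟨z, hz, hcorr⟩ := (rop_iff.1 h3).exists_cyc (p := 2 * b) (by push_cast; omega)
  set P : Module.End W.K (W.H X) :=
    Lam ^ (X.dim - 2 * b) * proj (W.isInternal X) (2 * X.dim - 2 * b) with hP
  have hLmem : ∀ x ∈ W.gr X (2 * b),
      ((LinearMap.mulLeft W.K (W.cl X D)) ^ (X.dim - 2 * b)) x ∈
        W.gr X (2 * X.dim - 2 * b) := by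
    intro x hx
    have := pow_L_mem hLh hx (X.dim - 2 * b)
    rwa [show 2 * b + 2 * (X.dim - 2 * b) = 2 * X.dim - 2 * b by omega] at this
  have hLL : ∀ x ∈ W.gr X (2 * b), (Lam ^ (X.dim - 2 * b))
      (((LinearMap.mulLeft W.K (W.cl X D)) ^ (X.dim - 2 * b)) x) = x := by
    intro x hx
    exact lam_pow_L_pow hLh W_hbd hHL hLam (Nat.sub_le _ _)
      (by rwa [show X.dim - (X.dim - 2 * b) = 2 * b by omega])
  have hPinv : ∀ x ∈ W.gr X (2 * b),
      P (((LinearMap.mulLeft W.K (W.cl X D)) ^ (X.dim - 2 * b)) x) = x := by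
    intro x hx
    rw [hP, Module.End.mul_apply, proj_same _ (hLmem x hx), hLL x hx]
  have hPim : ∀ y, P y ∈ W.gr X (2 * b) := by
    intro y
    rw [hP, Module.End.mul_apply]
    obtain ⟨a, ha, h5⟩ := (hHL (2 * b) hb).2 (proj (W.isInternal X) (2 * X.dim - 2 * b) y)
      (proj_mem _ _ _)
    rw [← h5, hLL a ha]
    exact ha
  have hP0 : ∀ l, l ≠ 2 * (X.dim - b) → ∀ y ∈ W.gr X l, P y = 0 := by
    intro l hl y hy
    rw [hP, Module.End.mul_apply, proj_ne _ hy (by omega), map_zero]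
  -- eigenvectors
  obtain ⟨B, hBs⟩ : (W.gr X (2 * b)).FG := IsNoetherian.noetherian _
  obtain ⟨T, hTS, hBT⟩ := exists_finset_span
    (s := cycleClasses W X ∪ twists Φ X b e α) (B := B) (by
      intro x hx
      exact hspan (hBs ▸ Submodule.subset_span hx))
  have hgrT : W.gr X (2 * b) ≤ Submodule.span W.K (T : Set (W.H X)) := by
    rw [← hBs, Submodule.span_le]
    exact hBT
  obtain ⟨s₁, hs₁, hkind⟩ := kind_levels T hTS
  obtain ⟨s₂, hs₂, hvlev⟩ := twist_level hv
  obtain ⟨a, a', ha, ha', haa, hfc⟩ := frob_corr Φ hz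
  obtain rfl : a = a' := Nat.eq_of_mul_eq_mul_right (Φ.e_pos X) haa
  have hm : 0 < s₁ * s₂ * a := Nat.mul_pos (Nat.mul_pos hs₁ hs₂) ha
  obtain ⟨N, μ, hN, hμv, hμ⟩ := hvlev (s₁ * a) (Nat.mul_pos hs₁ ha)
  rw [show s₂ * (s₁ * a) = s₁ * s₂ * a by ring] at hμv hμ
  have hkm : ∀ x ∈ T, Kind Φ X b e α x (s₁ * s₂ * a) := by
    intro x hx
    have := hkind (s₂ * a) (Nat.mul_pos hs₂ ha) x hx
    rwa [← mul_assoc] at this
  have hfcm := hfc (s₁ * s₂)
  rw [show a * (s₁ * s₂) = s₁ * s₂ * a by ring, hcorr] at hfcm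
  set m := s₁ * s₂ * a with hmdef
  set Q : W.K := (card Φ X m : W.K) with hQ
  have hQ0 : Q ≠ 0 := card_ne Φ m
  have hex : ∀ x : W.H X, ∃ ν : W.K, x ∈ T → frob Φ X m x = ν • x := by
    intro x
    by_cases hx : x ∈ T
    · rcases hkm x hx with ⟨j, hj⟩ | ⟨τ, N', μ', -, -, hμ', -⟩
      · exact ⟨_, fun _ => hj⟩
      · exact ⟨_, fun _ => hμ'⟩
    · exact ⟨0, fun h => absurd h hx⟩
  choose nu hnu using hex
  obtain ⟨q, hqμ, hq0⟩ := exists_poly (T.image nu) μ
  set Tσ : Submodule W.K (W.H X) := Submodule.span W.K {x | IsTwist Φ X b e α σ x} with hTσ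
  have hqT : ∀ y ∈ W.gr X (2 * b), aeval (frob Φ X m) q y ∈ Tσ := by
    intro y hy
    have hy' := hgrT hy
    clear hy
    induction hy' using Submodule.span_induction with
    | mem x hx =>
      have hx : x ∈ T := hx
      rw [aeval_eig (hnu x hx)]
      by_cases hxμ : nu x = μ
      · apply Submodule.smul_mem
        by_cases hx0 : x = 0
        · rw [hx0]; exact Submodule.zero_mem _
        · exact Submodule.subset_span (twist_of_kind hpow hm hN hμ hx0 (hkm x hx)
            (by rw [← hxμ]; exact hnu x hx))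
      · rw [hq0 _ (Finset.mem_image_of_mem nu hx) hxμ, zero_smul]
        exact Submodule.zero_mem _
    | zero => rw [map_zero]; exact Submodule.zero_mem _
    | add x y _ _ hx hy => rw [map_add]; exact Submodule.add_mem _ hx hy
    | smul c x _ hx => rw [map_smul]; exact Submodule.smul_mem _ _ hx
  obtain ⟨r, hr, hrc⟩ := alg_comp_poly (W534.iter (Φ.Fr X) m) (cl_mem_algSpan hz) q
  have hrc' : ∀ y, W.corr r y = aeval (frob Φ X m) q (P y) := by
    intro y
    rw [hrc, hcorr]
    rfl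
  obtain ⟨w, hw, hrw, hwtr⟩ := rank_one (r := r) (i := b) (m := X.dim - b) hv.1 hv0 (by omega)
    (fun y => by
      rw [hrc']
      exact exists_line (hmult σ) hv hv0 (hqT _ (hPim y)))
    (fun l hl y hy => by rw [hrc', hP0 l hl y hy, map_zero])
  -- `w` is not zero
  have hw0 : w ≠ 0 := by
    rintro rfl
    have h5 := hwtr (((LinearMap.mulLeft W.K (W.cl X D)) ^ (X.dim - 2 * b)) v)
    rw [zero_mul, map_zero, zero_smul, hrc', hPinv v hv.1, aeval_eig hμv] at h5
    rcases smul_eq_zero.1 h5 with h6 | h6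
    · exact hqμ h6
    · exact hv0 h6
  -- the eigenvalue of `w`
  have hμ0 : μ ≠ 0 := by
    rintro rfl
    apply hv0
    apply map_iter_injective Φ m
    rw [map_zero]
    have : W.map (W534.iter (Φ.Fr X) m) v = (0 : W.K) • v := hμv
    rw [this, zero_smul]
  have hPG : ∀ y, P (frob Φ X m y) = Q ^ ((X.dim : ℤ) - 2 * b) • frob Φ X m (P y) := by
    intro y
    rw [hfcm y, smul_smul, ← zpow_add₀ hQ0, show (X.dim : ℤ) - 2 * b + (((2 * b : ℕ) : ℤ) -
      X.dim) = 0 by push_cast; ring, zpow_zero, one_smul]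
  have hcomm : ∀ y, aeval (frob Φ X m) q (frob Φ X m y) =
      frob Φ X m (aeval (frob Φ X m) q y) := by
    intro y
    have h5 : aeval (frob Φ X m) q * frob Φ X m = frob Φ X m * aeval (frob Φ X m) q :=
      aeval_comm _ q
    exact LinearMap.congr_fun h5 y
  have hwG : ∀ y, W.tr X (w * frob Φ X m y) =
      Q ^ ((X.dim : ℤ) - 2 * b) * μ * W.tr X (w * y) := by
    intro y
    have h5 : W.tr X (w * frob Φ X m y) • v =
        (Q ^ ((X.dim : ℤ) - 2 * b) * μ * W.tr X (w * y)) • v := by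
      rw [← hwtr, hrc', hPG, map_smul, hcomm, ← hrc', hwtr, map_smul, hμv, smul_smul, smul_smul]
      congr 1
      ring
    rw [← sub_eq_zero, ← sub_smul] at h5
    rcases smul_eq_zero.1 h5 with h6 | h6
    · exact sub_eq_zero.1 h6
    · exact absurd h6 hv0
  have hGw : frob Φ X m w = (Q ^ (2 * b) * μ⁻¹) • w := by
    rw [← sub_eq_zero]
    apply W.nondeg
    intro y
    obtain ⟨y, rfl⟩ := map_iter_surjective Φ m y
    rw [sub_mul, map_sub, sub_eq_zero, smul_mul_assoc, map_smul, smul_eq_mul]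
    have h5 : W.tr X (frob Φ X m w * W.map (W534.iter (Φ.Fr X) m) y) = Q ^ X.dim * W.tr X (w * y) := by
      change W.tr X (W.map _ w * W.map _ y) = _
      rw [← map_mul, tr_iter Φ, hQ, W534.card, Nat.cast_pow, ← pow_mul]
    have h6 : W.tr X (w * W.map (W534.iter (Φ.Fr X) m) y) =
      Q ^ ((X.dim : ℤ) - 2 * b) * μ * W.tr X (w * y) := hwG y
    rw [h5, h6, zpow_sub₀ hQ0, zpow_natCast]
    have h7 : Q ^ (2 * (b : ℤ)) = Q ^ (2 * b) := by
      rw [← zpow_natCast]; push_cast; rfl
    rw [h7]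
    field_simp
  have hwT : IsTwist Φ X b e α (cj σ) w := by
    refine ⟨hw, m, N, Q ^ (2 * b) * μ⁻¹, hm, hN, hGw, ?_⟩
    have h5 : (p : W.K) ^ (Φ.e X * m * (b * (e * N))) = Q ^ (b * (e * N)) := by
      rw [hQ, card_pow]
    rw [h5, cj_val hu, mul_pow, inv_pow, hμ, inv_pow, ← pow_mul]
    have h6 : σ α ≠ 0 := by
      rw [ne_eq, map_eq_zero]
      exact TH121.KT.alpha_ne hu
    have h7 : Q ^ (2 * b * (e * N)) = Q ^ (b * (e * N)) * Q ^ (b * (e * N)) := by
      rw [← pow_add]; congr 1; ring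
    rw [h7]
    field_simp
  obtain ⟨t, ht⟩ := exists_line (hmult (cj σ)) hwT hw0 (Submodule.subset_span hu')
  apply ext_swap hu'.1
  have h5 : ext W u v = t • ext W w v := by
    rw [ht, H281R3.HT.ext, H281R3.HT.ext, map_smul, smul_mul_assoc]
  rw [h5, ← hrw]
  exact Submodule.smul_mem _ _ hr

end main

end Pool.Agent.Y103.Hk
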