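import Pool.Agent.Y138.KC.Link
import Pool.Agent.Y138.KC.Final

/-!
# The relations between the conjugates of a Frobenius number of K3 type, odd local degree
-/

set_option autoImplicit false
set_option linter.unusedSectionVars false

namespace Pool.Agent.Y103.Hk

open NumberField Module Pool.Agent.W517.K3 Pool.Agent.H485R3 Pool.Agent.TH121.KT
  Pool.Agent.Y138.KC

/-- The numerical condition. -/
def GoodHk (d m n : ℕ) : Prop :=
  d ≤ 11 ∧ ((n ≤ 3 ∧ (d, m) ∉ exceptionalPairs) ∨ (Odd m ∧ (d, m) ∉ exceptionalOddPairs) ∨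
    (d.Prime ∧ n < d))

section comb

open Finset

variable {G X : Type*} [Group G] [Finite G] [MulAction G X] [Fintype X] [DecidableEq X]
  {c : X → X} {v : X → ℤ} (hS : Sgn G c v)
include hS

/-- **There are no relations for odd local degrees outside the exceptional cases.** -/
theorem zero_odd' {d m : ℕ} (hX : Fintype.card X = 2 * d) (hm : (Lv v 1).card = m)
    (hodd : Odd m) (hd : d ≤ 11) (hex : (d, m) ∉ exceptionalOddPairs) {n : X → ℤ}
    (hn : Rel G c v n) : n = fun _ => 0 := by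
  by_cases h11 : d = 11
  · subst h11
    by_contra hn0
    have h4 := even_of_csum hS hn hn0 fun x => core hS hX (m := m) hm
      (Or.inr (Or.inl (by norm_num))) hn hn0 x
    rw [hm] at h4
    exact (Nat.not_even_iff_odd.2 hodd) h4
  · exact zero_odd hS hX hm hodd (by omega) hex hn

/-- twice an odd prime number of points: the relations have constant absolute value -/
theorem abs_prime {ℓ : ℕ} (hℓ : ℓ.Prime) (hodd : ℓ ≠ 2)
    (hX : Fintype.card X = 2 * ℓ) {n : X → ℤ} (hn : Rel G c v n) : ∃ t : ℤ, ∀ x, |n x| = t := by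
  have : Fact ℓ.Prime := ⟨hℓ⟩
  have ho : Odd ℓ := hℓ.odd_of_ne_two hodd
  obtain ⟨a, ha⟩ := hS.ex
  obtain ⟨δ, -, hδa, k, hk⟩ := exists_cycle (⊤ : Subgroup G) ℓ a (by
    have h1 : MulAction.orbit (⊤ : Subgroup G) a = Set.univ := by
      ext y
      simp only [Set.mem_univ, iff_true]
      obtain ⟨g, hg⟩ := hS.trans a y
      exact ⟨⟨g, Subgroup.mem_top g⟩, hg⟩
    rw [h1, Nat.card_congr (Equiv.Set.univ X), Nat.card_eq_fintype_card, hX]
    exact Dvd.intro_left 2 rfl)
  obtain ⟨j, hj⟩ := period_pow hℓ hk a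
  have hj0 : j ≠ 0 := by
    intro h
    rw [h, pow_zero] at hj
    apply hδa
    have := MulAction.pow_period_smul δ a
    rwa [hj, pow_one] at this
  have hodd' : Odd (MulAction.period δ a) := by
    rw [hj]
    exact ho.pow
  have hdis := cycle_disj hS.cc hS.cg (c_ne hS) δ a hodd'
  obtain ⟨h1, h2⟩ := two_period_le hS.cc δ a hdis univ (fun _ => mem_univ _) (fun _ => mem_univ _)
  rw [Finset.card_univ, hX] at h1 h2
  have h3 : MulAction.period δ a = ℓ := by
    have h4 : ℓ ≤ ℓ ^ j := Nat.le_self_pow hj0 ℓ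
    omega
  rw [h3] at h2
  have hall := h2 rfl
  have hcyc : ∀ i : ℕ, n (δ ^ i • a) = n a := by
    intro i
    refine cycle_lemma hS hℓ δ a ?_ ?_ hdis ?_ hn i
    · have := MulAction.pow_period_smul δ a
      rwa [h3] at this
    · have := period_inj δ a
      rwa [h3] at this
    · intro y hy
      exfalso
      obtain ⟨i, hi, h | h⟩ := hall y (mem_univ y)
      · exact (hy i hi).1 h
      · exact (hy i hi).2 h
  refine ⟨|n a|, fun x => ?_⟩
  obtain ⟨i, -, rfl | rfl⟩ := hall x (mem_univ x)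
  · rw [hcyc]
  · rw [hn.1, hcyc, abs_neg]

/-- the relation of the differences -/
theorem rel_diff {N : X → ℕ} (h : ∀ g : G, ∑ x, (N x : ℤ) * v (g • x) = 0) :
    Rel G c v fun x => (N x : ℤ) - N (c x) := by
  refine ⟨fun x => ?_, fun g => ?_⟩
  · change (N (c x) : ℤ) - N (c (c x)) = -((N x : ℤ) - N (c x))
    rw [hS.cc]
    ring
  · have h6 : ∑ x, (N (c x) : ℤ) * v (g • x) = - ∑ x, (N x : ℤ) * v (g • x) := by
      rw [← Finset.sum_neg_distrib]
      refine Fintype.sum_equiv ⟨c, c, hS.cc, hS.cc⟩ _ _ fun x => ?_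
      change _ = -((N (c x) : ℤ) * v (g • c x))
      rw [← hS.cg, hS.odd]
      ring
    simp only [sub_mul, Finset.sum_sub_distrib]
    rw [h6, h g]
    ring

/-- sums of fewer than `d` terms for prime `d` -/
theorem balanced_prime {ℓ : ℕ} (hℓ : ℓ.Prime) (hodd : ℓ ≠ 2) (hX : Fintype.card X = 2 * ℓ)
    {N : X → ℕ} (hN : ∑ x, N x < ℓ) (h : ∀ g : G, ∑ x, (N x : ℤ) * v (g • x) = 0) (x : X) :
    N x = N (c x) := by
  obtain ⟨t, ht⟩ := abs_prime hS hℓ hodd hX (rel_diff hS h)
  have h1 : ∑ x : X, |(N x : ℤ) - N (c x)| = 2 * ℓ * t := by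
    rw [Finset.sum_congr rfl fun x _ => ht x, Finset.sum_const, Finset.card_univ, hX, nsmul_eq_mul]
    push_cast
    ring
  have h2 : ∑ x : X, |(N x : ℤ) - N (c x)| ≤ 2 * ∑ x, (N x : ℤ) := by
    have h3 : ∑ x, (N (c x) : ℤ) = ∑ x, (N x : ℤ) :=
      Fintype.sum_equiv ⟨c, c, hS.cc, hS.cc⟩ _ _ fun x => rfl
    calc ∑ x : X, |(N x : ℤ) - N (c x)| ≤ ∑ x : X, ((N x : ℤ) + N (c x)) := by
          refine Finset.sum_le_sum fun x _ => ?_
          rw [abs_le]
          constructor <;> omega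
      _ = 2 * ∑ x, (N x : ℤ) := by rw [Finset.sum_add_distrib, h3]; ring
  have h3 : (∑ x, (N x : ℤ)) < ℓ := by exact_mod_cast hN
  have ht0 : 0 ≤ t := by rw [← ht x]; exact abs_nonneg _
  have ht1 : t = 0 := by
    by_contra h0
    have : 1 ≤ t := by omega
    have h4 : (2 * ℓ : ℤ) * 1 ≤ 2 * ℓ * t := mul_le_mul_of_nonneg_left this (by positivity)
    linarith
  have h4 := ht x
  rw [ht1, abs_eq_zero, sub_eq_zero] at h4
  exact_mod_cast h4

/-- **The relations are trivial.** -/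
theorem balanced_comb {d m n : ℕ} (hX : Fintype.card X = 2 * d) (hm : (Lv v 1).card = m)
    (hgood : GoodHk d m n) {N : X → ℕ} (hN : ∑ x, N x ≤ n)
    (h : ∀ g : G, ∑ x, (N x : ℤ) * v (g • x) = 0) (x : X) : N x = N (c x) := by
  obtain ⟨hd, ⟨hn, hex⟩ | ⟨hodd, hex⟩ | ⟨hp, hnd⟩⟩ := hgood
  · by_cases h11 : d = 11
    · subst h11
      exact balanced_prime hS (by norm_num) (by norm_num) hX (by omega) h x
    · exact balanced_small hS (fun a b e => no_tri hS hX hm (by omega) hex) N (hN.trans hn) h x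
  · have h5 := congrFun (zero_odd' hS hX hm hodd hd hex (rel_diff hS h)) x
    have h6 : (N x : ℤ) - N (c x) = 0 := h5
    omega
  · by_cases h2 : d = 2
    · subst h2
      refine balanced_small hS (fun a b e => no_tri hS hX hm (by omega) ?_) N (by omega) h x
      intro hmem
      simp [exceptionalPairs] at hmem
    · exact balanced_prime hS hp h2 hX (lt_of_le_of_lt hN hnd) h x

end comb

section emb

variable {p a : ℕ} [Fact p.Prime] {E : Type} [Field E] [NumberField E] [IsCMField E] {α : E}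

open Classical in
/-- **The relations between the conjugates of `α` are trivial.** -/
theorem balanced_emb' (hα : IsK3Frobenius p a α) {d m n : ℕ} (hd : finrank ℚ E = 2 * d)
    (hm : localDegree p α = m) (hgood : GoodHk d m n) (ι : Qb →+* PadicAlgCl p)
    (N : (E →+* Qb) → ℕ) (hN : ∑ σ, N σ ≤ n)
    (h : ∀ g : GQ, ∑ σ : E →+* Qb, (N σ : ℝ) * Real.log ‖ι (g (σ α))‖ = 0) (σ₀ : E →+* Qb) :
    N σ₀ = N (cj σ₀) := by
  obtain ⟨L, iF, iA, iFin, iGal, hlift'⟩ := Exact.exists_common' (fun _ : Unit => E)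
  have hlift : ∀ {Ω' : Type} [Field Ω'] [Algebra ℚ Ω'] (e : L →ₐ[ℚ] Ω') (σ : E →ₐ[ℚ] Ω'),
      ∃ σ' : E →ₐ[ℚ] L, e.comp σ' = σ := fun e σ => hlift' e () σ
  let j : L →ₐ[ℚ] Qb := IsAlgClosed.lift
  let e : L →ₐ[ℚ] PadicAlgCl p := RingHom.toRatAlgHom (ι.comp (j : L →+* Qb))
  have he : ∀ x, e x = ι (j x) := fun x => rfl
  obtain ⟨φ₀, -⟩ := hlift j (RingHom.toRatAlgHom σ₀)
  have hS := sgn_embeddings hα e φ₀
  obtain ⟨P, hP, hPn⟩ := exists_abs hα e φ₀
  -- embeddings
  let T : (E →ₐ[ℚ] L) → (E →+* Qb) := fun φ => (j : L →+* Qb).comp (φ : E →+* L)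
  have hT : Function.Bijective T := by
    constructor
    · intro φ φ' h
      ext x
      apply j.toRingHom.injective
      exact RingHom.congr_fun h x
    · intro σ
      obtain ⟨φ, hφ⟩ := hlift j (RingHom.toRatAlgHom σ)
      refine ⟨φ, ?_⟩
      ext x
      exact AlgHom.congr_fun hφ x
  let T' : (E →ₐ[ℚ] L) → (E →+* PadicAlgCl p) :=
    fun φ => (e : L →+* PadicAlgCl p).comp (φ : E →+* L)
  have hT' : Function.Bijective T' := by
    constructor
    · intro φ φ' h
      ext x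
      apply e.toRingHom.injective
      exact RingHom.congr_fun h x
    · intro σ
      obtain ⟨φ, hφ⟩ := hlift e (RingHom.toRatAlgHom σ)
      refine ⟨φ, ?_⟩
      ext x
      exact AlgHom.congr_fun hφ x
  have hcardX : Fintype.card (E →ₐ[ℚ] L) = 2 * d := by
    rw [Fintype.card_of_bijective hT', Embeddings.card, hd]
  have hcardS : (Lv (vv α e) 1).card = m := by
    rw [← hm]
    unfold localDegree
    have h1 : Nat.card {φ : E →ₐ[ℚ] L // vv α e φ = 1} = (Lv (vv α e) 1).card := by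
      rw [Nat.card_eq_fintype_card, Fintype.card_subtype]
      rfl
    rw [← h1]
    refine Nat.card_congr (Equiv.subtypeEquiv (Equiv.ofBijective T' hT') fun φ => ?_)
    rw [vv_eq_one_iff]
    rfl
  -- the relation
  have hrel : ∀ g : L ≃ₐ[ℚ] L, ∑ φ : E →ₐ[ℚ] L, (N (T φ) : ℤ) * vv α e (g • φ) = 0 := by
    intro g
    have hNF : NumberField L := by
      refine @NumberField.mk L _ ?_ ?_
      · exact charZero_of_injective_algebraMap (algebraMap ℚ L).injective
      · convert iFin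
        exact Subsingleton.elim _ _
    obtain ⟨g', hg'⟩ := exists_act_eq (K := L) (j : L →+* Qb)
      ((j : L →+* Qb).comp (g : L →+* L))
    have hg'' : ∀ x, g' (j x) = j (g x) := fun x => RingHom.congr_fun hg' x
    have h1 := h g'
    rw [← Equiv.sum_comp (Equiv.ofBijective T hT)] at h1
    have h2 : ∀ φ : E →ₐ[ℚ] L, (N (T φ) : ℝ) * Real.log ‖ι (g' (T φ α))‖ =
        ((N (T φ) : ℤ) * vv α e (g • φ) : ℤ) * Real.log P := by
      intro φ
      have h3 : ‖ι (g' (T φ α))‖ = P ^ (vv α e (g • φ)) := by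
        rw [← hPn (g • φ), he, W517.K3.smul_apply]
        change ‖ι (g' (j (φ α)))‖ = _
        rw [hg'']
      rw [h3, Real.log_zpow]
      push_cast
      ring
    have h3 : ∑ φ : E →ₐ[ℚ] L, (((N (T φ) : ℤ) * vv α e (g • φ) : ℤ) : ℝ) * Real.log P = 0 := by
      rw [← h1]
      exact Finset.sum_congr rfl fun φ _ => (h2 φ).symm
    rw [← Finset.sum_mul, ← Int.cast_sum] at h3
    have h4 : Real.log P ≠ 0 := (Real.log_pos hP).ne'
    exact_mod_cast (mul_eq_zero.1 h3).resolve_right h4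
  have hsum : ∑ φ : E →ₐ[ℚ] L, N (T φ) ≤ n := by
    refine le_trans (le_of_eq ?_) hN
    exact Equiv.sum_comp (Equiv.ofBijective T hT) N
  have hTbar : ∀ φ, T (bar φ) = cj (T φ) := fun φ => rfl
  obtain ⟨φ, rfl⟩ := hT.2 σ₀
  rw [← hTbar]
  exact balanced_comb hS hcardX hcardS hgood (N := fun φ => N (T φ)) hsum hrel φ

variable {ι : Qb →+* PadicAlgCl p}

theorem zeroProp_good (hα : IsK3Frobenius p a α) {d m n : ℕ} (hd : finrank ℚ E = 2 * d)
    (hm : localDegree p α = m) (hgood : GoodHk d m n)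
    {T : IntermediateField ℚ Qb} (hT : IsIndependentField E T) : ZeroProp ι α T n := by
  refine ⟨hα.unitary, fun N hN hinv σ => ?_⟩
  obtain ⟨h, hhT, hhE⟩ := hT
  have hF : ∀ g : GQ, FF ι α N g = 0 := by
    intro g
    have h1 := hinv h hhT g
    have h2 : FF ι α N (h * g) = - FF ι α N g := by
      unfold FF
      rw [← Finset.sum_neg_distrib]
      refine Finset.sum_congr rfl fun σ _ => ?_
      have h3 : ‖ι ((h * g) (σ α))‖ = ‖ι (g (σ α))‖⁻¹ := by
        have h4 : (h * g) (σ α) = cj (act g σ) α := hhE (act g σ) α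
        rw [h4]
        exact cj_norm (ι := ι) hα.unitary (act g σ)
      rw [h3, Real.log_inv]
      ring
    linarith
  have h1 := balanced_emb' hα hd hm hgood ι N hN hF σ
  unfold TH121.KT.odd
  omega

end emb

end Pool.Agent.Y103.Hk
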