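import Pool.Agent.Y103.Hk.Times
import Pool.Agent.Y103.Hk.Pair
import Pool.Agent.Y103.Hk.Rel

/-!
# Closure properties; the Tate conjecture for the square; the cycle map
-/

set_option autoImplicit false
set_option linter.unusedSectionVars false

open CategoryTheory AlgebraicGeometry NumberField
open scoped TensorProduct

universe u v

namespace Pool.Agent.Y103.Hk

open Pool.Agent.H914 Pool.Agent.H914.VarClass Pool.Agent.H914.VarClass.Obj
  Pool.Agent.H914.WeilCohomology Pool.Agent.H281R3.HT Pool.Agent.W552 Pool.Agent.W534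
  Pool.Agent.W458.RK Pool.Agent.W458.MF Pool.Agent.TH132.A Pool.Agent.W536.RR
  Pool.Agent.TH121.KT Pool.Agent.Y138.KC

variable {k : Type u} [Field k] {𝒱 : VarClass k} {ops : CycleOps 𝒱}
  {W : WeilCohomology.{u, v} ops} {X Y Z : 𝒱.Obj} {p : ℕ} {Φ : FrobSystem W p} {b e : ℕ}
  {E : Type} [Field E] {α : E}

/-- the set of words -/
abbrev RawWords (Φ : FrobSystem W p) (X : 𝒱.Obj) (b e : ℕ) (α : E) (n : ℕ) (Z : 𝒱.Obj) :
    Set (W.H Z) :=
  {a | ∃ (l : List (W.H Z)) (c : W.H Z), l.length ≤ n ∧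
    (∀ y ∈ l, y ∈ twistImages Φ X b e α Z) ∧ c ∈ cycleClasses W Z ∧ a = l.prod * c}

lemma raw_mono {n m : ℕ} (h : n ≤ m) : RawWords Φ X b e α n Z ⊆ RawWords Φ X b e α m Z := by
  rintro a ⟨l, c, hl, h1, h2, h3⟩
  exact ⟨l, c, hl.trans h, h1, h2, h3⟩

lemma twist_pull (f : Y ⟶ Z) {y : W.H Z} (hy : y ∈ twistImages Φ X b e α Z) :
    W.map f y ∈ twistImages Φ X b e α Y := by
  obtain ⟨_, ⟨j, z, hz, rfl⟩, x, hx, rfl⟩ := hy
  have h1 : QOp W X Z ((j : ℤ) - X.dim) (W.corr (W.cl _ z)) := QOp.gen (by ring) hz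
  obtain ⟨w, hw, h2⟩ := (QOp.comp (qop_pull (W := W) f) h1).exists_cyc (p := j) (by ring)
  refine ⟨_, ⟨j, w, hw, rfl⟩, x, hx, ?_⟩
  rw [h2]
  rfl

lemma cycle_pull (f : Y ⟶ Z) {y : W.H Z} (hy : y ∈ cycleClasses W Z) :
    W.map f y ∈ cycleClasses W Y := by
  obtain ⟨j, z, hz, rfl⟩ := hy
  exact ⟨j, ops.pull f z, ops.pull_mem f hz, (W.cl_pull f z).symm⟩

lemma cycle_mul {x y : W.H Z} (hx : x ∈ cycleClasses W Z) (hy : y ∈ cycleClasses W Z) :
    x * y ∈ cycleClasses W Z := by
  obtain ⟨j, z, hz, rfl⟩ := hx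
  obtain ⟨j', z', hz', rfl⟩ := hy
  exact ⟨j + j', ops.mul z z', ops.mul_mem hz hz', (W.cl_mul z z').symm⟩

lemma cycle_comm {x : W.H Z} (hx : x ∈ cycleClasses W Z) (u : W.H Z) : x * u = u * x := by
  obtain ⟨j, z, hz, rfl⟩ := hx
  exact algSpan_comm (cl_mem_algSpan hz) u

lemma cycle_one : (1 : W.H Z) ∈ cycleClasses W Z :=
  ⟨0, Z.V.fundCycle, Z.V.fundCycle_mem, (W.cl_fund Z).symm⟩

lemma raw_pull (f : Y ⟶ Z) {n : ℕ} {a : W.H Z} (ha : a ∈ RawWords Φ X b e α n Z) :
    W.map f a ∈ RawWords Φ X b e α n Y := by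
  obtain ⟨l, c, hl, h1, h2, rfl⟩ := ha
  refine ⟨l.map (W.map f), W.map f c, by rw [List.length_map]; exact hl, ?_, cycle_pull f h2, ?_⟩
  · intro y hy
    obtain ⟨y', hy', rfl⟩ := List.mem_map.1 hy
    exact twist_pull f (h1 y' hy')
  · rw [map_mul, map_list_prod]

lemma raw_mul {n n' : ℕ} {a a' : W.H Z} (ha : a ∈ RawWords Φ X b e α n Z)
    (ha' : a' ∈ RawWords Φ X b e α n' Z) : a * a' ∈ RawWords Φ X b e α (n + n') Z := by
  obtain ⟨l, c, hl, h1, h2, rfl⟩ := ha
  obtain ⟨l', c', hl', h1', h2', rfl⟩ := ha'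
  refine ⟨l ++ l', c * c', ?_, ?_, cycle_mul h2 h2', ?_⟩
  · rw [List.length_append]
    omega
  · intro y hy
    rcases List.mem_append.1 hy with hy | hy
    · exact h1 y hy
    · exact h1' y hy
  · rw [List.prod_append, mul_assoc, ← mul_assoc c, cycle_comm h2 l'.prod]
    simp only [mul_assoc]

lemma span_mul' {S T U : Set (W.H Z)} (h : ∀ a ∈ S, ∀ b ∈ T, a * b ∈ U) {x y : W.H Z}
    (hx : x ∈ Submodule.span W.K S) (hy : y ∈ Submodule.span W.K T) :
    x * y ∈ Submodule.span W.K U := by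
  have h1 := Submodule.mul_mem_mul hx hy
  rw [Submodule.span_mul_span] at h1
  refine Submodule.span_mono ?_ h1
  rintro _ ⟨a, ha, b, hb, rfl⟩
  exact h a ha b hb

/-- **Products.** -/
theorem built_prod {n n' : ℕ} (hY : IsBuiltFrom Φ X b e α n Y) (hZ : IsBuiltFrom Φ X b e α n' Z) :
    IsBuiltFrom Φ X b e α (n + n') (Y.prod Z) := by
  have hpull : ∀ {V U : 𝒱.Obj} (f : V ⟶ U) {n : ℕ}, IsBuiltFrom Φ X b e α n U → ∀ y : W.H U,
      W.map f y ∈ Submodule.span W.K (RawWords Φ X b e α n V) := by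
    intro V U f n hU y
    have hy : y ∈ Submodule.span W.K (RawWords Φ X b e α n U) := by
      rw [show Submodule.span W.K (RawWords Φ X b e α n U) = ⊤ from hU]
      exact Submodule.mem_top
    have h1 := Submodule.mem_map_of_mem (f := (W.map f).toLinearMap) hy
    rw [Submodule.map_span] at h1
    refine Submodule.span_mono ?_ h1
    rintro _ ⟨a, ha, rfl⟩
    exact raw_pull f ha
  change Submodule.span W.K (RawWords Φ X b e α (n + n') (Y.prod Z)) = ⊤
  rw [eq_top_iff]
  intro w _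
  obtain ⟨x, rfl⟩ := (W.kunneth Y Z).2 w
  induction x using TensorProduct.induction_on with
  | zero => rw [map_zero]; exact Submodule.zero_mem _
  | add x y hx hy => rw [map_add]; exact Submodule.add_mem _ (hx trivial) (hy trivial)
  | tmul x y =>
    exact span_mul' (fun a ha b hb => raw_mul ha hb) (hpull (fst Y Z) hY x) (hpull (snd Y Z) hZ y)

/-- **Generation as an algebra.** -/
theorem built_of_adjoin
    (h : Generates W.K (cycleClasses W Z ∪ twistImages Φ X b e α Z)) :
    ∃ n, IsBuiltFrom Φ X b e α n Z := by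
  unfold Generates at h
  have hall : ∀ z : W.H Z, ∃ n, z ∈ Submodule.span W.K (RawWords Φ X b e α n Z) := by
    intro z
    have hz : z ∈ Algebra.adjoin W.K (cycleClasses W Z ∪ twistImages Φ X b e α Z) := by
      rw [h]
      exact Algebra.mem_top
    induction hz using Algebra.adjoin_induction with
    | mem v hv =>
      rcases hv with hv | hv
      · exact ⟨0, Submodule.subset_span ⟨[], v, le_rfl, by simp, hv, by simp⟩⟩
      · exact ⟨1, Submodule.subset_span ⟨[v], 1, le_rfl, by simpa using hv, cycle_one, by simp⟩⟩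
    | algebraMap r =>
      refine ⟨0, ?_⟩
      rw [Algebra.algebraMap_eq_smul_one]
      exact Submodule.smul_mem _ _ (Submodule.subset_span
        ⟨[], 1, le_rfl, by simp, cycle_one, by simp⟩)
    | add x y _ _ hx hy =>
      obtain ⟨n, hn⟩ := hx
      obtain ⟨m, hm⟩ := hy
      exact ⟨max n m, Submodule.add_mem _ (Submodule.span_mono (raw_mono (le_max_left _ _)) hn)
        (Submodule.span_mono (raw_mono (le_max_right _ _)) hm)⟩
    | mul x y _ _ hx hy =>
      obtain ⟨n, hn⟩ := hx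
      obtain ⟨m, hm⟩ := hy
      exact ⟨n + m, span_mul' (fun a ha b hb => raw_mul ha hb) hn hm⟩
  obtain ⟨B, hB⟩ : (⊤ : Submodule W.K (W.H Z)).FG := Module.finite_def.1 inferInstance
  choose N hN using hall
  refine ⟨B.sup N, ?_⟩
  change Submodule.span W.K (RawWords Φ X b e α (B.sup N) Z) = ⊤
  rw [eq_top_iff, ← hB, Submodule.span_le]
  intro z hz
  exact Submodule.span_mono (raw_mono (Finset.le_sup hz)) (hN z)

/-- **The variety itself.** -/
theorem built_self (h : Spans W.K (cycleClasses W X ∪ twists Φ X b e α)) :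
    IsBuiltFrom Φ X b e α 1 X := by
  change Submodule.span W.K (RawWords Φ X b e α 1 X) = ⊤
  unfold Spans at h
  rw [eq_top_iff, ← h, Submodule.span_le]
  rintro x (hx | ⟨σ, hx⟩)
  · exact Submodule.subset_span ⟨[], x, Nat.zero_le _, by simp, hx, by simp⟩
  · refine Submodule.subset_span ⟨[x], 1, le_rfl, ?_, cycle_one, by simp⟩
    intro y hy
    rw [List.mem_singleton] at hy
    subst hy
    obtain ⟨w, hw, h2⟩ := (qop_pull (W := W) (𝟙 X)).exists_cyc (p := X.dim) (by ring)
    refine ⟨_, ⟨X.dim, w, hw, rfl⟩, y, ⟨σ, hx⟩, ?_⟩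
    rw [h2]
    exact (W.map_id X y).symm

/-- the cycle class map is injective after the extension of scalars -/
theorem injective_of_homEqNum (h : HomEqNum W Z) : InjectiveCycleMap W Z := by
  classical
  intro j m x hx hind
  choose z hz hxz using hx
  obtain rfl : x = fun i => W.cl Z (z i) := funext hxz
  rw [Fintype.linearIndependent_iff]
  intro g hg i
  let B := Module.Basis.ofVectorSpace ℚ W.K
  by_contra hne
  obtain ⟨β, hβ⟩ : ∃ β, B.repr (g i) β ≠ 0 := by
    by_contra hcon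
    push Not at hcon
    apply hne
    apply B.repr.injective
    rw [map_zero]
    ext β
    exact hcon β
  let q : Fin m → ℚ := fun i => B.repr (g i) β
  apply hβ
  change q i = 0
  have hq : W.cl Z (∑ i, q i • z i) = 0 := by
    have hcyc : Z.IsCyc j (∑ i, q i • z i) := by
      have h1 : ∀ s : Finset (Fin m), Z.IsCyc j (∑ i ∈ s, q i • z i) := by
        intro s
        induction s using Finset.induction_on with
        | empty => rw [Finset.sum_empty]; exact SmVar.IsCyc.zero _ _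
        | insert a s ha ih =>
          rw [Finset.sum_insert ha]
          exact ((hz a).smul (q a)).add ih
      exact h1 _
    by_cases hj : j ≤ Z.dim
    · refine h j hj _ hcyc fun w hw => ?_
      have hdim : ∀ x : Z.Cycles, Z.IsCyc j x → Z.IsCyc Z.dim (ops.mul x w) := by
        intro x hx
        have h1 := ops.mul_mem hx hw
        rwa [show j + (Z.dim - j) = Z.dim by omega] at h1
      have h1 : ∑ i, g i * (Z.V.degCycle (ops.mul (z i) w) : W.K) = 0 := by
        have h2 := congrArg (fun a => W.tr Z (a * W.cl Z w)) hg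
        simp only [zero_mul, map_zero, Finset.sum_mul, map_sum, smul_mul_assoc, map_smul,
          smul_eq_mul] at h2
        rw [← h2]
        refine Finset.sum_congr rfl fun i _ => ?_
        rw [← W.cl_mul, W.tr_cl (hdim _ (hz i))]
      have h3 : ∑ i, q i * Z.V.degCycle (ops.mul (z i) w) = 0 := by
        have h4 := congrArg (fun a => B.repr a β) h1
        simp only [map_zero, Finsupp.coe_zero, Pi.zero_apply, map_sum, Finsupp.coe_finsetSum,
          Finset.sum_apply] at h4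
        rw [← h4]
        refine Finset.sum_congr rfl fun i _ => ?_
        have h5 : g i * (Z.V.degCycle (ops.mul (z i) w) : W.K) =
            (Z.V.degCycle (ops.mul (z i) w)) • g i := by
          rw [Rat.smul_def, mul_comm]
        rw [h5, map_smul, Finsupp.smul_apply, smul_eq_mul, mul_comm]
      have h6 : (Z.V.degCycle (ops.mul (∑ i, q i • z i) w) : W.K) =
          ((∑ i, q i * Z.V.degCycle (ops.mul (z i) w) : ℚ) : W.K) := by
        rw [← W.tr_cl (hdim _ hcyc), W.cl_mul, map_sum, Finset.sum_mul, map_sum]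
        push_cast
        refine Finset.sum_congr rfl fun i _ => ?_
        rw [cl_smul, smul_mul_assoc, map_smul, smul_eq_mul, ← W.cl_mul, W.tr_cl (hdim _ (hz i))]
      rw [h3] at h6
      exact_mod_cast h6
    · have h1 := W.cl_mem hcyc
      rw [W.gr_eq_bot Z _ (by omega)] at h1
      exact (Submodule.mem_bot _).1 h1
  refine congrFun (hind q ?_) i
  rw [← hq, map_sum]
  refine Finset.sum_congr rfl fun i _ => ?_
  rw [cl_smul]

section tate

variable [NumberField E] [IsCMField E]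

/-- **The Tate conjecture for the square.** -/
theorem pairs_of_tate (hu : ∀ φ : E →+* ℂ, ‖φ α‖ = 1) (he : 0 < e)
    (h : TateIn Φ (X.prod X) (2 * b)) :
    PairsAlg Φ X b e α := by
  intro σ x y hx hy
  have hσ : σ α ≠ 0 := by
    rw [ne_eq, map_eq_zero]
    exact TH121.KT.alpha_ne hu
  obtain ⟨s₁, hs₁, h1⟩ := twist_level hx
  obtain ⟨s₂, hs₂, h2⟩ := twist_level hy
  obtain ⟨a₁, b₁, ha₁, hb₁, hab₁, hf1⟩ := frob_comm Φ (fst X X)
  obtain ⟨a₂, b₂, ha₂, hb₂, hab₂, hf2⟩ := frob_comm Φ (snd X X)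
  -- the level on `X`
  have hlev : b₁ * (a₂ * (s₁ * s₂)) = b₂ * (a₁ * (s₁ * s₂)) := by
    have h3 : b₁ * a₂ * Φ.e X = b₂ * a₁ * Φ.e X := by
      calc b₁ * a₂ * Φ.e X = a₂ * (b₁ * Φ.e X) := by ring
        _ = a₂ * (a₁ * Φ.e (X.prod X)) := by rw [hab₁]
        _ = a₁ * (a₂ * Φ.e (X.prod X)) := by ring
        _ = b₂ * a₁ * Φ.e X := by rw [hab₂]; ring
    have h4 := Nat.eq_of_mul_eq_mul_right (Φ.e_pos X) h3
    calc b₁ * (a₂ * (s₁ * s₂)) = b₁ * a₂ * (s₁ * s₂) := by ring
      _ = _ := by rw [h4]; ring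
  set M := b₁ * (a₂ * (s₁ * s₂)) with hM
  have hMpos : 0 < M := by positivity
  obtain ⟨N, μ, hN, hμ, hrel⟩ := h1 (b₁ * (a₂ * s₂)) (by positivity)
  obtain ⟨N', μ', hN', hμ', hrel'⟩ := h2 (b₁ * (a₂ * s₁)) (by positivity)
  rw [show s₁ * (b₁ * (a₂ * s₂)) = M by rw [hM]; ring] at hμ hrel
  rw [show s₂ * (b₁ * (a₂ * s₁)) = M by rw [hM]; ring] at hμ' hrel'
  set T := a₁ * a₂ * (s₁ * s₂) with hT
  have hTpos : 0 < T := by positivity
  have hTM : Φ.e (X.prod X) * T = Φ.e X * M := by
    calc Φ.e (X.prod X) * T = (a₁ * Φ.e (X.prod X)) * (a₂ * (s₁ * s₂)) := by rw [hT]; ring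
      _ = Φ.e X * M := by rw [hab₁, hM]; ring
  have hF : frob Φ (X.prod X) T (H281R3.HT.ext W x y) = (μ * μ') • H281R3.HT.ext W x y := by
    have h3 := hf1 (a₂ * (s₁ * s₂)) x
    have h4 := hf2 (a₁ * (s₁ * s₂)) y
    rw [show a₁ * (a₂ * (s₁ * s₂)) = T by rw [hT]; ring] at h3
    rw [show a₂ * (a₁ * (s₁ * s₂)) = T by rw [hT]; ring, ← hlev] at h4
    change W.map (W534.iter (Φ.Fr (X.prod X)) T) (W.map (fst X X) x * W.map (snd X X) y) = _
    rw [map_mul, h3, h4]
    change W.map (fst X X) (frob Φ X M x) * W.map (snd X X) (frob Φ X M y) = _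
    rw [hμ, hμ', map_smul, map_smul, smul_mul_smul_comm]
    rfl
  have hpow : (μ * μ') ^ (e * N * N') = (card Φ X M : W.K) ^ (2 * b * (e * N * N')) := by
    have h3 : μ ^ (e * N * N') = (card Φ X M : W.K) ^ (b * (e * N * N')) *
        σ α ^ (M * N * N') := by
      rw [pow_mul, hrel, mul_pow, ← pow_mul, ← pow_mul]
      congr 2
      ring
    have h4 : μ' ^ (e * N * N') = (card Φ X M : W.K) ^ (b * (e * N * N')) *
        (cj σ α) ^ (M * N * N') := by
      rw [show e * N * N' = e * N' * N by ring, pow_mul, hrel', mul_pow, ← pow_mul, ← pow_mul]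
      congr 2 <;> ring
    rw [mul_pow, h3, h4, cj_val hu, inv_pow]
    have h5 : σ α ^ (M * N * N') ≠ 0 := pow_ne_zero _ hσ
    have h6 : (card Φ X M : W.K) ^ (2 * b * (e * N * N')) =
        (card Φ X M : W.K) ^ (b * (e * N * N')) * (card Φ X M : W.K) ^ (b * (e * N * N')) := by
      rw [← pow_add]
      congr 1
      ring
    rw [h6]
    field_simp
  have hmem : H281R3.HT.ext W x y ∈ W.gr (X.prod X) (2 * (2 * b)) := by
    have h3 := W.mul_mem (W.map_mem (fst X X) hx.1) (W.map_mem (snd X X) hy.1)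
    rwa [show 2 * b + 2 * b = 2 * (2 * b) by ring] at h3
  have h3 := h (H281R3.HT.ext W x y) ⟨hmem, T * (e * N * N'), by positivity, ?_⟩
  · refine (Submodule.span_le.2 ?_ : spanCycles W _ _ ≤ algSpan W _) h3
    rintro _ ⟨_, _, z, hz, rfl⟩
    exact cl_mem_algSpan hz
  · have h4 : ∀ r, frob Φ (X.prod X) (T * r) (H281R3.HT.ext W x y) =
        (μ * μ') ^ r • H281R3.HT.ext W x y := by
      intro r
      rw [frob_mul_eq]
      induction r with
      | zero => rw [pow_zero, pow_zero, one_smul]; rfl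
      | succ r ih => rw [pow_succ', Module.End.mul_apply, ih, map_smul, hF, smul_smul, pow_succ]
    have h5 := h4 (e * N * N')
    rw [hpow, W534.card, Nat.cast_pow, ← pow_mul] at h5
    rw [frob_apply] at h5
    rw [h5]
    congr 2
    calc Φ.e X * M * (2 * b * (e * N * N')) = (Φ.e X * M) * (e * N * N') * (2 * b) := by ring
      _ = _ := by rw [← hTM]; ring

end tate

end Pool.Agent.Y103.Hk
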