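import Pool.Agent.Y138.KC.Defs
import Pool.Agent.H914R2.KDefs

/-!
# Varieties whose cohomology is built from one piece of K3 type: definitions
-/

set_option autoImplicit false

open CategoryTheory AlgebraicGeometry NumberField

universe u v

namespace Pool.Agent.Y103.Hk

open Pool.Agent.H914 Pool.Agent.H914.VarClass Pool.Agent.H914.VarClass.Obj
  Pool.Agent.H914.WeilCohomology Pool.Agent.H281R3.HT Pool.Agent.W534

/-- The element `x` of `V` is an eigenvector of some `F s`, with an eigenvalue `μ` which is, up to a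
root of unity, the `s`-th power of the product of `(p ^ r) ^ b` and of an `e`-th root of `β`: we have
`μ ^ (e N) = p ^ (r s b e N) β ^ (s N)` for some `N > 0`. -/
def IsEigen {K H : Type*} [Field K] [Ring H] [Algebra K H] (V : Submodule K H) (F : ℕ → H →ₐ[K] H)
    (p r b e : ℕ) (β : K) (x : H) : Prop :=
  x ∈ V ∧ ∃ (s N : ℕ) (μ : K), 0 < s ∧ 0 < N ∧ F s x = μ • x ∧
    μ ^ (e * N) = (p : K) ^ (r * s * (b * (e * N))) * β ^ (s * N)

/-- The class `x` in `H^{2 b}(X)` is an eigenvector of a power `F ^ s` of the Frobenius endomorphism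
`F` of `X` (over the field with `q = p ^ Φ.e X` elements), and the eigenvalue is, up to a root of
unity, the `s`-th power of the product of `q ^ b` and of an `e`-th root of `σ α`. -/
def IsTwist {k : Type u} [Field k] {𝒱 : VarClass k} {ops : CycleOps 𝒱}
    {W : WeilCohomology.{u, v} ops} {p : ℕ} (Φ : FrobSystem W p) (X : 𝒱.Obj) (b e : ℕ)
    {E : Type} [Field E] (α : E) (σ : E →+* W.K) (x : W.H X) : Prop :=
  IsEigen (W.gr X (2 * b)) (fun s => W.map (W534.iter (Φ.Fr X) s)) p (Φ.e X) b e (σ α) x

/-- The eigenvectors of `IsTwist` for all embeddings. -/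
def twists {k : Type u} [Field k] {𝒱 : VarClass k} {ops : CycleOps 𝒱}
    {W : WeilCohomology.{u, v} ops} {p : ℕ} (Φ : FrobSystem W p) (X : 𝒱.Obj) (b e : ℕ)
    {E : Type} [Field E] (α : E) : Set (W.H X) :=
  {x | ∃ σ, IsTwist Φ X b e α σ x}

/-- The classes of algebraic cycles on `Z`. -/
def cycleClasses {k : Type u} [Field k] {𝒱 : VarClass k} {ops : CycleOps 𝒱}
    (W : WeilCohomology.{u, v} ops) (Z : 𝒱.Obj) : Set (W.H Z) :=
  {a | ∃ j z, Z.IsCyc j z ∧ a = W.cl Z z}

/-- The images under algebraic correspondences from `X` to `Z` of the eigenvectors of `IsTwist`. -/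
def twistImages {k : Type u} [Field k] {𝒱 : VarClass k} {ops : CycleOps 𝒱}
    {W : WeilCohomology.{u, v} ops} {p : ℕ} (Φ : FrobSystem W p) (X : 𝒱.Obj) (b e : ℕ)
    {E : Type} [Field E] (α : E) (Z : 𝒱.Obj) : Set (W.H Z) :=
  {a | ∃ c ∈ cycleClasses W (X.prod Z), ∃ x ∈ twists Φ X b e α, a = W.corr c x}

/-- The algebra is spanned by the products of at most `n` elements of `S` and of an element of
`T`. -/
def SpannedByWords (K : Type*) {H : Type*} [Field K] [Ring H] [Algebra K H] (S T : Set H)
    (n : ℕ) : Prop :=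
  Submodule.span K {a | ∃ (l : List H) (c : H), l.length ≤ n ∧ (∀ y ∈ l, y ∈ S) ∧ c ∈ T ∧
    a = l.prod * c} = ⊤

/-- The variety `Z` is *built from `n` copies* of the piece of the cohomology of `X` given by `α`: the
cohomology of `Z` is spanned by the products of at most `n` images, under algebraic correspondences
from `X` to `Z`, of eigenvectors of the Frobenius endomorphism in `H^{2 b}(X)` with eigenvalues given
by the conjugates of `α`, and of a class of an algebraic cycle. -/
def IsBuiltFrom {k : Type u} [Field k] {𝒱 : VarClass k} {ops : CycleOps 𝒱}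
    {W : WeilCohomology.{u, v} ops} {p : ℕ} (Φ : FrobSystem W p) (X : 𝒱.Obj) (b e : ℕ)
    {E : Type} [Field E] (α : E) (n : ℕ) (Z : 𝒱.Obj) : Prop :=
  SpannedByWords W.K (twistImages Φ X b e α Z) (cycleClasses W Z) n

/-- The set generates the algebra. -/
def Generates (K : Type*) {H : Type*} [Field K] [Ring H] [Algebra K H] (S : Set H) : Prop :=
  Algebra.adjoin K S = ⊤

/-- The set spans the algebra as a vector space. -/
def Spans (K : Type*) {H : Type*} [Field K] [Ring H] [Algebra K H] (S : Set H) : Prop :=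
  Submodule.span K S = ⊤

/-- The subspace is contained in the span of the set. -/
def IsSpannedBy {K H : Type*} [Field K] [Ring H] [Algebra K H] (V : Submodule K H)
    (S : Set H) : Prop :=
  V ≤ Submodule.span K S

/-- The elements of `S` are multiples of each other. -/
def IsLine (K : Type*) {H : Type*} [Field K] [Ring H] [Algebra K H] (S : Set H) : Prop :=
  ∀ x ∈ S, ∀ y ∈ S, y ≠ 0 → ∃ t : K, x = t • y

/-- The cohomology in degree `2 b` is spanned by classes of cycles and by the eigenvectors with
eigenvalues given by the conjugates of `α`; they have multiplicity one, and `X` satisfies the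
Lefschetz standard conjecture for some divisor `D`. -/
def SimpleLefschetz {k : Type u} [Field k] {𝒱 : VarClass k} {ops : CycleOps 𝒱}
    {W : WeilCohomology.{u, v} ops} {p : ℕ} (Φ : FrobSystem W p) (X : 𝒱.Obj) (b e : ℕ)
    {E : Type} [Field E] (α : E) : Prop :=
  2 * b ≤ X.dim ∧ IsSpannedBy (W.gr X (2 * b)) (cycleClasses W X ∪ twists Φ X b e α) ∧
    (∀ σ, IsLine W.K {x | IsTwist Φ X b e α σ x}) ∧
    ∃ D, X.IsCyc 1 D ∧ HardLefschetz W X D ∧ LefschetzB W X D

/-- There is an algebraic cycle of codimension `i` on `Z` which is not homologically trivial. -/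
def HasCycle {k : Type u} [Field k] {𝒱 : VarClass k} {ops : CycleOps 𝒱}
    (W : WeilCohomology.{u, v} ops) (Z : 𝒱.Obj) (i : ℕ) : Prop :=
  ∃ x, Z.IsCyc i x ∧ W.cl Z x ≠ 0

/-- The eigenvalues of the Frobenius endomorphism of `U` on the cohomology are roots of a nonzero
rational polynomial whose slopes at the place `ι` are determined by the field `L`: the automorphisms
over `L` preserve the `p`-adic absolute values of its roots. -/
def SlopesIn {k : Type u} [Field k] {𝒱 : VarClass k} {ops : CycleOps 𝒱}
    {W : WeilCohomology.{u, v} ops} {p : ℕ} [Fact p.Prime] (Φ : FrobSystem W p)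
    (ι : AlgebraicClosure ℚ →+* PadicAlgCl p) (L : IntermediateField ℚ (AlgebraicClosure ℚ))
    (U : 𝒱.Obj) : Prop :=
  ∃ Q : Polynomial ℚ, Q ≠ 0 ∧
    (∀ h : AlgebraicClosure ℚ ≃ₐ[ℚ] AlgebraicClosure ℚ, (∀ x ∈ L, h x = x) →
      ∀ β : AlgebraicClosure ℚ, Polynomial.aeval β Q = 0 → ‖ι (h β)‖ = ‖ι β‖) ∧
    ∀ ν : W.K, Module.End.HasEigenvalue (W.map (Φ.Fr U)).toLinearMap ν → Polynomial.aeval ν Q = 0

/-- Elements of `S` which are linearly independent over the rational numbers are linearly
independent over `K`. -/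
def IndependenceExtends (K : Type*) {H : Type*} [Field K] [Ring H] [Algebra K H]
    (S : Set H) : Prop :=
  ∀ (m : ℕ) (x : Fin m → H), (∀ i, x i ∈ S) →
    (∀ q : Fin m → ℚ, ∑ i, (q i : K) • x i = 0 → q = 0) → LinearIndependent K x

/-- Cycle classes of codimension `j` on `Z` which are linearly independent over the rational numbers
are linearly independent over the coefficient field, for all `j`. (So the group of the classes of
the cycles of codimension `j` has finite rank, and its tensor product with the coefficient field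
injects into the cohomology.) -/
def InjectiveCycleMap {k : Type u} [Field k] {𝒱 : VarClass k} {ops : CycleOps 𝒱}
    (W : WeilCohomology.{u, v} ops) (Z : 𝒱.Obj) : Prop :=
  ∀ j : ℕ, IndependenceExtends W.K {c : W.H Z | ∃ z, Z.IsCyc j z ∧ c = W.cl Z z}

end Pool.Agent.Y103.Hk
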