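import Pool.Agent.Y103.Hk.Mix

/-!
# Conjugate embeddings over a Galois extension
-/

set_option autoImplicit false
set_option linter.unusedSectionVars false

namespace Pool.Agent.Y103.Hk

open NumberField Polynomial Module Pool.Agent.TH121.KT

variable {E : Type} [Field E] [NumberField E]

lemma stable_conj {L : IntermediateField ℚ Qb} (hL : IsStable L) {h : GQ}
    (hh : ∀ x ∈ L, h x = x) (g : GQ) : ∀ x ∈ L, (g * h * g⁻¹) x = x := by
  intro x hx
  have h2 : h (g⁻¹ x) = g⁻¹ x := hh _ (hL g⁻¹ x hx)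
  change g (h (g⁻¹ x)) = x
  rw [h2]
  exact AlgEquiv.apply_symm_apply g x

lemma split_of_mem {L : IntermediateField ℚ Qb} (hL : IsStable L) (σ : E →+* Qb) {h : GQ}
    (hh : h ∈ SS σ L) : ∃ n s : GQ, (∀ x ∈ L, n x = x) ∧ act s σ = σ ∧ h = n * s := by
  unfold SS at hh
  induction hh using Subgroup.closure_induction with
  | mem x hx =>
    rcases hx with hx | hx
    · exact ⟨1, x, fun _ _ => rfl, hx, (one_mul x).symm⟩
    · exact ⟨x, 1, hx, act_one σ, (mul_one x).symm⟩
  | one => exact ⟨1, 1, fun _ _ => rfl, act_one σ, (one_mul 1).symm⟩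
  | mul x y _ _ hx hy =>
    obtain ⟨n, s, hn, hs, rfl⟩ := hx
    obtain ⟨n', s', hn', hs', rfl⟩ := hy
    refine ⟨n * (s * n' * s⁻¹), s * s', fun x hx => ?_, ?_, by group⟩
    · change n ((s * n' * s⁻¹) x) = x
      rw [stable_conj hL hn' s x hx, hn x hx]
    · rw [act_mul, hs', hs]
  | inv x _ hx =>
    obtain ⟨n, s, hn, hs, rfl⟩ := hx
    refine ⟨s⁻¹ * n⁻¹ * s⁻¹⁻¹, s⁻¹, ?_, ?_, by group⟩
    · exact stable_conj hL (inv_fix hn) s⁻¹
    · conv_lhs => rw [← hs]
      exact act_inv_act s σ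

/-- **Conjugate embeddings.** -/
theorem isConj_of_agree {L : IntermediateField ℚ Qb} (hL : IsStable L) {σ τ : E →+* Qb}
    (h : ∀ x, σ x ∈ L → τ x = σ x) : IsConj L σ τ := by
  obtain ⟨g, hg, hgτ⟩ := orbit σ L τ h
  obtain ⟨n, s, hn, hs, rfl⟩ := split_of_mem hL σ hg
  rw [act_mul, hs] at hgτ
  exact ⟨n, hn, fun x => RingHom.congr_fun hgτ x⟩

/-- The number of the conjugates. -/
theorem card_conj {L : IntermediateField ℚ Qb} (hL : IsStable L) (σ : E →+* Qb) :
    Nat.card {τ : E →+* Qb // IsConj L σ τ} = finrank (preimage L σ) E := by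
  rw [← card_agree σ (preimage L σ)]
  refine Nat.card_congr (Equiv.subtypeEquivRight fun τ => ?_)
  constructor
  · rintro ⟨h, hh, hτ⟩ x hx
    rw [← hτ]
    exact hh _ hx
  · intro h
    exact isConj_of_agree hL fun x hx => h x hx

variable [IsCMField E]

theorem isConjOver_of_real {L : IntermediateField ℚ Qb} (hL : IsStable L)
    (h : RealIntersection E L) : IsConjOver E L := fun σ => isConj_of_agree hL fun x hx => by
  rw [cj_apply]
  exact congrArg σ (h σ x hx)

theorem largeOrbits_of {L : IntermediateField ℚ Qb} (hL : IsStable L) {n : ℕ}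
    (h : SmallIntersection E L n) : LargeOrbits E L n := by
  intro σ
  rcases h σ with h | h
  · left
    exact isConj_of_agree hL fun x hx => by
      rw [cj_apply]
      exact congrArg σ (h x hx)
  · right
    rw [card_conj hL]
    exact h

end Pool.Agent.Y103.Hk
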