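import Pool.Agent.Y103.Hk.Rel

/-!
# Relations and norm relations: local degree at most two, or prime degree
-/

set_option autoImplicit false
set_option linter.unusedSectionVars false

namespace Pool.Agent.Y103.Hk

open Pool.Agent.W517.K3 Pool.Agent.H485R3 Pool.Agent.Y138.KC

/-- The set `B` is a class of a norm relation. -/
structure NormBlock (G : Type*) {X : Type*} [Group G] [MulAction G X] (c : X → X) (v : X → ℤ)
    (B : Finset X) : Prop where
  nonempty : B.Nonempty
  block : ∀ g : G, ∀ x ∈ B, g • x ∈ B → ∀ y ∈ B, g • y ∈ B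
  disj : ∀ x ∈ B, c x ∉ B
  zero : ∀ g : G, ∑ x ∈ B, v (g • x) = 0

open Finset

variable {G X : Type*} [Group G] [MulAction G X] [Fintype X] [DecidableEq X]
  {c : X → X} {v : X → ℤ}

theorem Rel.comp_smul (hS : Sgn G c v) {n : X → ℤ} (hn : Rel G c v n) (h : G) :
    Rel G c v fun x => n (h • x) := by
  refine ⟨fun x => ?_, fun g => ?_⟩
  · change n (h • c x) = - n (h • x)
    rw [← hS.cg, hn.1]
  · have h1 := hn.2 (g * h⁻¹)
    rw [← h1]
    refine Fintype.sum_equiv (MulAction.toPerm h) _ _ fun x => ?_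
    change n (h • x) * v (g • x) = n (h • x) * v ((g * h⁻¹) • h • x)
    rw [mul_smul, inv_smul_smul]

variable (hS : Sgn G c v)
include hS

/-- the relation in terms of the points with value one -/
theorem sum_Lv {n : X → ℤ} (hn : Rel G c v n) (g : G) : ∑ y ∈ Lv v 1, n (g • y) = 0 := by
  have h1 := hn.2 g⁻¹
  have h2 : ∑ x, n x * v (g⁻¹ • x) = ∑ y, n (g • y) * v y := by
    refine Fintype.sum_equiv (MulAction.toPerm g⁻¹) _ _ fun x => ?_
    change _ = n (g • g⁻¹ • x) * v (g⁻¹ • x)
    rw [smul_inv_smul]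
  rw [h2] at h1
  have h3 : ∀ y, n (g • y) * v y =
      (if v y = 1 then n (g • y) else 0) + (if v (c y) = 1 then n (g • c y) else 0) := by
    intro y
    have h4 : n (g • c y) = - n (g • y) := by rw [← hS.cg, hn.1]
    have h5 := hS.odd y
    rcases hS.val y with h | h | h <;> simp [h, h5, h4]
  rw [Finset.sum_congr rfl fun y _ => h3 y, Finset.sum_add_distrib] at h1
  have h6 : ∑ y, (if v (c y) = 1 then n (g • c y) else 0) =
      ∑ y, if v y = 1 then n (g • y) else 0 :=
    Fintype.sum_equiv ⟨c, c, hS.cc, hS.cc⟩ _ _ fun y => rfl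
  rw [h6] at h1
  have h7 : ∑ y, (if v y = 1 then n (g • y) else 0) = ∑ y ∈ Lv v 1, n (g • y) := by
    rw [← Finset.sum_filter]
    rfl
  rw [h7] at h1
  omega

/-- the sum over a block -/
theorem sum_block (B : Finset X) (g : G) :
    ∑ x ∈ B, v (g • x) = ∑ y ∈ Lv v 1, ((if g⁻¹ • y ∈ B then 1 else 0) -
      (if g⁻¹ • c y ∈ B then 1 else 0) : ℤ) := by
  have h1 : ∑ x ∈ B, v (g • x) = ∑ y, (if g⁻¹ • y ∈ B then v y else 0) := by
    rw [← Finset.sum_filter]
    refine Finset.sum_bij (fun x _ => g • x) (fun x hx => ?_) (fun x _ x' _ h => ?_)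
      (fun y hy => ?_) (fun x _ => rfl)
    · simpa using hx
    · exact MulAction.injective g h
    · exact ⟨g⁻¹ • y, (Finset.mem_filter.1 hy).2, smul_inv_smul g y⟩
  have h2 : ∀ y, (if g⁻¹ • y ∈ B then v y else 0) =
      (if v y = 1 then (if g⁻¹ • y ∈ B then 1 else 0) else 0) -
        (if v (c y) = 1 then (if g⁻¹ • y ∈ B then 1 else 0) else 0) := by
    intro y
    have h5 := hS.odd y
    rcases hS.val y with h | h | h <;> by_cases h6 : g⁻¹ • y ∈ B <;> simp [h, h5, h6]
  have h3 : ∑ y, (if v (c y) = 1 then (if g⁻¹ • y ∈ B then 1 else 0) else 0 : ℤ) =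
      ∑ y, (if v y = 1 then (if g⁻¹ • c y ∈ B then 1 else 0) else 0 : ℤ) := by
    refine Fintype.sum_equiv ⟨c, c, hS.cc, hS.cc⟩ _ _ fun y => ?_
    change _ = (if v (c y) = 1 then (if g⁻¹ • c (c y) ∈ B then 1 else 0) else 0 : ℤ)
    rw [hS.cc]
  rw [h1, Finset.sum_congr rfl fun y _ => h2 y, Finset.sum_sub_distrib, h3,
    ← Finset.sum_sub_distrib]
  unfold Lv
  rw [Finset.sum_filter]
  refine Finset.sum_congr rfl fun y _ => ?_
  by_cases h : v y = 1 <;> simp [h]

/-- **Local degree at most two**: a relation comes from a norm relation. -/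
theorem normBlock_two (hm : (Lv v 1).card ≤ 2) {n : X → ℤ} (hn : Rel G c v n) {x₀ : X}
    (h0 : n x₀ ≠ 0) : ∃ B, NormBlock G c v B := by
  classical
  let B : Finset X := univ.filter fun y => ∀ n' : X → ℤ, Rel G c v n' → n' y = n' x₀
  have hB : ∀ y, y ∈ B ↔ ∀ n' : X → ℤ, Rel G c v n' → n' y = n' x₀ := by
    intro y
    simp [B]
  have hsep : ∀ x, ∃ n' : X → ℤ, Rel G c v n' ∧ n' x ≠ 0 := by
    intro x
    obtain ⟨g, hg⟩ := hS.trans x x₀
    refine ⟨fun y => n (g • y), Rel.comp_smul hS hn g, ?_⟩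
    change n (g • x) ≠ 0
    rwa [hg]
  refine ⟨B, ⟨x₀, (hB x₀).2 fun n' _ => rfl⟩, ?_, ?_, ?_⟩
  · intro g x hx hgx y hy
    rw [hB] at hx hgx hy ⊢
    intro n' hn'
    have h1 := Rel.comp_smul hS hn' g
    have h2 : n' (g • y) = n' (g • x₀) := hy _ h1
    have h3 : n' (g • x) = n' (g • x₀) := hx _ h1
    rw [h2, ← h3, hgx n' hn']
  · intro x hx hcx
    rw [hB] at hx hcx
    obtain ⟨n', hn', hx'⟩ := hsep x
    have h1 := hcx n' hn'
    rw [hn'.1, ← hx n' hn'] at h1
    omega
  · intro g
    rw [sum_block hS]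
    -- the points with value one
    obtain ⟨x₁, h1⟩ := hS.ex
    have h1' : x₁ ∈ Lv v 1 := mem_Lv.2 h1
    have hcard : (Lv v 1).card = 1 ∨ (Lv v 1).card = 2 := by
      have : 0 < (Lv v 1).card := Finset.card_pos.2 ⟨x₁, h1'⟩
      omega
    rcases hcard with h | h
    · exfalso
      obtain ⟨y, hy⟩ := Finset.card_eq_one.1 h
      obtain ⟨k, hk⟩ := hS.trans y x₀
      have h2 := sum_Lv hS hn k
      rw [hy, Finset.sum_singleton, hk] at h2
      exact h0 h2
    · obtain ⟨y, z, hyz, hLv⟩ := Finset.card_eq_two.1 h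
      have key : ∀ n' : X → ℤ, Rel G c v n' → ∀ k : G, n' (k • y) = n' (k • c z) := by
        intro n' hn' k
        have h2 := sum_Lv hS hn' k
        rw [hLv, Finset.sum_pair hyz] at h2
        rw [← hS.cg, hn'.1]
        omega
      have key' : ∀ n' : X → ℤ, Rel G c v n' → ∀ k : G, n' (k • z) = n' (k • c y) := by
        intro n' hn' k
        have h2 := sum_Lv hS hn' k
        rw [hLv, Finset.sum_pair hyz] at h2
        rw [← hS.cg, hn'.1]
        omega
      have e1 : g⁻¹ • y ∈ B ↔ g⁻¹ • c z ∈ B := by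
        rw [hB, hB]
        exact ⟨fun h3 n' hn' => by rw [← key n' hn', h3 n' hn'],
          fun h3 n' hn' => by rw [key n' hn', h3 n' hn']⟩
      have e2 : g⁻¹ • z ∈ B ↔ g⁻¹ • c y ∈ B := by
        rw [hB, hB]
        exact ⟨fun h3 n' hn' => by rw [← key' n' hn', h3 n' hn'],
          fun h3 n' hn' => by rw [key' n' hn', h3 n' hn']⟩
      rw [hLv, Finset.sum_pair hyz]
      simp only [e1, e2]
      ring

/-- **Prime degree**: a relation comes from a norm relation. -/
theorem normBlock_prime {ℓ : ℕ} [Finite G] (hℓ : ℓ.Prime) (hX : Fintype.card X = 2 * ℓ)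
    {n : X → ℤ} (hn : Rel G c v n) {x₀ : X} (h0 : n x₀ ≠ 0) : ∃ B, NormBlock G c v B := by
  classical
  by_cases hodd : ℓ = 2
  · refine normBlock_two hS ?_ hn h0
    -- at most half of the points have the value one
    have h1 : (Lv v 1).card = (Lv v (-1)).card := by
      refine Finset.card_bij (fun x _ => c x) (fun x hx => ?_) (fun x _ y _ h => ?_)
        (fun y hy => ⟨c y, ?_, hS.cc y⟩)
      · rw [mem_Lv] at hx ⊢
        rw [hS.odd, hx]
      · have := congrArg c h
        rwa [hS.cc, hS.cc] at this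
      · rw [mem_Lv] at hy ⊢
        rw [hS.odd, hy]
        rfl
    have h2 : Disjoint (Lv v 1) (Lv v (-1)) := by
      rw [Finset.disjoint_left]
      intro x hx hx'
      rw [mem_Lv] at hx hx'
      omega
    have h3 : (Lv v 1 ∪ Lv v (-1)).card ≤ Fintype.card X := Finset.card_le_univ _
    rw [Finset.card_union_of_disjoint h2, hX, hodd] at h3
    omega
  obtain ⟨t, ht⟩ := abs_prime hS hℓ hodd hX hn
  have ht0 : 0 < t := by
    rw [← ht x₀]
    exact abs_pos.2 h0
  have hval : ∀ x, n x = t ∨ n x = -t := by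
    intro x
    exact eq_or_eq_neg_of_abs_eq (ht x)
  -- the translates
  have htr : ∀ g : G, (∀ x, n (g • x) = n x) ∨ (∀ x, n (g • x) = - n x) := by
    intro g
    have hrel : Rel G c v fun x => n (g • x) + (-1) * n x := by
      have h1 := Rel.comp_smul hS hn g
      refine ⟨fun x => ?_, fun k => ?_⟩
      · have h2 : n (g • c x) = - n (g • x) := h1.1 x
        change n (g • c x) + (-1) * n (c x) = -(n (g • x) + (-1) * n x)
        rw [h2, hn.1]
        ring
      · have h2 : ∑ x, n (g • x) * v (k • x) = 0 := h1.2 k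
        have h3 := hn.2 k
        have h4 : ∀ x, (n (g • x) + (-1) * n x) * v (k • x) =
            n (g • x) * v (k • x) + (-1) * (n x * v (k • x)) := fun x => by ring
        rw [Finset.sum_congr rfl fun x _ => h4 x, Finset.sum_add_distrib, ← Finset.mul_sum,
          h2, h3]
        ring
    obtain ⟨s, hs⟩ := abs_prime hS hℓ hodd hX hrel
    by_cases hs0 : s = 0
    · left
      intro x
      have h1 := hs x
      rw [hs0, abs_eq_zero] at h1
      omega
    · right
      intro x
      have h1 := hs x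
      rcases hval x with h | h <;> rcases hval (g • x) with h' | h' <;> rw [h, h'] at h1 ⊢
      · exfalso
        apply hs0
        rw [← h1]
        simp
      · rw [neg_neg]
      · exfalso
        apply hs0
        rw [← h1]
        simp
  let B : Finset X := univ.filter fun y => n y = n x₀
  have hB : ∀ y, y ∈ B ↔ n y = n x₀ := by
    intro y
    simp [B]
  have hx0 : n x₀ ≠ 0 := h0
  refine ⟨B, ⟨x₀, (hB x₀).2 rfl⟩, ?_, ?_, ?_⟩
  · intro g x hx hgx y hy
    rw [hB] at hx hgx hy ⊢
    rcases htr g with h | h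
    · rw [h, hy]
    · exfalso
      rw [h, hx] at hgx
      omega
  · intro x hx hcx
    rw [hB] at hx hcx
    rw [hn.1, hx] at hcx
    omega
  · intro g
    have h1 := hn.2 g
    have h2 : ∀ x, n x * v (g • x) = n x₀ * ((if x ∈ B then v (g • x) else 0) -
        (if c x ∈ B then v (g • x) else 0)) := by
      intro x
      by_cases hx : x ∈ B
      · have hcx : c x ∉ B := by
          rw [hB] at hx ⊢
          rw [hn.1, hx]
          omega
        rw [if_pos hx, if_neg hcx, (hB x).1 hx]
        ring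
      · have hx' : n x = - n x₀ := by
          rw [hB] at hx
          rcases hval x with h | h <;> rcases hval x₀ with h' | h' <;> omega
        have hcx : c x ∈ B := by
          rw [hB, hn.1, hx', neg_neg]
        rw [if_neg hx, if_pos hcx, hx']
        ring
    rw [Finset.sum_congr rfl fun x _ => h2 x, ← Finset.mul_sum, Finset.sum_sub_distrib] at h1
    have h3 : ∑ x, (if c x ∈ B then v (g • x) else 0) = - ∑ x, if x ∈ B then v (g • x) else 0 := by
      rw [← Finset.sum_neg_distrib]
      refine Fintype.sum_equiv ⟨c, c, hS.cc, hS.cc⟩ _ _ fun x => ?_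
      change _ = -(if c x ∈ B then v (g • c x) else 0)
      rw [← hS.cg, hS.odd]
      split_ifs <;> simp
    have h4 : ∑ x, (if x ∈ B then v (g • x) else 0) = ∑ x ∈ B, v (g • x) := by
      rw [← Finset.sum_filter]
      congr 1
      ext x
      simp
    rw [h3, h4] at h1
    rcases mul_eq_zero.1 h1 with h | h
    · exact absurd h hx0
    · omega

end Pool.Agent.Y103.Hk
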