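import Pool.Agent.Y103.Hk.Defs
import Pool.Agent.W458.RK.Geo
import Pool.Agent.W536.RBase
import Pool.Agent.TH121.KT.Geo

/-!
# Correspondences and the Frobenius endomorphism
-/

set_option autoImplicit false

open CategoryTheory AlgebraicGeometry NumberField

universe u v

namespace Pool.Agent.Y103.Hk

open Pool.Agent.H914 Pool.Agent.H914.VarClass Pool.Agent.H914.VarClass.Obj
  Pool.Agent.H914.WeilCohomology Pool.Agent.H281R3.HT Pool.Agent.W552 Pool.Agent.W534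
  Pool.Agent.W458.RK Pool.Agent.W458.MF Pool.Agent.TH132.A Pool.Agent.W536.RR

variable {k : Type u} [Field k] {𝒱 : VarClass k} {ops : CycleOps 𝒱}
  {W : WeilCohomology.{u, v} ops} {X Y Z : 𝒱.Obj}

lemma ext_corr_left {c : W.H (X.prod Z)} (hc : c ∈ algSpan W (X.prod Z)) {x : W.H X} {y : W.H Y}
    (h : ext W x y ∈ algSpan W (X.prod Y)) :
    ext W (W.corr c x) y ∈ algSpan W (Z.prod Y) := by
  rw [ext, corr_apply, W.base_change, ← W.push_mul, map_mul (W.map _), mul_assoc]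
  refine algSpan_push _ (algSpan_mul (algSpan_map _ hc) ?_)
  have h1 : W.map (p12 X Z Y) (W.map (fst X Z) x) * W.map (p23 X Z Y) (W.map (snd Z Y) y) =
      W.map (p13 X Z Y) (ext W x y) := by
    rw [ext, map_mul, ← W.map_comp, ← W.map_comp, ← W.map_comp, ← W.map_comp]
    congr 3
    · rw [show p12 X Z Y ≫ fst X Z = fst X (Z.prod Y) from Obj.lift_fst _ _,
        show p13 X Z Y ≫ fst X Y = fst X (Z.prod Y) from Obj.lift_fst _ _]
    · rw [show p13 X Z Y ≫ snd X Y = p23 X Z Y ≫ snd Z Y from Obj.lift_snd _ _]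
  rw [h1]
  exact algSpan_map _ h

lemma ext_swap {x : W.H X} {y : W.H Y} {j : ℕ} (hx : x ∈ W.gr X (2 * j))
    (h : ext W x y ∈ algSpan W (X.prod Y)) : ext W y x ∈ algSpan W (Y.prod X) := by
  have h1 : ext W y x = W.map (swap Y X) (ext W x y) := by
    rw [ext, ext, map_mul, ← W.map_comp, ← W.map_comp, swap_fst, swap_snd]
    exact (W.even_comm (W.map_mem (snd Y X) hx) _).symm
  rw [h1]
  exact algSpan_map _ h

/-- the product of two classes on the same variety -/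
lemma mul_of_ext {x y : W.H Z} (h : ext W x y ∈ algSpan W (Z.prod Z)) : x * y ∈ algSpan W Z := by
  have h1 : x * y = W.map (diag Z) (ext W x y) := by
    rw [ext, map_mul, ← W.map_comp, ← W.map_comp, diag, Obj.lift_fst, Obj.lift_snd, W.map_id,
      W.map_id]
  rw [h1]
  exact algSpan_map _ h

variable {p : ℕ} (Φ : FrobSystem W p)

/-- **The Frobenius endomorphism and an algebraic correspondence.** -/
lemma frob_corr {j : ℕ} {z : (X.prod Z).Cycles} (hz : (X.prod Z).IsCyc j z) :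
    ∃ a b, 0 < a ∧ 0 < b ∧ a * Φ.e Z = b * Φ.e X ∧ ∀ (t : ℕ) (x : W.H X),
        frob Φ Z (a * t) (W.corr (W.cl _ z) x) =
          (card Φ Z (a * t) : W.K) ^ ((j : ℤ) - X.dim) •
            W.corr (W.cl _ z) (frob Φ X (b * t) x) := by
  obtain ⟨a₁, b₁, ha₁, hb₁, hab₁, h1⟩ := frob_comm Φ (fst X Z)
  obtain ⟨a₂, b₂, ha₂, hb₂, hab₂, h2⟩ := frob_comm Φ (snd X Z)
  obtain ⟨s, hs, h3⟩ := Φ.cyc hz
  refine ⟨b₂ * (a₁ * s), b₁ * (a₂ * s), by positivity, by positivity, ?_, ?_⟩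
  · calc b₂ * (a₁ * s) * Φ.e Z = a₁ * s * (b₂ * Φ.e Z) := by ring
      _ = a₂ * s * (a₁ * Φ.e (X.prod Z)) := by rw [← hab₂]; ring
      _ = b₁ * (a₂ * s) * Φ.e X := by rw [hab₁]; ring
  intro t x
  set c := W.cl _ z with hc
  set Q : W.K := (card Φ Z (b₂ * (a₁ * s) * t) : W.K) with hQ
  have hQ0 : Q ≠ 0 := card_ne Φ _
  have hQ1 : Q = (p : W.K) ^ (Φ.e (X.prod Z) * (a₁ * a₂ * s * t)) := by
    rw [hQ, W534.card, Nat.cast_pow]
    congr 1
    calc Φ.e Z * (b₂ * (a₁ * s) * t) = (b₂ * Φ.e Z) * (a₁ * s * t) := by ring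
      _ = _ := by rw [← hab₂]; ring
  -- the Frobenius endomorphism of the product
  have hF1 : W.map (W534.iter (Φ.Fr (X.prod Z)) (a₁ * a₂ * s * t)) (W.map (fst X Z) x) =
      W.map (fst X Z) (frob Φ X (b₁ * (a₂ * s) * t) x) := by
    rw [show a₁ * a₂ * s * t = a₁ * (a₂ * s * t) by ring, h1,
      show b₁ * (a₂ * s * t) = b₁ * (a₂ * s) * t by ring]
    rfl
  have hF2 : ∀ u : W.H Z, W.map (W534.iter (Φ.Fr (X.prod Z)) (a₁ * a₂ * s * t)) (W.map (snd X Z) u) =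
      W.map (snd X Z) (frob Φ Z (b₂ * (a₁ * s) * t) u) := by
    intro u
    rw [show a₁ * a₂ * s * t = a₂ * (a₁ * s * t) by ring, h2,
      show b₂ * (a₁ * s * t) = b₂ * (a₁ * s) * t by ring]
    rfl
  have hF3 : W.map (W534.iter (Φ.Fr (X.prod Z)) (a₁ * a₂ * s * t)) c = Q ^ j • c := by
    rw [show a₁ * a₂ * s * t = (a₁ * a₂ * t) * s by ring, frob_mul' Φ h3, hQ1, ← pow_mul]
    congr 2
    ring
  -- the trace
  have htr : ∀ (x : W.H X) (u : W.H Z), W.tr Z (W.corr c x * u) =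
      W.tr (X.prod Z) (c * W.map (fst X Z) x * W.map (snd X Z) u) := by
    intro x u
    rw [corr_apply, W.tr_push]
  have hkey : ∀ u : W.H Z, Q ^ X.dim * W.tr Z (frob Φ Z (b₂ * (a₁ * s) * t) (W.corr c x) *
      frob Φ Z (b₂ * (a₁ * s) * t) u) =
        Q ^ j * W.tr Z (W.corr c (frob Φ X (b₁ * (a₂ * s) * t) x) *
          frob Φ Z (b₂ * (a₁ * s) * t) u) := by
    intro u
    have h4 : W.tr Z (frob Φ Z (b₂ * (a₁ * s) * t) (W.corr c x) *
        frob Φ Z (b₂ * (a₁ * s) * t) u) = Q ^ Z.dim * W.tr Z (W.corr c x * u) := by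
      change W.tr Z (W.map _ (W.corr c x) * W.map _ u) = _
      rw [← map_mul, tr_iter Φ, hQ, W534.card, Nat.cast_pow, ← pow_mul]
    have h5 := tr_iter Φ (a₁ * a₂ * s * t) (c * W.map (fst X Z) x * W.map (snd X Z) u)
    rw [map_mul (W.map (W534.iter _ _)), map_mul (W.map (W534.iter _ _)), hF1, hF2, hF3,
      smul_mul_assoc, smul_mul_assoc, map_smul, smul_eq_mul, ← htr, ← htr] at h5
    have h6 : (p : W.K) ^ (Φ.e (X.prod Z) * (a₁ * a₂ * s * t) * (X.prod Z).dim) =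
        Q ^ X.dim * Q ^ Z.dim := by
      rw [← pow_add, hQ1, ← pow_mul, dim_prod]
    rw [h6] at h5
    rw [h4, h5]
    ring
  have hzero : Q ^ X.dim • frob Φ Z (b₂ * (a₁ * s) * t) (W.corr c x) -
      Q ^ j • W.corr c (frob Φ X (b₁ * (a₂ * s) * t) x) = 0 := by
    apply W.nondeg
    intro u
    obtain ⟨u, rfl⟩ := map_iter_surjective Φ (b₂ * (a₁ * s) * t) u
    rw [sub_mul, map_sub, smul_mul_assoc, smul_mul_assoc, map_smul, map_smul, smul_eq_mul,
      smul_eq_mul, sub_eq_zero]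
    exact hkey u
  have h7 := sub_eq_zero.1 hzero
  have h8 : Q ^ X.dim ≠ 0 := pow_ne_zero _ hQ0
  calc frob Φ Z (b₂ * (a₁ * s) * t) (W.corr c x)
      = (Q ^ X.dim)⁻¹ • (Q ^ X.dim • frob Φ Z (b₂ * (a₁ * s) * t) (W.corr c x)) := by
        rw [smul_smul, inv_mul_cancel₀ h8, one_smul]
    _ = Q ^ ((j : ℤ) - X.dim) • W.corr c (frob Φ X (b₁ * (a₂ * s) * t) x) := by
        rw [h7, smul_smul, zpow_sub₀ hQ0, zpow_natCast, zpow_natCast]
        congr 1
        field_simp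

end Pool.Agent.Y103.Hk
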