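import Pool.Agent.Y103.Hk.Word

/-!
# The Tate conjecture for the varieties built from one piece of K3 type
-/

set_option autoImplicit false
set_option linter.unusedSectionVars false

open CategoryTheory AlgebraicGeometry NumberField Polynomial
open scoped TensorProduct

universe u v

namespace Pool.Agent.Y103.Hk

open Pool.Agent.H914 Pool.Agent.H914.VarClass Pool.Agent.H914.VarClass.Obj
  Pool.Agent.H914.WeilCohomology Pool.Agent.H281R3.HT Pool.Agent.W552 Pool.Agent.W534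
  Pool.Agent.W458.RK Pool.Agent.W458.MF Pool.Agent.TH132.A Pool.Agent.W536.RR
  Pool.Agent.TH121.KT Pool.Agent.Y138.KC

variable {k : Type u} [Field k] {𝒱 : VarClass k} {ops : CycleOps 𝒱}
  {W : WeilCohomology.{u, v} ops} {X Y Z : 𝒱.Obj} {p : ℕ} [Fact p.Prime] {Φ : FrobSystem W p}
  {b e : ℕ} {ι : Qb →+* PadicAlgCl p}
  {E : Type} [Field E] [NumberField E] [IsCMField E] {α : E}

open Classical in
/-- the multiplicities -/
noncomputable def mult (L : List (Lt Φ X b e α Z)) (σ : E →+* W.K) : ℕ := (L.map Lt.σ).count σ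

lemma sum_mult (L : List (Lt Φ X b e α Z)) : ∑ σ : E →+* W.K, mult L σ = L.length := by
  classical
  have h := List.sum_toFinset_count_eq_length (L.map Lt.σ)
  rw [List.length_map] at h
  rw [← h]
  symm
  refine Finset.sum_subset_zero_on_sdiff (Finset.subset_univ _) (fun x hx => ?_) fun x _ => ?_
  · rw [Finset.mem_sdiff, List.mem_toFinset] at hx
    exact List.count_eq_zero_of_not_mem hx.2
  · unfold mult
    congr

/-- a product over a list of letters -/
lemma prod_letters (w : ℕ) (L : List (Lt Φ X b e α Z)) :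
    (L.map fun l => (l.σ α) ^ w).prod =
      letterProd (K := fun _ : Fin 1 => E) (fun _ : Fin 1 => α) (fun _ => w)
        (fun _ => mult L) := by
  classical
  have h1 : (L.map fun l => (l.σ α) ^ w) =
      (L.map Lt.σ).map fun σ : E →+* W.K => (σ α) ^ w := by
    rw [List.map_map]
    rfl
  rw [h1, Finset.prod_list_map_count, Finset.prod_subset (Finset.subset_univ _)]
  · unfold letterProd
    rw [Fin.prod_univ_one]
    refine Finset.prod_congr rfl fun σ _ => ?_
    rw [← pow_mul]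
    rfl
  · intro x _ hx
    rw [List.mem_toFinset] at hx
    rw [List.count_eq_zero_of_not_mem hx, pow_zero]

/-- **The Tate conjecture for the products of `Z` with all independent varieties.** -/
theorem tateTimesP_built [IsAlgClosed W.K] (hP : PairsAlg Φ X b e α) (he : 0 < e) {n : ℕ}
    (hZ : IsBuiltFrom Φ X b e α n Z) {L : IntermediateField ℚ Qb}
    (hz : ZeroProp ι α L n) : TateTimesP Φ (InL p ι L) Z := by
  classical
  intro s hs V _ _ _ G hG c a x hx
  have hp0 : (p : W.K) ≠ 0 := by exact_mod_cast (Fact.out : p.Prime).ne_zero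
  have hpq : (p : ℚ) ≠ 0 := by exact_mod_cast (Fact.out : p.Prime).ne_zero
  have hcard : ∀ t, ((card Φ Z t : ℚ)) ≠ 0 := by
    intro t
    rw [W534.card]
    push_cast
    exact pow_ne_zero _ hpq
  have hQ : ∀ t, (card Φ Z t : W.K) ≠ 0 := fun t => card_ne Φ t
  refine (tensor_killed (F := frob Φ Z s) (G := G) (card Φ Z s : W.K) (hQ s) c
    (fun i => cycSub W Z i) (fun i y hy => cyc_killed Φ hy) ?_ a x).1 hx
  intro μ ν N hN hν hrel
  refine le_trans ?_ algSpan_le_cyc
  intro y hy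
  obtain ⟨Q, ν₀, t, ht, hQ0, hLQ, hν₀, rfl⟩ := hG ν hν
  have hν0 : ν₀ ≠ 0 := by
    rintro rfl
    rw [zero_pow ht.ne', mul_zero, zero_pow hN.ne'] at hrel
    exact pow_ne_zero _ (zpow_ne_zero _ (hQ s)) hrel.symm
  obtain ⟨t₀, ht₀, h0⟩ := span_good (span_words hZ y)
  have h1 := h0 s hs
  set T := t₀ * s with hTdef
  have hTs : T = s * t₀ := mul_comm t₀ s
  have h2 : y ∈ Module.End.maxGenEigenspace (frob Φ Z T) (μ ^ t₀) := by
    rw [hTs, frob_mul_eq]
    exact gen_pow_of_gen hy _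
  have heig : ∀ v ∈ GoodWords Φ X b e α n Z T, ∃ (ω : W.K) (A : ℤ) (M : ℕ)
      (L : List (Lt Φ X b e α Z)) (C : W.H Z), L.length ≤ n ∧ frob Φ Z T v = ω • v ∧ 0 < M ∧
      C ∈ algSpan W Z ∧ v = wordVal L * C ∧
      ω ^ (e * Φ.e X * M) = (card Φ Z T : W.K) ^ A *
        letterProd (K := fun _ : Fin 1 => E) (fun _ : Fin 1 => α) (fun _ => T * Φ.e Z * M)
          (fun _ => mult L) := by
    rintro v ⟨L, j, M, c, hLn, hM, hc, hL, hcyc, rfl⟩
    obtain ⟨ω, A, h3, h4⟩ := word_eigen L hL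
    refine ⟨ω * (card Φ Z T : W.K) ^ j, A + (j * (e * Φ.e X * M) : ℕ), M, L,
      W.cl Z c, hLn, ?_, hM, cl_mem_algSpan hc, rfl, ?_⟩
    · rw [frob_mul_apply, h3, hcyc, smul_mul_smul_comm]
    · rw [mul_pow, h4, prod_letters, zpow_add₀ (hQ T), zpow_natCast, ← pow_mul]
      ring
  have h3 := mem_span_gen (T := frob Φ Z T) (fun v hv => by
    obtain ⟨ω, _, _, _, _, _, h, _⟩ := heig v hv
    exact ⟨ω, eig_mem_gen h⟩) h1 h2
  refine (Submodule.span_le (p := algSpan W Z)).2 ?_ h3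
  rintro v ⟨hv, hvμ⟩
  by_cases hv0 : v = 0
  · rw [hv0]
    exact Submodule.zero_mem _
  obtain ⟨ω, A, M, Lw, C, hLn, h4, hM, hC, hvL, h5⟩ := heig v hv
  have h6 : ω = μ ^ t₀ := eq_of_mem_gen (eig_mem_gen h4) hvμ hv0
  -- the relation
  let E' : ℕ := e * Φ.e X * M
  have hE : 0 < E' := Nat.mul_pos (Nat.mul_pos he (Φ.e_pos _)) hM
  let w : ℕ := T * Φ.e Z * M
  have hTpos : 0 < T := Nat.mul_pos ht₀ hs
  have hw : 0 < w := Nat.mul_pos (Nat.mul_pos hTpos (Φ.e_pos _)) hM
  let x₀ : ℚ := ((card Φ Z s : ℚ) ^ c) ^ (N * (t₀ * E')) * (((card Φ Z T : ℚ) ^ A) ^ N)⁻¹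
  have hx₀ : x₀ ≠ 0 := mul_ne_zero (pow_ne_zero _ (zpow_ne_zero _ (hcard s)))
    (inv_ne_zero (pow_ne_zero _ (zpow_ne_zero _ (hcard T))))
  have h7 : letterProd (K := fun _ : Fin 1 => E) (fun _ : Fin 1 => α) (fun _ => N * w)
      (fun _ => mult Lw) * ν₀ ^ (t * (N * (t₀ * E'))) = (x₀ : W.K) := by
    rw [← letterProd_pow (K := fun _ : Fin 1 => E) (fun _ => w)]
    have h8 : (μ * ν₀ ^ t) ^ (N * (t₀ * E')) = ((card Φ Z s : W.K) ^ c) ^ (N * (t₀ * E')) := by
      rw [pow_mul, hrel, ← pow_mul]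
    have h9 : μ ^ (N * (t₀ * E')) = ((card Φ Z T : W.K) ^ A) ^ N *
        letterProd (K := fun _ : Fin 1 => E) (fun _ : Fin 1 => α) (fun _ => w)
          (fun _ => mult Lw) ^ N := by
      rw [← mul_pow, ← h5, h6, ← pow_mul, ← pow_mul]
      congr 1
      simp only [E']
      ring
    rw [mul_pow, h9] at h8
    have h10 : (x₀ : W.K) = ((card Φ Z s : W.K) ^ c) ^ (N * (t₀ * E')) *
        (((card Φ Z T : W.K) ^ A) ^ N)⁻¹ := by
      simp only [x₀]
      push_cast
      rfl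
    have h11 : ((card Φ Z T : W.K) ^ A) ^ N ≠ 0 := pow_ne_zero _ (zpow_ne_zero _ (hQ T))
    rw [h10, ← h8, pow_mul ν₀ t]
    generalize ((card Φ Z T : W.K) ^ A) ^ N = B at h11
    field_simp
  have htower : tower (fun _ : Fin 1 => (⊤ : IntermediateField ℚ Qb)) L 0 = L := by
    unfold tower
    have h2 : IsEmpty {j : Fin 1 // j < 0} := ⟨fun j => absurd j.2 (Fin.not_lt_zero _)⟩
    rw [iSup_of_empty, sup_bot_eq]
  have hbal := balanced_of_relation' (K := fun _ : Fin 1 => E) (α := fun _ => α)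
    (fun _ => mult Lw) (w := fun _ => N * w) (fun i => Nat.mul_pos hN hw) hx₀ hν0 h7 hQ0 hν₀ hLQ
    (S := fun _ => (⊤ : IntermediateField ℚ Qb)) (fun i h hh σ => by
      rw [hh _ IntermediateField.mem_top])
    (d := fun _ => n) (fun i => by
      rw [Subsingleton.elim i 0, htower]
      exact hz) (fun i => by
        show ∑ σ : E →+* W.K, mult Lw σ ≤ n
        rw [sum_mult]
        exact hLn) 0
  rw [hvL]
  exact algSpan_mul (balanced_alg hP Lw.length Lw le_rfl hbal) hC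

end Pool.Agent.Y103.Hk
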